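import Mathlib
import Pool.Agent.H49.MMS.Num

open Finset
open scoped BigOperators

namespace Pool.Agent.H61.MMS

open Pool.Agent.H49.MMS

variable {Λ α P : Type} [Fintype Λ] [DecidableEq Λ] [Fintype α] [DecidableEq α]
  [Fintype P] [DecidableEq P]

/-- extend a permutation along an embedding -/
noncomputable def ext (ι : P ↪ Λ) (π : Equiv.Perm P) : Equiv.Perm Λ := π.viaEmbedding ι

omit [Fintype Λ] [DecidableEq Λ] [Fintype P] [DecidableEq P] in
theorem ext_apply (ι : P ↪ Λ) (π : Equiv.Perm P) (p : P) : ext ι π (ι p) = ι (π p) :=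
  Equiv.Perm.viaEmbedding_apply π ι p

omit [Fintype Λ] [DecidableEq Λ] [Fintype P] [DecidableEq P] in
theorem ext_apply_not (ι : P ↪ Λ) (π : Equiv.Perm P) (l : Λ) (h : ∀ p, ι p ≠ l) :
    ext ι π l = l := by
  refine Equiv.Perm.viaEmbedding_apply_of_notMem π ι l ?_
  rintro ⟨p, hp⟩
  exact h p hp

/-- averages over all bijections may be computed by first averaging over permutations of a
part of the positions -/
theorem loc_avg (ι : P ↪ Λ) (x : α → ℝ) (F : (Λ → ℝ) → ℝ) :
    𝔼 e : Λ ≃ α, F (fun l => x (e l)) =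
      𝔼 e : Λ ≃ α, 𝔼 π : Equiv.Perm P, F (fun l => x (e (ext ι π l))) := by
  calc 𝔼 e : Λ ≃ α, F (fun l => x (e l))
      = 𝔼 _π : Equiv.Perm P, 𝔼 e : Λ ≃ α, F (fun l => x (e l)) := by rw [Fintype.expect_const]
    _ = 𝔼 π : Equiv.Perm P, 𝔼 e : Λ ≃ α, F (fun l => x (e (ext ι π l))) := by
        refine Finset.expect_congr rfl fun π _ => ?_
        rw [← expect_pre (ext ι π) (fun e : Λ ≃ α => F (fun l => x (e l)))]
        rfl
    _ = _ := Finset.expect_comm _ _ _

/-- invariance under one permutation of the positions -/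
theorem perm_avg (φ : Equiv.Perm Λ) (x : α → ℝ) (F : (Λ → ℝ) → ℝ) :
    𝔼 e : Λ ≃ α, F (fun l => x (e (φ l))) = 𝔼 e : Λ ≃ α, F (fun l => x (e l)) := by
  rw [← expect_pre φ (fun e : Λ ≃ α => F (fun l => x (e l)))]
  rfl

theorem pw_mono {W W' : ℝ} (h : W ≤ W') (x : ℝ) : pw W x ≤ pw W' x := by
  unfold pw
  split_ifs with h1 h2
  · exact le_rfl
  · exact absurd (h1.trans h) h2
  · norm_num
  · exact le_rfl

variable {h : ℕ}

/-- sum over the pairs -/
def T0 (w : Fin h × Bool → ℝ) : ℝ := ∑ p, w p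

/-- difference of the sums over the two halves -/
def D0 (w : Fin h × Bool → ℝ) : ℝ := ∑ j, (w (j, false) - w (j, true))

/-- sum of squared deviations -/
noncomputable def Q0 (w : Fin h × Bool → ℝ) : ℝ := ∑ p, (w p - T0 w / (2 * h)) ^ 2

theorem T0_perm (w : Fin h × Bool → ℝ) (π : Equiv.Perm (Fin h × Bool)) :
    T0 (fun p => w (π p)) = T0 w := Equiv.sum_comp π w

/-- anticoncentration of the difference of two random halves -/
theorem ac_half (w : Fin h × Bool → ℝ) (hh : 1000 ≤ h) (W : ℝ) (hW : 0 < W)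
    (hQ : 4800 * W ^ 2 ≤ Q0 w) :
    𝔼 π : Equiv.Perm (Fin h × Bool), pw W (D0 (fun p => w (π p))) ≤
      1 / 2 + 4800 / (2 * h - 1) := by
  have hhR : (1000 : ℝ) ≤ h := by exact_mod_cast hh
  set m : ℝ := T0 w / (2 * h) with hm
  set u : Fin h × Bool → ℝ := fun p => w p - m with hu
  set Q : ℝ := Q0 w with hQdef
  have hQu : ∑ p, u p ^ 2 = Q := rfl
  have hcard : (Fintype.card (Fin h × Bool) : ℝ) = 2 * h := by
    rw [Fintype.card_prod, Fintype.card_fin, Fintype.card_bool]; push_cast; ring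
  have hus : ∑ p, u p = 0 := by
    rw [hu, Finset.sum_sub_distrib, Finset.sum_const, Finset.card_univ, nsmul_eq_mul, hcard, hm]
    unfold T0
    field_simp
    ring
  have hQ0 : 0 < Q := by nlinarith [sq_nonneg W, pow_pos hW 2]
  set W' : ℝ := Real.sqrt (Q / 4800) with hW'
  have hW'2 : W' ^ 2 = Q / 4800 := Real.sq_sqrt (by positivity)
  have hW'0 : 0 < W' := Real.sqrt_pos.2 (by positivity)
  have hWW' : W ≤ W' := by
    rw [hW']
    refine Real.le_sqrt_of_sq_le ?_
    linarith
  -- pass to bijections from `Lam h 0`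
  have e1 : 𝔼 π : Equiv.Perm (Fin h × Bool), pw W (D0 (fun p => w (π p))) ≤
      𝔼 e : Lam h 0 ≃ (Fin h × Bool), pw W' (DD u e) := by
    have e2 : 𝔼 e : Lam h 0 ≃ (Fin h × Bool), pw W' (DD u e) =
        𝔼 π : Equiv.Perm (Fin h × Bool), pw W' (D0 (fun p => w (π p))) := by
      symm
      refine Fintype.expect_equiv
        (Equiv.equivCongr (Equiv.sumEmpty (Fin h × Bool) (Fin 0)).symm (Equiv.refl _)) _ _ ?_
      intro π
      congr 1
      unfold DD D0 dl
      refine Finset.sum_congr rfl fun j _ => ?_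
      simp [hu]
    rw [e2]
    exact Finset.expect_le_expect fun π _ => pw_mono hWW' _
  refine e1.trans ?_
  have hne : Nonempty (Lam h 0 ≃ (Fin h × Bool)) := ⟨Equiv.sumEmpty (Fin h × Bool) (Fin 0)⟩
  by_cases hbig : ∃ a, 2 * W' < |u a|
  · obtain ⟨a, ha⟩ := hbig
    have h1 := ac_one (k := h) (r := 0) u W' hW'0 a ha
    refine h1.trans ?_
    have hc : ((univ.filter (fun a => W' < |u a|)).card : ℝ) ≤ 4800 := by
      have h2 : ((univ.filter (fun a => W' < |u a|)).card : ℝ) * W' ^ 2 ≤ Q := by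
        calc ((univ.filter (fun a => W' < |u a|)).card : ℝ) * W' ^ 2
            = ∑ a ∈ univ.filter (fun a => W' < |u a|), W' ^ 2 := by
              rw [Finset.sum_const, nsmul_eq_mul]
          _ ≤ ∑ a ∈ univ.filter (fun a => W' < |u a|), u a ^ 2 := by
              refine Finset.sum_le_sum fun a ha => ?_
              have := (Finset.mem_filter.1 ha).2
              rw [← sq_abs (u a)]
              nlinarith
          _ ≤ ∑ a, u a ^ 2 := Finset.sum_le_sum_of_subset_of_nonneg (Finset.filter_subset _ _)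
              (fun _ _ _ => sq_nonneg _)
          _ = Q := hQu
      rw [hW'2] at h2
      by_contra hcon
      push Not at hcon
      nlinarith
    rw [hcard]
    have h3 : 1 - 2 * (h : ℝ) * (2 * h - ((univ.filter (fun a => W' < |u a|)).card : ℝ)) /
        (2 * h * (2 * h - 1)) = (((univ.filter (fun a => W' < |u a|)).card : ℝ) - 1) /
          (2 * h - 1) := by
      have : (2 * (h : ℝ) - 1) ≠ 0 := by linarith
      field_simp
      ring
    rw [h3]
    have : (((univ.filter (fun a => W' < |u a|)).card : ℝ) - 1) / (2 * h - 1) ≤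
        4800 / (2 * h - 1) := by
      refine div_le_div_of_nonneg_right ?_ (by linarith)
      linarith
    linarith
  · push Not at hbig
    have hemp : (univ.filter (fun a => 2 * W' < |u a|)) = ∅ := by
      refine Finset.filter_eq_empty_iff.2 fun a _ => ?_
      have := hbig a
      linarith
    have hfull : (univ.filter (fun a => ¬ 2 * W' < |u a|)) = univ := by
      refine Finset.filter_true_of_mem fun a _ => ?_
      have := hbig a
      linarith
    have hG := G2_eq u W' hus
    rw [hemp, hfull, hcard, hQu] at hG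
    simp only [Finset.card_empty, Nat.cast_zero, sub_zero, Finset.sum_empty] at hG
    have h2h : (2000 : ℝ) ≤ 2 * h := by linarith
    have hμ : (2 * h / (2 * h - 1)) * Q = h * (∑ x, ∑ y, gg u W' x y) /
        ((Fintype.card (Fin h × Bool) : ℝ) * ((Fintype.card (Fin h × Bool) : ℝ) - 1)) := by
      rw [hG, hcard]
      have : (2 * (h : ℝ) - 1) ≠ 0 := by linarith
      have : (h : ℝ) ≠ 0 := by linarith
      field_simp
      ring
    have hμQ : Q ≤ (2 * h / (2 * h - 1)) * Q := by
      have : (1 : ℝ) ≤ 2 * h / (2 * h - 1) := by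
        rw [le_div_iff₀ (by linarith)]; linarith
      nlinarith
    have h1 := ac_spread (k := h) (r := 0) u W' hW'0 (by rw [hcard]; linarith) _ hμ
      (by rw [hW'2]; linarith)
    refine h1.trans ?_
    set μ : ℝ := (2 * h / (2 * h - 1)) * Q with hμdef
    rw [hcard, hW'2]
    have hμ0 : 0 < μ := by linarith
    have h5 : (16 * (Q / 4800) * μ + 5 / (2 * h) * μ ^ 2) / (μ - 1200 * (Q / 4800)) ^ 2 ≤
        1 / 50 := by
      rw [div_le_iff₀ (by
        have : 0 < μ - 1200 * (Q / 4800) := by linarith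
        positivity)]
      have h6 : 5 / (2 * (h : ℝ)) ≤ 5 / 2000 :=
        div_le_div_of_nonneg_left (by norm_num) (by norm_num) h2h
      have h7 : 5 / (2 * (h : ℝ)) * μ ^ 2 ≤ 5 / 2000 * μ ^ 2 :=
        mul_le_mul_of_nonneg_right h6 (sq_nonneg _)
      have h8 : 16 * (Q / 4800) * μ ≤ 1 / 300 * μ ^ 2 := by nlinarith
      have h9 : 3 / 4 * μ ≤ μ - 1200 * (Q / 4800) := by linarith
      have h10 : (3 / 4 * μ) ^ 2 ≤ (μ - 1200 * (Q / 4800)) ^ 2 :=
        pow_le_pow_left₀ (by positivity) h9 2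
      nlinarith [sq_nonneg μ]
    have h11 : (0 : ℝ) ≤ 4800 / (2 * h - 1) := div_nonneg (by norm_num) (by linarith)
    linarith

end Pool.Agent.H61.MMS
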