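import Mathlib
import Pool.Agent.H61.MMS.Ext

open Finset
open scoped BigOperators

namespace Pool.Agent.H61.MMS

open Pool.Agent.H49.MMS

variable {h : ℕ}

/-- indicator: one of the two halves has nonnegative sum (for negative total) -/
noncomputable def X0 (w : Fin h × Bool → ℝ) : ℝ := if |T0 w| ≤ |D0 w| then 1 else 0

theorem X0_nonneg (w : Fin h × Bool → ℝ) : 0 ≤ X0 w := by unfold X0; split_ifs <;> norm_num

theorem X0_le_one (w : Fin h × Bool → ℝ) : X0 w ≤ 1 := by unfold X0; split_ifs <;> norm_num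

/-- average of `X0` over all rearrangements -/
noncomputable def x0 (w : Fin h × Bool → ℝ) : ℝ :=
  𝔼 π : Equiv.Perm (Fin h × Bool), X0 (fun p => w (π p))

theorem x0_nonneg (w : Fin h × Bool → ℝ) : 0 ≤ x0 w :=
  Finset.expect_nonneg fun _ _ => X0_nonneg _

theorem x0_lower (w : Fin h × Bool → ℝ) (hh : 1000 ≤ h) (R : ℝ) (hT : T0 w < 0)
    (hR : 0 ≤ T0 w + R) (hQ : 4800 * R ^ 2 ≤ Q0 w) :
    1 / 2 - 4800 / (2 * h - 1) ≤ x0 w := by
  have hR0 : 0 < R := by linarith
  have h1 := ac_half w hh R hR0 hQ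
  have h2 : 1 - (𝔼 π : Equiv.Perm (Fin h × Bool), pw R (D0 (fun p => w (π p)))) ≤ x0 w := by
    unfold x0
    rw [← Fintype.expect_const (ι := Equiv.Perm (Fin h × Bool)) (1 : ℝ),
      ← Finset.expect_sub_distrib]
    refine Finset.expect_le_expect fun π _ => ?_
    unfold X0 pw
    rw [T0_perm]
    by_cases h4 : |T0 w| ≤ |D0 (fun p => w (π p))|
    · rw [if_pos h4]
      split_ifs <;> norm_num
    · rw [if_neg h4, if_pos]
      · norm_num
      · push Not at h4
        have : |T0 w| ≤ R := by rw [abs_le]; constructor <;> linarith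
        linarith
  linarith

/-- the exceptional event -/
noncomputable def Bd (w : Fin h × Bool → ℝ) (R : ℝ) : ℝ :=
  if T0 w < 0 ∧ Q0 w < 4800 * R ^ 2 then 1 else 0

theorem Bd_nonneg (w : Fin h × Bool → ℝ) (R : ℝ) : 0 ≤ Bd w R := by
  unfold Bd; split_ifs <;> norm_num

theorem Bd_le_one (w : Fin h × Bool → ℝ) (R : ℝ) : Bd w R ≤ 1 := by
  unfold Bd; split_ifs <;> norm_num

theorem x0_lower' (w : Fin h × Bool → ℝ) (hh : 1000 ≤ h) (R : ℝ) (hT : T0 w < 0)
    (hR : 0 ≤ T0 w + R) :
    1 / 2 - (4800 / (2 * h - 1) + Bd w R / 2) ≤ x0 w := by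
  have hhR : (1000 : ℝ) ≤ h := by exact_mod_cast hh
  by_cases hb : Q0 w < 4800 * R ^ 2
  · have : Bd w R = 1 := by unfold Bd; rw [if_pos ⟨hT, hb⟩]
    rw [this]
    have h1 := x0_nonneg w
    have h2 : (0 : ℝ) ≤ 4800 / (2 * h - 1) := div_nonneg (by norm_num) (by linarith)
    linarith
  · push Not at hb
    have h1 := x0_lower w hh R hT hR hb
    have h2 := Bd_nonneg w R
    linarith

theorem sum_Lam {r : ℕ} (f : Lam h r → ℝ) :
    ∑ l, f l = ∑ p, f (Sum.inl p) + ∑ i, f (Sum.inr i) := Fintype.sum_sum_type f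

/-- the exceptional event has small probability -/
theorem lv {r : ℕ} (z : Lam h r → ℝ) (hz : 0 ≤ ∑ l, z l) (hh : 1 ≤ h) (hr : r ≤ h) (hr1 : 1 ≤ r) :
    𝔼 π : Equiv.Perm (Lam h r), Bd (fun p => z (π (Sum.inl p))) (∑ i, z (π (Sum.inr i))) ≤
      19202 * r / (2 * h + r) := by
  have hhR : (1 : ℝ) ≤ h := by exact_mod_cast hh
  have hrR : (r : ℝ) ≤ h := by exact_mod_cast hr
  have hr1R : (1 : ℝ) ≤ r := by exact_mod_cast hr1
  set N : ℝ := 2 * h + r with hN
  have hN0 : 0 < N := by linarith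
  have hcard : (Fintype.card (Lam h r) : ℝ) = N := by rw [card_Lam]; push_cast; rfl
  have hcard2 : 2 ≤ Fintype.card (Lam h r) := by rw [card_Lam]; omega
  set s : ℝ := ∑ l, z l with hs
  set m : ℝ := s / N with hm
  have hm0 : 0 ≤ m := div_nonneg hz hN0.le
  set u : Lam h r → ℝ := fun l => z l - m with hu
  have hus : ∑ l, u l = 0 := by
    rw [hu, Finset.sum_sub_distrib, Finset.sum_const, Finset.card_univ, nsmul_eq_mul, hcard, hm,
      ← hs]
    field_simp
    ring
  set QU : ℝ := ∑ l, u l ^ 2 with hQU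
  have hQU0 : 0 ≤ QU := Finset.sum_nonneg fun _ _ => sq_nonneg _
  have hRHS : (0 : ℝ) ≤ 19202 * r / N := by positivity
  have hcardG : (Fintype.card (Fin h × Bool) : ℝ) = 2 * h := by
    rw [Fintype.card_prod, Fintype.card_fin, Fintype.card_bool]; push_cast; ring
  -- pointwise decomposition
  have hpt : ∀ π : Equiv.Perm (Lam h r),
      Bd (fun p => z (π (Sum.inl p))) (∑ i, z (π (Sum.inr i))) * QU ≤
      19201 * (∑ l ∈ RA h r, u (π l)) ^ 2 + ∑ l ∈ RA h r, u (π l) ^ 2 := by
    intro π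
    set ρc : ℝ := ∑ l ∈ RA h r, u (π l) with hρc
    set qR : ℝ := ∑ l ∈ RA h r, u (π l) ^ 2 with hqR
    have hqR0 : 0 ≤ qR := Finset.sum_nonneg fun _ _ => sq_nonneg _
    have hρc' : ρc = ∑ i, u (π (Sum.inr i)) := sum_RA (fun l => u (π l))
    have hqR' : qR = ∑ i, u (π (Sum.inr i)) ^ 2 := sum_RA (fun l => u (π l) ^ 2)
    unfold Bd
    split_ifs with hb
    swap
    · rw [zero_mul]; positivity
    obtain ⟨hT, hQ⟩ := hb
    rw [one_mul]
    set T : ℝ := T0 (fun p => z (π (Sum.inl p))) with hTdef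
    set R : ℝ := ∑ i, z (π (Sum.inr i)) with hRdef
    have hTR : T + R = s := by
      rw [hTdef, hRdef, hs, ← Equiv.sum_comp π z, sum_Lam]
      rfl
    have hRm : R = r * m + ρc := by
      rw [hρc', hRdef, hu, Finset.sum_sub_distrib, Finset.sum_const, Finset.card_univ,
        Fintype.card_fin, nsmul_eq_mul]
      ring
    have hTm : T = 2 * h * m - ρc := by
      have : N * m = s := by rw [hm]; field_simp
      have h1 : (2 * (h : ℝ) + r) * m = s := this
      linarith
    have hrm : r * m ≤ s / 2 := by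
      have h1 : (2 * (h : ℝ) + r) * m = s := by
        have : N * m = s := by rw [hm]; field_simp
        exact this
      nlinarith
    have hρR : R / 2 ≤ ρc := by linarith
    have hR0 : 0 < R := by linarith
    have hR2 : R ^ 2 ≤ 4 * ρc ^ 2 := by nlinarith
    -- the sum of squares
    have hQeq : Q0 (fun p => z (π (Sum.inl p))) = (QU - qR) - ρc ^ 2 / (2 * h) := by
      have h1 : QU = ∑ p, u (π (Sum.inl p)) ^ 2 + qR := by
        rw [hQU, ← Equiv.sum_comp π (fun l => u l ^ 2), sum_Lam, hqR']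
      have h2 : ∑ p, u (π (Sum.inl p)) = - ρc := by
        have : ∑ l, u (π l) = 0 := by rw [Equiv.sum_comp π u]; exact hus
        rw [sum_Lam, ← hρc'] at this
        linarith
      unfold Q0
      rw [← hTdef]
      have h3 : ∀ p : Fin h × Bool, (z (π (Sum.inl p)) - T / (2 * h)) ^ 2 =
          u (π (Sum.inl p)) ^ 2 + 2 * (ρc / (2 * h)) * u (π (Sum.inl p)) +
            (ρc / (2 * h)) ^ 2 := by
        intro p
        have : z (π (Sum.inl p)) - T / (2 * h) = u (π (Sum.inl p)) + ρc / (2 * h) := by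
          rw [hTm, hu]
          field_simp
          ring
        rw [this]
        ring
      rw [Finset.sum_congr rfl fun p _ => h3 p, Finset.sum_add_distrib, Finset.sum_add_distrib,
        ← Finset.mul_sum, h2, Finset.sum_const, Finset.card_univ, nsmul_eq_mul, hcardG, h1]
      field_simp
      ring
    rw [hQeq] at hQ
    have h4 : ρc ^ 2 / (2 * h) ≤ ρc ^ 2 := by
      rw [div_le_iff₀ (by linarith)]
      nlinarith [sq_nonneg ρc]
    nlinarith
  -- the averages
  have hne : Nonempty (Lam h r ≃ Lam h r) := ⟨Equiv.refl _⟩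
  have hE1 := secMom (Λ := Lam h r) (α := Lam h r) (RA h r) u hus hcard2
  have hE2 : 𝔼 π : Lam h r ≃ Lam h r, ∑ l ∈ RA h r, u (π l) ^ 2 = r / N * QU := by
    rw [Finset.expect_sum_comm]
    rw [Finset.sum_congr rfl fun l _ => law_one l (fun a => u a ^ 2)]
    rw [Finset.sum_const, card_RA, nsmul_eq_mul, hcard]
    ring
  rw [card_RA, hcard] at hE1
  have hE1' : 𝔼 π : Lam h r ≃ Lam h r, (∑ l ∈ RA h r, u (π l)) ^ 2 ≤ r / N * QU := by
    rw [hE1]
    refine mul_le_mul_of_nonneg_right ?_ hQU0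
    rw [div_le_div_iff₀ (by
      have : 1 < N := by linarith
      nlinarith) hN0]
    nlinarith [mul_nonneg (by linarith : (0:ℝ) ≤ r) (mul_nonneg hN0.le (by linarith : (0:ℝ) ≤ r - 1))]
  have htot : (𝔼 π : Lam h r ≃ Lam h r, Bd (fun p => z (π (Sum.inl p)))
      (∑ i, z (π (Sum.inr i)))) * QU ≤ 19202 * r / N * QU := by
    rw [Finset.expect_mul]
    calc _ ≤ 𝔼 π : Lam h r ≃ Lam h r, (19201 * (∑ l ∈ RA h r, u (π l)) ^ 2 +
          ∑ l ∈ RA h r, u (π l) ^ 2) := Finset.expect_le_expect fun π _ => hpt π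
      _ = 19201 * (𝔼 π : Lam h r ≃ Lam h r, (∑ l ∈ RA h r, u (π l)) ^ 2) +
          𝔼 π : Lam h r ≃ Lam h r, ∑ l ∈ RA h r, u (π l) ^ 2 := by
          rw [Finset.expect_add_distrib, ← Finset.mul_expect]
      _ ≤ 19201 * (r / N * QU) + r / N * QU := by rw [hE2]; linarith
      _ = _ := by ring
  rcases hQU0.lt_or_eq with hpos | hzero
  · exact le_of_mul_le_mul_right htot hpos
  · -- all entries are equal
    have hzero' : ∀ l, u l = 0 := by
      intro l
      have := (Finset.sum_eq_zero_iff_of_nonneg (fun l _ => sq_nonneg (u l))).1 hzero.symm l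
        (Finset.mem_univ l)
      exact pow_eq_zero_iff (two_ne_zero) |>.1 this
    have hzm : ∀ l, z l = m := by
      intro l
      have := hzero' l
      rw [hu] at this
      simp only at this
      linarith
    have h0 : ∀ π : Equiv.Perm (Lam h r),
        Bd (fun p => z (π (Sum.inl p))) (∑ i, z (π (Sum.inr i))) = 0 := by
      intro π
      unfold Bd
      rw [if_neg]
      rintro ⟨hT, _⟩
      unfold T0 at hT
      simp only [hzm] at hT
      rw [Finset.sum_const, Finset.card_univ, nsmul_eq_mul, hcardG] at hT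
      have : 0 ≤ 2 * (h : ℝ) * m := by positivity
      linarith
    rw [Finset.expect_congr rfl fun π _ => h0 π, Finset.expect_const_zero]
    exact hRHS

end Pool.Agent.H61.MMS
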