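import Mathlib
import Pool.Agent.H61.MMS.LV

open Finset Classical
open scoped BigOperators

namespace Pool.Agent.H61.MMS

open Pool.Agent.H49.MMS

variable {Λ α : Type} [Fintype Λ] [DecidableEq Λ] [Fintype α] [DecidableEq α] {h r : ℕ}

/-- joint embedding of the pairs and the remainder -/
def lam (ι : Fin h × Bool ↪ Λ) (κ : Fin r ↪ Λ) (hd : ∀ p i, ι p ≠ κ i) : Lam h r ↪ Λ :=
  ⟨Sum.elim ι κ, by
    rintro (p | i) (q | j) hpq
    · simp only [Sum.elim_inl] at hpq
      rw [ι.injective hpq]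
    · exact absurd hpq (hd p j)
    · exact absurd hpq.symm (hd q i)
    · simp only [Sum.elim_inr] at hpq
      rw [κ.injective hpq]⟩

/-- the exceptional event has small probability -/
theorem bd_avg (ι : Fin h × Bool ↪ Λ) (κ : Fin r ↪ Λ) (hd : ∀ p i, ι p ≠ κ i) (x : α → ℝ)
    (hh : 1 ≤ h) (hr : r ≤ h) (hr1 : 1 ≤ r) :
    𝔼 e : Λ ≃ α, (if 0 ≤ T0 (fun p => x (e (ι p))) + ∑ i, x (e (κ i)) then
      Bd (fun p => x (e (ι p))) (∑ i, x (e (κ i))) else 0) ≤ 19202 * r / (2 * h + r) := by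
  have hRHS : (0 : ℝ) ≤ 19202 * r / (2 * h + r) := by positivity
  rw [loc_avg (lam ι κ hd) x (fun z => if 0 ≤ T0 (fun p => z (ι p)) + ∑ i, z (κ i) then
      Bd (fun p => z (ι p)) (∑ i, z (κ i)) else 0)]
  by_cases hne : Nonempty (Λ ≃ α)
  swap
  · rw [not_nonempty_iff] at hne
    rw [Finset.expect_eq_sum_div_card]
    simp
    positivity
  calc _ ≤ 𝔼 _e : Λ ≃ α, (19202 * r / (2 * h + r) : ℝ) := by
        refine Finset.expect_le_expect fun e _ => ?_
        set w : Lam h r → ℝ := fun l => x (e (lam ι κ hd l)) with hw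
        have h1 : ∀ (π : Equiv.Perm (Lam h r)) (p : Fin h × Bool),
            x (e (ext (lam ι κ hd) π (ι p))) = w (π (Sum.inl p)) := by
          intro π p
          have : ι p = lam ι κ hd (Sum.inl p) := rfl
          rw [this, ext_apply]
        have h2 : ∀ (π : Equiv.Perm (Lam h r)) (i : Fin r),
            x (e (ext (lam ι κ hd) π (κ i))) = w (π (Sum.inr i)) := by
          intro π i
          have : κ i = lam ι κ hd (Sum.inr i) := rfl
          rw [this, ext_apply]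
        simp only [h1, h2]
        have h3 : ∀ π : Equiv.Perm (Lam h r), T0 (fun p => w (π (Sum.inl p))) +
            ∑ i, w (π (Sum.inr i)) = ∑ l, w l := by
          intro π
          rw [← Equiv.sum_comp π w, sum_Lam]
          rfl
        simp only [h3]
        by_cases hs : 0 ≤ ∑ l, w l
        · simp only [if_pos hs]
          exact lv w hs hh hr hr1
        · simp only [if_neg hs, Finset.expect_const_zero]
          exact hRHS
    _ = _ := Fintype.expect_const _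

/-- averaging `X0` over the rearrangements of the pairs -/
theorem avg_X0 (ι : Fin h × Bool ↪ Λ) (x : α → ℝ) (G : (Λ → ℝ) → ℝ)
    (hG : ∀ (z : Λ → ℝ) (π : Equiv.Perm (Fin h × Bool)), G (fun l => z (ext ι π l)) = G z) :
    𝔼 e : Λ ≃ α, G (fun l => x (e l)) * X0 (fun p => x (e (ι p))) =
      𝔼 e : Λ ≃ α, G (fun l => x (e l)) * x0 (fun p => x (e (ι p))) := by
  rw [loc_avg ι x (fun z => G z * X0 (fun p => z (ι p)))]
  refine Finset.expect_congr rfl fun e _ => ?_
  have h1 : ∀ π : Equiv.Perm (Fin h × Bool), G (fun l => x (e (ext ι π l))) =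
      G (fun l => x (e l)) := fun π => hG (fun l => x (e l)) π
  simp only [h1, ext_apply]
  rw [← Finset.mul_expect]
  rfl

/-- the error term -/
noncomputable def beta (h r : ℕ) : ℝ := 9600 / (2 * h - 1) + 19202 * r / (2 * h + r)

section
variable (ι1 ι2 : Fin h × Bool ↪ Λ) (κ : Fin r ↪ Λ)
  (hd1 : ∀ p i, ι1 p ≠ κ i) (hd2 : ∀ p i, ι2 p ≠ κ i) (hd12 : ∀ p q, ι1 p ≠ ι2 q)
  (A : (Λ → ℝ) → Prop)
  (hA1 : ∀ z, A z → T0 (fun p => z (ι1 p)) < 0 ∧ 0 ≤ T0 (fun p => z (ι1 p)) + ∑ i, z (κ i))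
  (hA2 : ∀ z, A z → T0 (fun p => z (ι2 p)) < 0 ∧ 0 ≤ T0 (fun p => z (ι2 p)) + ∑ i, z (κ i))
  (hinv1 : ∀ z (π : Equiv.Perm (Fin h × Bool)), A (fun l => z (ext ι1 π l)) ↔ A z)
  (hinv2 : ∀ z (π : Equiv.Perm (Fin h × Bool)), A (fun l => z (ext ι2 π l)) ↔ A z)
  (x : α → ℝ) (hh : 1000 ≤ h) (hr : r ≤ h) (hr1 : 1 ≤ r)

include hd1 hd2 hd12 hA1 hA2 hinv1 hinv2 hh hr hr1

omit hinv1 hinv2 hd12 in
theorem gl_bd : 𝔼 e : Λ ≃ α, (if A (fun l => x (e l)) then
      (Bd (fun p => x (e (ι1 p))) (∑ i, x (e (κ i))) +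
        Bd (fun p => x (e (ι2 p))) (∑ i, x (e (κ i)))) else 0) ≤
      2 * (19202 * r / (2 * h + r)) := by
  have b1 := bd_avg ι1 κ hd1 x (by omega) hr hr1
  have b2 := bd_avg ι2 κ hd2 x (by omega) hr hr1
  refine le_trans ?_ (by linarith : (𝔼 e : Λ ≃ α, (if 0 ≤ T0 (fun p => x (e (ι1 p))) +
    ∑ i, x (e (κ i)) then Bd (fun p => x (e (ι1 p))) (∑ i, x (e (κ i))) else 0)) +
    (𝔼 e : Λ ≃ α, (if 0 ≤ T0 (fun p => x (e (ι2 p))) +
    ∑ i, x (e (κ i)) then Bd (fun p => x (e (ι2 p))) (∑ i, x (e (κ i))) else 0)) ≤ _)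
  rw [← Finset.expect_add_distrib]
  refine Finset.expect_le_expect fun e _ => ?_
  split_ifs with h1 h2 h3 h3
  · exact le_rfl
  · exact absurd (hA2 _ h1).2 h3
  · exact absurd (hA1 _ h1).2 h2
  · exact absurd (hA1 _ h1).2 h2
  · exact add_nonneg (Bd_nonneg _ _) (Bd_nonneg _ _)
  · exact add_nonneg (Bd_nonneg _ _) le_rfl
  · exact add_nonneg le_rfl (Bd_nonneg _ _)
  · norm_num

theorem gl_a : -(beta h r) ≤ 𝔼 e : Λ ≃ α, (if A (fun l => x (e l)) then
      (X0 (fun p => x (e (ι1 p))) + X0 (fun p => x (e (ι2 p))) - 1) else 0) := by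
  have hhR : (1000 : ℝ) ≤ h := by exact_mod_cast hh
  have hb := gl_bd ι1 ι2 κ hd1 hd2 A hA1 hA2 x hh hr hr1
  have e1 := avg_X0 ι1 x (fun z => if A z then (1 : ℝ) else 0)
    (fun z π => by simp only [hinv1 z π])
  have e2 := avg_X0 ι2 x (fun z => if A z then (1 : ℝ) else 0)
    (fun z π => by simp only [hinv2 z π])
  have hc0 : (0 : ℝ) ≤ 4800 / (2 * h - 1) := div_nonneg (by norm_num) (by linarith)
  have hA : 𝔼 e : Λ ≃ α, (if A (fun l => x (e l)) then
      (X0 (fun p => x (e (ι1 p))) + X0 (fun p => x (e (ι2 p))) - 1) else 0) =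
      𝔼 e : Λ ≃ α, (if A (fun l => x (e l)) then
      (x0 (fun p => x (e (ι1 p))) + x0 (fun p => x (e (ι2 p))) - 1) else 0) := by
    have s1 : ∀ (f g : (Λ ≃ α) → ℝ), 𝔼 e : Λ ≃ α, (if A (fun l => x (e l)) then
        (f e + g e - 1) else 0) =
        (𝔼 e : Λ ≃ α, (if A (fun l => x (e l)) then (1 : ℝ) else 0) * f e) +
        (𝔼 e : Λ ≃ α, (if A (fun l => x (e l)) then (1 : ℝ) else 0) * g e) -
        (𝔼 e : Λ ≃ α, (if A (fun l => x (e l)) then (1 : ℝ) else 0)) := by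
      intro f g
      rw [← Finset.expect_add_distrib, ← Finset.expect_sub_distrib]
      refine Finset.expect_congr rfl fun e _ => ?_
      split_ifs <;> ring
    rw [s1, s1, e1, e2]
  rw [hA]
  by_cases hne : Nonempty (Λ ≃ α)
  swap
  · rw [not_nonempty_iff] at hne
    rw [Finset.expect_eq_sum_div_card]
    simp
    unfold beta
    have : (0 : ℝ) ≤ 9600 / (2 * h - 1) := div_nonneg (by norm_num) (by linarith)
    positivity
  have hpt : ∀ e : Λ ≃ α, -(2 * (4800 / (2 * h - 1))) - (if A (fun l => x (e l)) then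
      (Bd (fun p => x (e (ι1 p))) (∑ i, x (e (κ i))) +
        Bd (fun p => x (e (ι2 p))) (∑ i, x (e (κ i)))) else 0) / 2 ≤
      (if A (fun l => x (e l)) then
      (x0 (fun p => x (e (ι1 p))) + x0 (fun p => x (e (ι2 p))) - 1) else 0) := by
    intro e
    split_ifs with hAe
    · have l1 := x0_lower' (fun p => x (e (ι1 p))) hh (∑ i, x (e (κ i))) (hA1 _ hAe).1
        (hA1 _ hAe).2
      have l2 := x0_lower' (fun p => x (e (ι2 p))) hh (∑ i, x (e (κ i))) (hA2 _ hAe).1
        (hA2 _ hAe).2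
      linarith
    · linarith
  calc -(beta h r) = -(2 * (4800 / (2 * h - 1))) - (2 * (19202 * r / (2 * h + r))) / 2 := by
        unfold beta; ring
    _ ≤ -(2 * (4800 / (2 * h - 1))) - (𝔼 e : Λ ≃ α, (if A (fun l => x (e l)) then
      (Bd (fun p => x (e (ι1 p))) (∑ i, x (e (κ i))) +
        Bd (fun p => x (e (ι2 p))) (∑ i, x (e (κ i)))) else 0)) / 2 := by linarith
    _ = 𝔼 e : Λ ≃ α, (-(2 * (4800 / (2 * h - 1))) - (if A (fun l => x (e l)) then
      (Bd (fun p => x (e (ι1 p))) (∑ i, x (e (κ i))) +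
        Bd (fun p => x (e (ι2 p))) (∑ i, x (e (κ i)))) else 0) / 2) := by
        rw [Finset.expect_sub_distrib, Fintype.expect_const, Finset.expect_div]
    _ ≤ _ := Finset.expect_le_expect fun e _ => hpt e

theorem gl_b : (𝔼 e : Λ ≃ α, (if A (fun l => x (e l)) then (1 : ℝ) else 0)) / 4 -
      beta h r / 2 ≤ 𝔼 e : Λ ≃ α, (if A (fun l => x (e l)) then
      (X0 (fun p => x (e (ι1 p))) * X0 (fun p => x (e (ι2 p)))) else 0) := by
  have hhR : (1000 : ℝ) ≤ h := by exact_mod_cast hh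
  have hb := gl_bd ι1 ι2 κ hd1 hd2 A hA1 hA2 x hh hr hr1
  have hc0 : (0 : ℝ) ≤ 4800 / (2 * h - 1) := div_nonneg (by norm_num) (by linarith)
  have k1 : ∀ (z : Λ → ℝ) (π : Equiv.Perm (Fin h × Bool)) (p : Fin h × Bool),
      z (ext ι1 π (ι2 p)) = z (ι2 p) := by
    intro z π p
    rw [ext_apply_not ι1 π (ι2 p) (fun q => hd12 q p)]
  have k2 : ∀ (z : Λ → ℝ) (π : Equiv.Perm (Fin h × Bool)) (p : Fin h × Bool),
      z (ext ι2 π (ι1 p)) = z (ι1 p) := by
    intro z π p
    rw [ext_apply_not ι2 π (ι1 p) (fun q => (hd12 p q).symm)]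
  have e1 := avg_X0 ι1 x (fun z => (if A z then (1 : ℝ) else 0) * X0 (fun p => z (ι2 p)))
    (fun z π => by simp only [hinv1 z π, k1])
  have e2 := avg_X0 ι2 x (fun z => (if A z then (1 : ℝ) else 0) * x0 (fun p => z (ι1 p)))
    (fun z π => by simp only [hinv2 z π, k2])
  have hA : 𝔼 e : Λ ≃ α, (if A (fun l => x (e l)) then
      (X0 (fun p => x (e (ι1 p))) * X0 (fun p => x (e (ι2 p)))) else 0) =
      𝔼 e : Λ ≃ α, (if A (fun l => x (e l)) then
      (x0 (fun p => x (e (ι1 p))) * x0 (fun p => x (e (ι2 p)))) else 0) := by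
    calc _ = 𝔼 e : Λ ≃ α, ((if A (fun l => x (e l)) then (1 : ℝ) else 0) *
          X0 (fun p => x (e (ι2 p)))) * X0 (fun p => x (e (ι1 p))) := by
          refine Finset.expect_congr rfl fun e _ => ?_
          split_ifs <;> ring
      _ = 𝔼 e : Λ ≃ α, ((if A (fun l => x (e l)) then (1 : ℝ) else 0) *
          X0 (fun p => x (e (ι2 p)))) * x0 (fun p => x (e (ι1 p))) := e1
      _ = 𝔼 e : Λ ≃ α, ((if A (fun l => x (e l)) then (1 : ℝ) else 0) *
          x0 (fun p => x (e (ι1 p)))) * X0 (fun p => x (e (ι2 p))) := by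
          refine Finset.expect_congr rfl fun e _ => ?_
          ring
      _ = 𝔼 e : Λ ≃ α, ((if A (fun l => x (e l)) then (1 : ℝ) else 0) *
          x0 (fun p => x (e (ι1 p)))) * x0 (fun p => x (e (ι2 p))) := e2
      _ = _ := by
          refine Finset.expect_congr rfl fun e _ => ?_
          split_ifs <;> ring
  rw [hA]
  by_cases hne : Nonempty (Λ ≃ α)
  swap
  · rw [not_nonempty_iff] at hne
    rw [Finset.expect_eq_sum_div_card, Finset.expect_eq_sum_div_card]
    simp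
    unfold beta
    have : (0 : ℝ) ≤ 9600 / (2 * h - 1) := div_nonneg (by norm_num) (by linarith)
    positivity
  have hpt : ∀ e : Λ ≃ α, (if A (fun l => x (e l)) then (1 : ℝ) else 0) / 4 -
      4800 / (2 * h - 1) - (if A (fun l => x (e l)) then
      (Bd (fun p => x (e (ι1 p))) (∑ i, x (e (κ i))) +
        Bd (fun p => x (e (ι2 p))) (∑ i, x (e (κ i)))) else 0) / 4 ≤
      (if A (fun l => x (e l)) then
      (x0 (fun p => x (e (ι1 p))) * x0 (fun p => x (e (ι2 p)))) else 0) := by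
    intro e
    split_ifs with hAe
    · have l1 := x0_lower' (fun p => x (e (ι1 p))) hh (∑ i, x (e (κ i))) (hA1 _ hAe).1
        (hA1 _ hAe).2
      have l2 := x0_lower' (fun p => x (e (ι2 p))) hh (∑ i, x (e (κ i))) (hA2 _ hAe).1
        (hA2 _ hAe).2
      have n1 := x0_nonneg (fun p => x (e (ι1 p)))
      have n2 := x0_nonneg (fun p => x (e (ι2 p)))
      have m1 := Bd_nonneg (fun p => x (e (ι1 p))) (∑ i, x (e (κ i)))
      have m2 := Bd_nonneg (fun p => x (e (ι2 p))) (∑ i, x (e (κ i)))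
      set b1 : ℝ := 4800 / (2 * h - 1) + Bd (fun p => x (e (ι1 p))) (∑ i, x (e (κ i))) / 2
        with hb1
      set b2 : ℝ := 4800 / (2 * h - 1) + Bd (fun p => x (e (ι2 p))) (∑ i, x (e (κ i))) / 2
        with hb2
      have goal : 1 / 4 - (b1 + b2) / 2 ≤
          x0 (fun p => x (e (ι1 p))) * x0 (fun p => x (e (ι2 p))) := by
        have hb10 : 0 ≤ b1 := by positivity
        have hb20 : 0 ≤ b2 := by positivity
        by_cases c1 : b1 ≤ 1 / 2
        · by_cases c2 : b2 ≤ 1 / 2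
          · have := mul_le_mul l1 l2 (by linarith) n1
            nlinarith
          · push Not at c2
            have := mul_nonneg n1 n2
            linarith
        · push Not at c1
          have := mul_nonneg n1 n2
          linarith
      rw [hb1, hb2] at goal
      linarith
    · linarith
  calc (𝔼 e : Λ ≃ α, (if A (fun l => x (e l)) then (1 : ℝ) else 0)) / 4 - beta h r / 2
      = (𝔼 e : Λ ≃ α, (if A (fun l => x (e l)) then (1 : ℝ) else 0)) / 4 -
        4800 / (2 * h - 1) - (2 * (19202 * r / (2 * h + r))) / 4 := by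
        unfold beta; ring
    _ ≤ (𝔼 e : Λ ≃ α, (if A (fun l => x (e l)) then (1 : ℝ) else 0)) / 4 -
        4800 / (2 * h - 1) - (𝔼 e : Λ ≃ α, (if A (fun l => x (e l)) then
      (Bd (fun p => x (e (ι1 p))) (∑ i, x (e (κ i))) +
        Bd (fun p => x (e (ι2 p))) (∑ i, x (e (κ i)))) else 0)) / 4 := by linarith
    _ = 𝔼 e : Λ ≃ α, ((if A (fun l => x (e l)) then (1 : ℝ) else 0) / 4 -
      4800 / (2 * h - 1) - (if A (fun l => x (e l)) then
      (Bd (fun p => x (e (ι1 p))) (∑ i, x (e (κ i))) +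
        Bd (fun p => x (e (ι2 p))) (∑ i, x (e (κ i)))) else 0) / 4) := by
        rw [Finset.expect_sub_distrib, Finset.expect_sub_distrib, Fintype.expect_const,
          Finset.expect_div, Finset.expect_div]
    _ ≤ _ := Finset.expect_le_expect fun e _ => hpt e

end

end Pool.Agent.H61.MMS
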