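import Mathlib
import Pool.Agent.H61.MMS.GL

open Finset Classical
open scoped BigOperators

namespace Pool.Agent.H61.MMS

open Pool.Agent.H49.MMS

/-- the fraction of `k`-subsets with nonnegative sum -/
noncomputable def gf {α : Type} [Fintype α] (x : α → ℝ) (k : ℕ) : ℝ :=
  𝔼 S ∈ (univ : Finset α).powersetCard k, (if 0 ≤ ∑ a ∈ S, x a then (1 : ℝ) else 0)

theorem gf_nonneg {α : Type} [Fintype α] (x : α → ℝ) (k : ℕ) : 0 ≤ gf x k := by
  unfold gf
  refine Finset.expect_nonneg fun S _ => ?_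
  split_ifs <;> norm_num

section
variable {Λ α : Type} [Fintype Λ] [DecidableEq Λ] [Fintype α] [DecidableEq α]

theorem gf_avg [Nonempty (Λ ≃ α)] (A : Finset Λ) (x : α → ℝ) :
    𝔼 e : Λ ≃ α, (if 0 ≤ ∑ l ∈ A, x (e l) then (1 : ℝ) else 0) = gf x A.card := by
  have h1 := law_set (Λ := Λ) (α := α) A (fun S => if 0 ≤ ∑ a ∈ S, x a then (1 : ℝ) else 0)
  simp only [Finset.sum_map, Equiv.coe_toEmbedding] at h1
  rw [h1]
  unfold gf
  congr

theorem gf_avg_emb [Nonempty (Λ ≃ α)] {k : ℕ} (b : Fin k ↪ Λ) (x : α → ℝ) :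
    𝔼 e : Λ ≃ α, (if 0 ≤ ∑ l, x (e (b l)) then (1 : ℝ) else 0) = gf x k := by
  have h1 := gf_avg (univ.map b) x
  rw [Finset.card_map, Finset.card_univ, Fintype.card_fin] at h1
  rw [← h1]
  refine Finset.expect_congr rfl fun e _ => ?_
  rw [Finset.sum_map]

/-- the case of a multiple of `k` -/
theorem gf_mul (a k : ℕ) (ha : 1 ≤ a) (hc : Fintype.card α = a * k) (x : α → ℝ)
    (hx : 0 ≤ ∑ i, x i) : 1 / (a : ℝ) ≤ gf x k := by
  have hne : Nonempty ((Fin a × Fin k) ≃ α) := by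
    rw [← Fintype.card_eq, hc, Fintype.card_prod, Fintype.card_fin, Fintype.card_fin]
  have haR : (0 : ℝ) < a := by exact_mod_cast ha
  have h1 : ∀ c : Fin a, 𝔼 e : (Fin a × Fin k) ≃ α,
      (if 0 ≤ ∑ l : Fin k, x (e (c, l)) then (1 : ℝ) else 0) = gf x k := by
    intro c
    exact gf_avg_emb (Λ := Fin a × Fin k) ⟨fun l => (c, l), fun l m h => by
      simp only [Prod.mk.injEq, true_and] at h; exact h⟩ x
  have h2 : (1 : ℝ) ≤ 𝔼 e : (Fin a × Fin k) ≃ α, ∑ c : Fin a,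
      (if 0 ≤ ∑ l : Fin k, x (e (c, l)) then (1 : ℝ) else 0) := by
    refine le_trans (le_of_eq (Fintype.expect_const (ι := (Fin a × Fin k) ≃ α) (1 : ℝ)).symm)
      (Finset.expect_le_expect fun e _ => ?_)
    have hs : 0 ≤ ∑ c : Fin a, ∑ l : Fin k, x (e (c, l)) := by
      have : ∑ c : Fin a, ∑ l : Fin k, x (e (c, l)) = ∑ i, x i := by
        rw [← Equiv.sum_comp e x, Fintype.sum_prod_type]
      rw [this]; exact hx
    have : ∃ c : Fin a, 0 ≤ ∑ l : Fin k, x (e (c, l)) := by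
      by_contra hcon
      push Not at hcon
      have : Nonempty (Fin a) := ⟨⟨0, by omega⟩⟩
      have := Finset.sum_lt_sum_of_nonempty (s := (univ : Finset (Fin a))) univ_nonempty
        (fun c _ => hcon c)
      simp only [Finset.sum_const_zero] at this
      linarith
    obtain ⟨c, hc⟩ := this
    calc (1 : ℝ) = (if 0 ≤ ∑ l : Fin k, x (e (c, l)) then (1 : ℝ) else 0) := by rw [if_pos hc]
      _ ≤ _ := Finset.single_le_sum (f := fun c : Fin a =>
          (if 0 ≤ ∑ l : Fin k, x (e (c, l)) then (1 : ℝ) else 0))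
          (fun c _ => by split_ifs <;> norm_num) (Finset.mem_univ c)
  rw [Finset.expect_sum_comm, Finset.sum_congr rfl fun c _ => h1 c, Finset.sum_const,
    Finset.card_univ, Fintype.card_fin, nsmul_eq_mul] at h2
  rw [div_le_iff₀ haR]
  linarith

/-- a block of `a` classes with nonnegative sum contains good classes -/
theorem block_le [Nonempty (Λ ≃ α)] (a k : ℕ) (ha : 1 ≤ a) (b : Fin (a * k) ↪ Λ) (x : α → ℝ) :
    𝔼 e : Λ ≃ α, (if 0 ≤ ∑ l, x (e (b l)) then (1 : ℝ) else 0) ≤ a * gf x k := by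
  have haR : (0 : ℝ) < a := by exact_mod_cast ha
  have hka : k ≤ a * k := Nat.le_mul_of_pos_left k (by omega)
  set j : Fin k ↪ Fin (a * k) := Fin.castLEEmb hka with hj
  have h1 := gf_avg_emb (j.trans b) x
  rw [← h1, loc_avg b x (fun z => if 0 ≤ ∑ l : Fin k, z ((j.trans b) l) then (1 : ℝ) else 0),
    Finset.mul_expect]
  refine Finset.expect_le_expect fun e _ => ?_
  have h2 : ∀ (π : Equiv.Perm (Fin (a * k))) (l : Fin k), x (e (ext b π ((j.trans b) l))) =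
      (fun i => x (e (b i))) (π (j l)) := by
    intro π l
    simp only [Function.Embedding.trans_apply, ext_apply]
  simp only [h2]
  have h3 := gf_avg_emb (Λ := Fin (a * k)) (α := Fin (a * k)) j (fun i => x (e (b i)))
  have h4 : (𝔼 π : Equiv.Perm (Fin (a * k)),
      (if 0 ≤ ∑ l : Fin k, x (e (b (π (j l)))) then (1 : ℝ) else 0)) =
      gf (fun i => x (e (b i))) k := h3
  rw [h4]
  split_ifs with hs
  · have := gf_mul a k ha (Fintype.card_fin _) (fun i => x (e (b i))) hs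
    rw [div_le_iff₀ haR] at this
    linarith
  · exact mul_nonneg haR.le (gf_nonneg _ _)

end

/-- embedding of the pairs of two blocks -/
def pe {m h : ℕ} (Ψ : Type) (i j : Fin m) (hij : i ≠ j) : Fin h × Bool ↪ (Fin m × Fin h) ⊕ Ψ :=
  ⟨fun p => Sum.inl (if p.2 then j else i, p.1), by
    rintro ⟨l, b⟩ ⟨l', b'⟩ hp
    simp only [Sum.inl.injEq, Prod.mk.injEq] at hp
    obtain ⟨h1, h2⟩ := hp
    subst h2
    cases b <;> cases b' <;> simp at h1 ⊢
    · exact hij h1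
    · exact hij h1.symm⟩

/-- block sums -/
def tb {m h : ℕ} {Ψ : Type} (i : Fin m) (z : (Fin m × Fin h) ⊕ Ψ → ℝ) : ℝ :=
  ∑ l, z (Sum.inl (i, l))

theorem T0_pe {m h : ℕ} {Ψ : Type} (i j : Fin m) (hij : i ≠ j) (z : (Fin m × Fin h) ⊕ Ψ → ℝ) :
    T0 (fun p => z (pe Ψ i j hij p)) = tb i z + tb j z := by
  unfold T0 tb pe
  simp only [Function.Embedding.coeFn_mk]
  rw [Fintype.sum_prod_type, ← Finset.sum_add_distrib]
  refine Finset.sum_congr rfl fun l _ => ?_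
  rw [Fintype.sum_bool]
  simp
  ring

theorem D0_pe {m h : ℕ} {Ψ : Type} (i j : Fin m) (hij : i ≠ j) (z : (Fin m × Fin h) ⊕ Ψ → ℝ) :
    D0 (fun p => z (pe Ψ i j hij p)) = tb i z - tb j z := by
  unfold D0 tb pe
  simp only [Function.Embedding.coeFn_mk]
  rw [← Finset.sum_sub_distrib]
  simp

theorem X0_pe_le {m h : ℕ} {Ψ : Type} (i j : Fin m) (hij : i ≠ j)
    (z : (Fin m × Fin h) ⊕ Ψ → ℝ) (hT : tb i z + tb j z < 0) :
    X0 (fun p => z (pe Ψ i j hij p)) ≤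
      (if 0 ≤ tb i z then (1 : ℝ) else 0) + (if 0 ≤ tb j z then (1 : ℝ) else 0) := by
  unfold X0
  rw [T0_pe, D0_pe]
  have n1 : (0 : ℝ) ≤ (if 0 ≤ tb i z then (1 : ℝ) else 0) := by split_ifs <;> norm_num
  have n2 : (0 : ℝ) ≤ (if 0 ≤ tb j z then (1 : ℝ) else 0) := by split_ifs <;> norm_num
  by_cases hle : |tb i z + tb j z| ≤ |tb i z - tb j z|
  · rw [if_pos hle]
    rw [abs_of_neg hT] at hle
    rcases abs_cases (tb i z - tb j z) with ⟨h1, h2⟩ | ⟨h1, h2⟩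
    · rw [h1] at hle
      rw [if_pos (by linarith : 0 ≤ tb i z)]
      linarith
    · rw [h1] at hle
      rw [if_pos (by linarith : 0 ≤ tb j z)]
      linarith
  · rw [if_neg hle]
    linarith

theorem tb_ext_other {m h : ℕ} {Ψ : Type} (i j : Fin m) (hij : i ≠ j) (l : Fin m) (hli : l ≠ i)
    (hlj : l ≠ j) (z : (Fin m × Fin h) ⊕ Ψ → ℝ) (π : Equiv.Perm (Fin h × Bool)) :
    tb l (fun q => z (ext (pe Ψ i j hij) π q)) = tb l z := by
  unfold tb
  refine Finset.sum_congr rfl fun q _ => ?_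
  have key : ext (pe Ψ i j hij) π (Sum.inl (l, q)) = Sum.inl (l, q) := by
    refine ext_apply_not _ _ _ ?_
    rintro ⟨a, b⟩ hp
    unfold pe at hp
    simp only [Function.Embedding.coeFn_mk, Sum.inl.injEq, Prod.mk.injEq] at hp
    cases b
    · exact hli hp.1.symm
    · exact hlj hp.1.symm
  simp only [key]

theorem tb_ext_sum {m h : ℕ} {Ψ : Type} (i j : Fin m) (hij : i ≠ j)
    (z : (Fin m × Fin h) ⊕ Ψ → ℝ) (π : Equiv.Perm (Fin h × Bool)) :
    tb i (fun q => z (ext (pe Ψ i j hij) π q)) + tb j (fun q => z (ext (pe Ψ i j hij) π q)) =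
      tb i z + tb j z := by
  rw [← T0_pe i j hij, ← T0_pe i j hij]
  simp only [ext_apply]
  exact T0_perm (fun p => z (pe Ψ i j hij p)) π

theorem inr_ext {m h : ℕ} {Ψ : Type} (i j : Fin m) (hij : i ≠ j)
    (z : (Fin m × Fin h) ⊕ Ψ → ℝ) (π : Equiv.Perm (Fin h × Bool)) (ψ : Ψ) :
    z (ext (pe Ψ i j hij) π (Sum.inr ψ)) = z (Sum.inr ψ) := by
  rw [ext_apply_not]
  rintro ⟨a, b⟩ hp
  unfold pe at hp
  simp at hp

/-- approximate form of the bound -/
theorem lemL {α : Type} [Fintype α] [DecidableEq α] (a k r : ℕ) (ha : 1 ≤ a)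
    (hh : 1000 ≤ a * k) (hr : r ≤ a * k) (hr1 : 1 ≤ r)
    (hc : Fintype.card α = (5 * a - 1) * k + r) (x : α → ℝ) (hx : 0 ≤ ∑ i, x i) :
    (1 - beta (a * k) r) / (5 * a - 1) ≤ gf x k := by
  set h : ℕ := a * k with hdef
  have haR : (1 : ℝ) ≤ a := by exact_mod_cast ha
  let Ψ : Type := Fin r ⊕ (Fin (a - 1) × Fin k)
  let Λ : Type := (Fin 4 × Fin h) ⊕ Ψ
  have hcard : Fintype.card Λ = Fintype.card α := by
    have e1 : Fintype.card Λ = 4 * h + (r + (a - 1) * k) := by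
      show Fintype.card ((Fin 4 × Fin h) ⊕ (Fin r ⊕ (Fin (a - 1) × Fin k))) = _
      simp only [Fintype.card_sum, Fintype.card_prod, Fintype.card_fin]
    rw [e1, hc, hdef]
    obtain ⟨b, rfl⟩ := Nat.exists_eq_add_of_le ha
    have e2 : 5 * (1 + b) - 1 = 4 + 5 * b := by omega
    have e3 : 1 + b - 1 = b := by omega
    rw [e2, e3]
    ring
  have hne : Nonempty (Λ ≃ α) := Fintype.card_eq.1 hcard
  let κ : Fin r ↪ Λ := ⟨fun i => Sum.inr (Sum.inl i), fun i j hij =>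
    Sum.inl_injective (Sum.inr_injective hij)⟩
  let ι1 : Fin h × Bool ↪ Λ := pe Ψ 0 1 (by decide)
  let ι2 : Fin h × Bool ↪ Λ := pe Ψ 2 3 (by decide)
  let sc : Fin (a - 1) → (Λ → ℝ) → ℝ := fun c z => ∑ l : Fin k, z (Sum.inr (Sum.inr (c, l)))
  let A : (Λ → ℝ) → Prop := fun z => 0 ≤ ∑ l, z l ∧ tb 0 z + tb 1 z < 0 ∧ tb 2 z + tb 3 z < 0 ∧
    ∀ c, sc c z < 0
  have hsum : ∀ z : Λ → ℝ, ∑ l, z l = (tb 0 z + tb 1 z) + (tb 2 z + tb 3 z) +
      (∑ i, z (κ i) + ∑ c, sc c z) := by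
    intro z
    have e1 : ∑ l, z l = ∑ p : Fin 4 × Fin h, z (Sum.inl p) + (∑ i : Fin r, z (Sum.inr (Sum.inl i))
        + ∑ q : Fin (a - 1) × Fin k, z (Sum.inr (Sum.inr q))) := by
      show ∑ l : (Fin 4 × Fin h) ⊕ (Fin r ⊕ (Fin (a - 1) × Fin k)), z l = _
      rw [Fintype.sum_sum_type, Fintype.sum_sum_type (fun ψ => z (Sum.inr ψ))]
    rw [e1, Fintype.sum_prod_type, Fintype.sum_prod_type, Fin.sum_univ_four]
    have e2 : ∀ i : Fin 4, ∑ y : Fin h, z (Sum.inl (i, y)) = tb i z := fun i => rfl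
    simp only [e2]
    have e3 : ∑ i : Fin r, z (Sum.inr (Sum.inl i)) = ∑ i, z (κ i) := rfl
    have e4 : ∑ c : Fin (a - 1), ∑ l : Fin k, z (Sum.inr (Sum.inr (c, l))) = ∑ c, sc c z := rfl
    rw [e3, e4]
    ring
  have hscneg : ∀ z, (∀ c, sc c z < 0) → ∑ c, sc c z ≤ 0 := fun z hz =>
    Finset.sum_nonpos fun c _ => (hz c).le
  have hd1 : ∀ p i, ι1 p ≠ κ i := by
    intro p i hp
    change (Sum.inl _ : Λ) = Sum.inr _ at hp
    exact Sum.inl_ne_inr hp
  have hd2 : ∀ p i, ι2 p ≠ κ i := by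
    intro p i hp
    change (Sum.inl _ : Λ) = Sum.inr _ at hp
    exact Sum.inl_ne_inr hp
  have hd12 : ∀ p q, ι1 p ≠ ι2 q := by
    rintro ⟨l, b⟩ ⟨l', b'⟩ hp
    have : (Sum.inl (if b then (1 : Fin 4) else 0, l) : Λ) =
      Sum.inl (if b' then (3 : Fin 4) else 2, l') := hp
    simp only [Sum.inl.injEq, Prod.mk.injEq] at this
    have h1 := this.1
    cases b <;> cases b' <;> simp at h1
  have hA1 : ∀ z, A z → T0 (fun p => z (ι1 p)) < 0 ∧
      0 ≤ T0 (fun p => z (ι1 p)) + ∑ i, z (κ i) := by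
    rintro z ⟨h0, h1, h2, h3⟩
    have e1 : T0 (fun p => z (ι1 p)) = tb 0 z + tb 1 z := T0_pe 0 1 (by decide) z
    rw [e1]
    refine ⟨h1, ?_⟩
    have := hsum z
    have := hscneg z h3
    linarith
  have hA2 : ∀ z, A z → T0 (fun p => z (ι2 p)) < 0 ∧
      0 ≤ T0 (fun p => z (ι2 p)) + ∑ i, z (κ i) := by
    rintro z ⟨h0, h1, h2, h3⟩
    have e1 : T0 (fun p => z (ι2 p)) = tb 2 z + tb 3 z := T0_pe 2 3 (by decide) z
    rw [e1]
    refine ⟨h2, ?_⟩
    have := hsum z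
    have := hscneg z h3
    linarith
  have hinv1 : ∀ z (π : Equiv.Perm (Fin h × Bool)), A (fun l => z (ext ι1 π l)) ↔ A z := by
    intro z π
    have s0 : ∑ l, z (ext ι1 π l) = ∑ l, z l := Equiv.sum_comp (ext ι1 π) z
    have s1 := tb_ext_sum (Ψ := Ψ) (h := h) (0 : Fin 4) 1 (by decide) z π
    have s2 := tb_ext_other (Ψ := Ψ) (h := h) (0 : Fin 4) 1 (by decide) 2 (by decide) (by decide) z π
    have s3 := tb_ext_other (Ψ := Ψ) (h := h) (0 : Fin 4) 1 (by decide) 3 (by decide) (by decide) z π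
    have s4 : ∀ c, sc c (fun l => z (ext ι1 π l)) = sc c z := by
      intro c
      refine Finset.sum_congr rfl fun l _ => ?_
      exact inr_ext (Ψ := Ψ) (h := h) (0 : Fin 4) 1 (by decide) z π (Sum.inr (c, l))
    show (0 ≤ ∑ l, z (ext ι1 π l) ∧ tb 0 (fun l => z (ext ι1 π l)) +
      tb 1 (fun l => z (ext ι1 π l)) < 0 ∧ tb 2 (fun l => z (ext ι1 π l)) +
      tb 3 (fun l => z (ext ι1 π l)) < 0 ∧ ∀ c, sc c (fun l => z (ext ι1 π l)) < 0) ↔ _
    rw [s0, s1, s2, s3]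
    simp only [s4]
    rfl
  have hinv2 : ∀ z (π : Equiv.Perm (Fin h × Bool)), A (fun l => z (ext ι2 π l)) ↔ A z := by
    intro z π
    have s0 : ∑ l, z (ext ι2 π l) = ∑ l, z l := Equiv.sum_comp (ext ι2 π) z
    have s1 := tb_ext_sum (Ψ := Ψ) (h := h) (2 : Fin 4) 3 (by decide) z π
    have s2 := tb_ext_other (Ψ := Ψ) (h := h) (2 : Fin 4) 3 (by decide) 0 (by decide) (by decide) z π
    have s3 := tb_ext_other (Ψ := Ψ) (h := h) (2 : Fin 4) 3 (by decide) 1 (by decide) (by decide) z π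
    have s4 : ∀ c, sc c (fun l => z (ext ι2 π l)) = sc c z := by
      intro c
      refine Finset.sum_congr rfl fun l _ => ?_
      exact inr_ext (Ψ := Ψ) (h := h) (2 : Fin 4) 3 (by decide) z π (Sum.inr (c, l))
    show (0 ≤ ∑ l, z (ext ι2 π l) ∧ tb 0 (fun l => z (ext ι2 π l)) +
      tb 1 (fun l => z (ext ι2 π l)) < 0 ∧ tb 2 (fun l => z (ext ι2 π l)) +
      tb 3 (fun l => z (ext ι2 π l)) < 0 ∧ ∀ c, sc c (fun l => z (ext ι2 π l)) < 0) ↔ _
    rw [s0, s1, s2, s3]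
    simp only [s4]
    rfl
  have key : -(beta h r) ≤ 𝔼 e : Λ ≃ α, (if A (fun l => x (e l)) then
      (X0 (fun p => x (e (ι1 p))) + X0 (fun p => x (e (ι2 p))) - 1) else 0) := by
    convert gl_a ι1 ι2 κ hd1 hd2 hd12 A hA1 hA2 hinv1 hinv2 x hh hr hr1
  -- counting the good classes
  have hpt : ∀ e : Λ ≃ α, 1 + (if A (fun l => x (e l)) then
      (X0 (fun p => x (e (ι1 p))) + X0 (fun p => x (e (ι2 p))) - 1) else 0) ≤
      ∑ i : Fin 4, (if 0 ≤ ∑ l : Fin h, x (e (Sum.inl (i, l))) then (1 : ℝ) else 0) +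
      ∑ c : Fin (a - 1), (if 0 ≤ ∑ l : Fin k, x (e (Sum.inr (Sum.inr (c, l)))) then (1 : ℝ)
        else 0) := by
    intro e
    set z : Λ → ℝ := fun l => x (e l) with hz
    have hz0 : 0 ≤ ∑ l, z l := by
      rw [hz, Equiv.sum_comp e x]; exact hx
    have n1 : ∀ i : Fin 4, (0 : ℝ) ≤ (if 0 ≤ tb i z then (1 : ℝ) else 0) := fun i => by
      split_ifs <;> norm_num
    have n2 : (0 : ℝ) ≤ ∑ c : Fin (a - 1), (if 0 ≤ sc c z then (1 : ℝ) else 0) :=
      Finset.sum_nonneg fun c _ => by split_ifs <;> norm_num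
    show 1 + (if A z then _ else 0) ≤
      ∑ i : Fin 4, (if 0 ≤ tb i z then (1 : ℝ) else 0) +
      ∑ c : Fin (a - 1), (if 0 ≤ sc c z then (1 : ℝ) else 0)
    rw [Fin.sum_univ_four]
    have p0 := n1 0
    have p1 := n1 1
    have p2 := n1 2
    have p3 := n1 3
    by_cases hA : A z
    · rw [if_pos hA]
      have l1 := X0_pe_le (Ψ := Ψ) (h := h) (0 : Fin 4) 1 (by decide) z hA.2.1
      have l2 := X0_pe_le (Ψ := Ψ) (h := h) (2 : Fin 4) 3 (by decide) z hA.2.2.1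
      have l1' : X0 (fun p => x (e (ι1 p))) ≤ _ := l1
      have l2' : X0 (fun p => x (e (ι2 p))) ≤ _ := l2
      linarith
    · rw [if_neg hA]
      by_cases g1 : 0 ≤ tb 0 z
      · rw [if_pos g1]; linarith
      by_cases g2 : 0 ≤ tb 1 z
      · rw [if_pos g2]; linarith
      by_cases g3 : 0 ≤ tb 2 z
      · rw [if_pos g3]; linarith
      by_cases g4 : 0 ≤ tb 3 z
      · rw [if_pos g4]; linarith
      have : ¬ ∀ c, sc c z < 0 := by
        intro hall
        push Not at g1 g2 g3 g4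
        exact hA ⟨hz0, by linarith, by linarith, hall⟩
      push Not at this
      obtain ⟨c, hc⟩ := this
      have : (1 : ℝ) ≤ ∑ c : Fin (a - 1), (if 0 ≤ sc c z then (1 : ℝ) else 0) := by
        calc (1 : ℝ) = (if 0 ≤ sc c z then (1 : ℝ) else 0) := by rw [if_pos hc]
          _ ≤ _ := Finset.single_le_sum (f := fun c : Fin (a - 1) =>
              (if 0 ≤ sc c z then (1 : ℝ) else 0))
              (fun c _ => by split_ifs <;> norm_num) (Finset.mem_univ c)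
      linarith
  have hE : 1 + (𝔼 e : Λ ≃ α, (if A (fun l => x (e l)) then
      (X0 (fun p => x (e (ι1 p))) + X0 (fun p => x (e (ι2 p))) - 1) else 0)) ≤
      ∑ i : Fin 4, (𝔼 e : Λ ≃ α, (if 0 ≤ ∑ l : Fin h, x (e (Sum.inl (i, l))) then (1 : ℝ)
        else 0)) +
      ∑ c : Fin (a - 1), (𝔼 e : Λ ≃ α,
        (if 0 ≤ ∑ l : Fin k, x (e (Sum.inr (Sum.inr (c, l)))) then (1 : ℝ) else 0)) := by
    rw [← Finset.expect_sum_comm, ← Finset.expect_sum_comm, ← Finset.expect_add_distrib]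
    refine le_trans (le_of_eq ?_) (Finset.expect_le_expect fun e _ => hpt e)
    rw [Finset.expect_add_distrib, Fintype.expect_const]
  have hb : ∀ i : Fin 4, (𝔼 e : Λ ≃ α, (if 0 ≤ ∑ l : Fin h, x (e (Sum.inl (i, l))) then (1 : ℝ)
        else 0)) ≤ a * gf x k := by
    intro i
    exact block_le (Λ := Λ) a k ha ⟨fun l => Sum.inl (i, l), fun l m hlm =>
      (Prod.mk.inj (Sum.inl_injective hlm)).2⟩ x
  have hc' : ∀ c : Fin (a - 1), (𝔼 e : Λ ≃ α,
        (if 0 ≤ ∑ l : Fin k, x (e (Sum.inr (Sum.inr (c, l)))) then (1 : ℝ) else 0)) = gf x k := by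
    intro c
    exact gf_avg_emb (Λ := Λ) ⟨fun l => Sum.inr (Sum.inr (c, l)), fun l m hlm =>
      (Prod.mk.inj (Sum.inr_injective (Sum.inr_injective hlm))).2⟩ x
  have hfin : 1 - beta h r ≤ (5 * a - 1) * gf x k := by
    have h1 : ∑ i : Fin 4, (𝔼 e : Λ ≃ α, (if 0 ≤ ∑ l : Fin h, x (e (Sum.inl (i, l))) then (1 : ℝ)
        else 0)) ≤ ∑ _i : Fin 4, (a * gf x k : ℝ) := Finset.sum_le_sum fun i _ => hb i
    rw [Finset.sum_congr rfl fun c _ => hc' c] at hE
    rw [Finset.sum_const, Finset.card_univ, Fintype.card_fin, nsmul_eq_mul] at h1 hE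
    have h2 : ((a - 1 : ℕ) : ℝ) = a - 1 := by
      rw [Nat.cast_sub ha]; simp
    rw [h2] at hE
    push_cast at h1
    linarith
  rw [div_le_iff₀ (by linarith)]
  linarith

end Pool.Agent.H61.MMS
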