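import Mathlib
import Pool.Agent.H61.MMS.Lem

open Finset Classical
open scoped BigOperators

namespace Pool.Agent.H61.MMS

open Pool.Agent.H49.MMS

variable {α : Type} [Fintype α] [DecidableEq α] {h r : ℕ}

/-- positions: five blocks and the remainder -/
abbrev L5 (h r : ℕ) : Type := (Fin 5 × Fin h) ⊕ Fin r

/-- indicator of a nonnegative block sum -/
noncomputable def nb (i : Fin 5) (z : L5 h r → ℝ) : ℝ := if 0 ≤ tb i z then 1 else 0

/-- number of nonnegative block sums -/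
noncomputable def MM (z : L5 h r → ℝ) : ℝ := ∑ i, nb i z

/-- all block sums negative -/
noncomputable def m0 (z : L5 h r → ℝ) : ℝ := if ∀ i, tb i z < 0 then 1 else 0

/-- exactly one nonnegative block sum -/
noncomputable def m1 (z : L5 h r → ℝ) : ℝ :=
  if (univ.filter (fun i => 0 ≤ tb i z)).card = 1 then 1 else 0

/-- at least two nonnegative block sums -/
noncomputable def m2 (z : L5 h r → ℝ) : ℝ :=
  if 2 ≤ (univ.filter (fun i => 0 ≤ tb i z)).card then 1 else 0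

theorem nb_nonneg (i : Fin 5) (z : L5 h r → ℝ) : 0 ≤ nb i z := by
  unfold nb; split_ifs <;> norm_num

theorem MM_eq (z : L5 h r → ℝ) : MM z = ((univ.filter (fun i => 0 ≤ tb i z)).card : ℝ) := by
  unfold MM nb
  rw [Finset.sum_boole]

theorem m0_eq (z : L5 h r → ℝ) :
    m0 z = if (univ.filter (fun i => 0 ≤ tb i z)).card = 0 then 1 else 0 := by
  unfold m0
  congr 1
  rw [Finset.card_eq_zero, Finset.filter_eq_empty_iff, eq_iff_iff]
  constructor
  · intro h i _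
    exact not_le.2 (h i)
  · intro h i
    exact not_le.1 (h (Finset.mem_univ i))

theorem m_sum (z : L5 h r → ℝ) : m0 z + m1 z + m2 z = 1 := by
  rw [m0_eq]
  unfold m1 m2
  rcases Nat.lt_or_ge (univ.filter (fun i => 0 ≤ tb i z)).card 2 with h | h
  · rw [if_neg (not_le.2 h)]
    rcases Nat.lt_or_ge (univ.filter (fun i => 0 ≤ tb i z)).card 1 with h1 | h1
    · have : (univ.filter (fun i => 0 ≤ tb i z)).card = 0 := by omega
      rw [if_pos this, if_neg (by omega)]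
      norm_num
    · have : (univ.filter (fun i => 0 ≤ tb i z)).card = 1 := by omega
      rw [if_pos this, if_neg (by omega)]
      norm_num
  · rw [if_pos h, if_neg (by omega), if_neg (by omega)]
    norm_num

theorem m0_nonneg (z : L5 h r → ℝ) : 0 ≤ m0 z := by unfold m0; split_ifs <;> norm_num

theorem m1_nonneg (z : L5 h r → ℝ) : 0 ≤ m1 z := by unfold m1; split_ifs <;> norm_num

theorem m1_le_one (z : L5 h r → ℝ) : m1 z ≤ 1 := by unfold m1; split_ifs <;> norm_num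

theorem m2_nonneg (z : L5 h r → ℝ) : 0 ≤ m2 z := by unfold m2; split_ifs <;> norm_num

theorem m2_le (z : L5 h r → ℝ) : m2 z ≤ MM z - 1 + m0 z := by
  rw [MM_eq, m0_eq]
  unfold m2
  split_ifs with h1 h2 h2
  · omega
  · have : (2 : ℝ) ≤ ((univ.filter (fun i => 0 ≤ tb i z)).card : ℝ) := by exact_mod_cast h1
    linarith
  · rw [h2]; norm_num
  · have : 1 ≤ (univ.filter (fun i => 0 ≤ tb i z)).card := by omega
    have : (1 : ℝ) ≤ ((univ.filter (fun i => 0 ≤ tb i z)).card : ℝ) := by exact_mod_cast this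
    linarith

/-- the bad configuration -/
def AA (z : L5 h r → ℝ) : Prop :=
  ∑ l, z l = 0 ∧ tb 0 z + tb 1 z < 0 ∧ tb 2 z + tb 3 z < 0 ∧ tb 4 z < 0

theorem sum_L5 (z : L5 h r → ℝ) : ∑ l, z l = ∑ i, tb i z + ∑ j, z (Sum.inr j) := by
  rw [Fintype.sum_sum_type, Fintype.sum_prod_type]
  rfl

/-- the gain outside the bad configuration -/
noncomputable def gn (z : L5 h r → ℝ) : ℝ := if AA z then 0 else MM z - 1

theorem gn_nonneg (z : L5 h r → ℝ) (hz : ∑ l, z l = 0) : 0 ≤ gn z := by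
  unfold gn
  split_ifs with hA
  · exact le_rfl
  · have hex : ∃ i, 0 ≤ tb i z := by
      by_contra hcon
      push Not at hcon
      exact hA ⟨hz, by linarith [hcon 0, hcon 1], by linarith [hcon 2, hcon 3], hcon 4⟩
    obtain ⟨i, hi⟩ := hex
    have h1 : (1 : ℝ) ≤ MM z := by
      unfold MM
      calc (1 : ℝ) = nb i z := by unfold nb; rw [if_pos hi]
        _ ≤ _ := Finset.single_le_sum (f := fun i => nb i z) (fun i _ => nb_nonneg i z)
            (Finset.mem_univ i)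
    linarith

/-- permutation of the blocks -/
def bp (φ : Equiv.Perm (Fin 5)) : Equiv.Perm (L5 h r) :=
  Equiv.sumCongr (Equiv.prodCongr φ (Equiv.refl _)) (Equiv.refl _)

theorem tb_bp (φ : Equiv.Perm (Fin 5)) (i : Fin 5) (z : L5 h r → ℝ) :
    tb i (fun l => z (bp φ l)) = tb (φ i) z := rfl

theorem gn_two (φ : Equiv.Perm (Fin 5)) (z : L5 h r → ℝ) (h0 : 0 ≤ tb (φ 0) z)
    (h1 : 0 ≤ tb (φ 1) z) : 1 ≤ gn (fun l => z (bp φ l)) := by
  unfold gn
  rw [if_neg]
  · unfold MM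
    rw [Fin.sum_univ_five]
    have n2 := nb_nonneg 2 (fun l => z (bp φ l))
    have n3 := nb_nonneg 3 (fun l => z (bp φ l))
    have n4 := nb_nonneg 4 (fun l => z (bp φ l))
    have e0 : nb 0 (fun l => z (bp φ l)) = 1 := by unfold nb; rw [tb_bp, if_pos h0]
    have e1 : nb 1 (fun l => z (bp φ l)) = 1 := by unfold nb; rw [tb_bp, if_pos h1]
    rw [e0, e1]
    linarith
  · rintro ⟨_, hA, _⟩
    rw [tb_bp, tb_bp] at hA
    linarith

theorem pat_le (φ : Equiv.Perm (Fin 5)) (z : L5 h r → ℝ) (hz : ∑ l, z l = 0) :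
    (if AA z then nb (φ 0) z * nb (φ 1) z else 0) ≤ gn (fun l => z (bp φ l)) := by
  have hz' : ∑ l, (fun l => z (bp φ l)) l = 0 := by
    rw [← hz]; exact Equiv.sum_comp (bp φ) z
  have g0 := gn_nonneg _ hz'
  split_ifs with hA
  · unfold nb
    by_cases h0 : 0 ≤ tb (φ 0) z
    · by_cases h1 : 0 ≤ tb (φ 1) z
      · rw [if_pos h0, if_pos h1, one_mul]
        exact gn_two φ z h0 h1
      · rw [if_neg h1, mul_zero]; exact g0
    · rw [if_neg h0, zero_mul]; exact g0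
  · exact g0

/-- consequences of a small mean number of nonnegative blocks -/
theorem few (x : α → ℝ) (hx : ∑ a, x a = 0) (hc : Fintype.card α = 5 * h + r)
    (hh : 1000 ≤ h) (hr : r ≤ h) (hr1 : 1 ≤ r)
    (hM : 𝔼 e : L5 h r ≃ α, MM (fun l => x (e l)) < 1) :
    (𝔼 e : L5 h r ≃ α, m0 (fun l => x (e l)) ≤ 18 * beta h r) ∧
    (𝔼 e : L5 h r ≃ α, m2 (fun l => x (e l)) ≤ 18 * beta h r) := by
  have hne : Nonempty (L5 h r ≃ α) := by
    rw [← Fintype.card_eq, hc]
    simp [L5, Fintype.card_sum, Fintype.card_prod]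
  let Λ : Type := L5 h r
  let κ : Fin r ↪ Λ := ⟨fun i => Sum.inr i, fun i j hij => Sum.inr_injective hij⟩
  let ι1 : Fin h × Bool ↪ Λ := pe (Fin r) 0 1 (by decide)
  let ι2 : Fin h × Bool ↪ Λ := pe (Fin r) 2 3 (by decide)
  have hsum : ∀ z : Λ → ℝ, ∑ l, z l = (tb 0 z + tb 1 z) + (tb 2 z + tb 3 z) + tb 4 z +
      ∑ i, z (κ i) := by
    intro z
    rw [sum_L5, Fin.sum_univ_five]
    have : ∑ j : Fin r, z (Sum.inr j) = ∑ i, z (κ i) := rfl
    rw [this]
    ring
  have hd1 : ∀ p i, ι1 p ≠ κ i := by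
    intro p i hp
    change (Sum.inl _ : Λ) = Sum.inr _ at hp
    exact Sum.inl_ne_inr hp
  have hd2 : ∀ p i, ι2 p ≠ κ i := by
    intro p i hp
    change (Sum.inl _ : Λ) = Sum.inr _ at hp
    exact Sum.inl_ne_inr hp
  have hd12 : ∀ p q, ι1 p ≠ ι2 q := by
    rintro ⟨l, b⟩ ⟨l', b'⟩ hp
    have : (Sum.inl (if b then (1 : Fin 5) else 0, l) : Λ) =
      Sum.inl (if b' then (3 : Fin 5) else 2, l') := hp
    simp only [Sum.inl.injEq, Prod.mk.injEq] at this
    have h1 := this.1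
    cases b <;> cases b' <;> simp at h1
  have hA1 : ∀ z : Λ → ℝ, AA z → T0 (fun p => z (ι1 p)) < 0 ∧
      0 ≤ T0 (fun p => z (ι1 p)) + ∑ i, z (κ i) := by
    rintro z ⟨h0, h1, h2, h3⟩
    have e1 : T0 (fun p => z (ι1 p)) = tb 0 z + tb 1 z := T0_pe 0 1 (by decide) z
    rw [e1]
    refine ⟨h1, ?_⟩
    have := hsum z
    linarith
  have hA2 : ∀ z : Λ → ℝ, AA z → T0 (fun p => z (ι2 p)) < 0 ∧
      0 ≤ T0 (fun p => z (ι2 p)) + ∑ i, z (κ i) := by
    rintro z ⟨h0, h1, h2, h3⟩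
    have e1 : T0 (fun p => z (ι2 p)) = tb 2 z + tb 3 z := T0_pe 2 3 (by decide) z
    rw [e1]
    refine ⟨h2, ?_⟩
    have := hsum z
    linarith
  have hinv1 : ∀ (z : Λ → ℝ) (π : Equiv.Perm (Fin h × Bool)),
      AA (fun l => z (ext ι1 π l)) ↔ AA z := by
    intro z π
    have s0 : ∑ l, z (ext ι1 π l) = ∑ l, z l := Equiv.sum_comp (ext ι1 π) z
    have s1 := tb_ext_sum (Ψ := Fin r) (h := h) (0 : Fin 5) 1 (by decide) z π
    have s2 := tb_ext_other (Ψ := Fin r) (h := h) (0 : Fin 5) 1 (by decide) 2 (by decide)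
      (by decide) z π
    have s3 := tb_ext_other (Ψ := Fin r) (h := h) (0 : Fin 5) 1 (by decide) 3 (by decide)
      (by decide) z π
    have s4 := tb_ext_other (Ψ := Fin r) (h := h) (0 : Fin 5) 1 (by decide) 4 (by decide)
      (by decide) z π
    show (∑ l, z (ext ι1 π l) = 0 ∧ tb 0 (fun l => z (ext ι1 π l)) +
      tb 1 (fun l => z (ext ι1 π l)) < 0 ∧ tb 2 (fun l => z (ext ι1 π l)) +
      tb 3 (fun l => z (ext ι1 π l)) < 0 ∧ tb 4 (fun l => z (ext ι1 π l)) < 0) ↔ _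
    rw [s0, s1, s2, s3, s4]
    rfl
  have hinv2 : ∀ (z : Λ → ℝ) (π : Equiv.Perm (Fin h × Bool)),
      AA (fun l => z (ext ι2 π l)) ↔ AA z := by
    intro z π
    have s0 : ∑ l, z (ext ι2 π l) = ∑ l, z l := Equiv.sum_comp (ext ι2 π) z
    have s1 := tb_ext_sum (Ψ := Fin r) (h := h) (2 : Fin 5) 3 (by decide) z π
    have s2 := tb_ext_other (Ψ := Fin r) (h := h) (2 : Fin 5) 3 (by decide) 0 (by decide)
      (by decide) z π
    have s3 := tb_ext_other (Ψ := Fin r) (h := h) (2 : Fin 5) 3 (by decide) 1 (by decide)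
      (by decide) z π
    have s4 := tb_ext_other (Ψ := Fin r) (h := h) (2 : Fin 5) 3 (by decide) 4 (by decide)
      (by decide) z π
    show (∑ l, z (ext ι2 π l) = 0 ∧ tb 0 (fun l => z (ext ι2 π l)) +
      tb 1 (fun l => z (ext ι2 π l)) < 0 ∧ tb 2 (fun l => z (ext ι2 π l)) +
      tb 3 (fun l => z (ext ι2 π l)) < 0 ∧ tb 4 (fun l => z (ext ι2 π l)) < 0) ↔ _
    rw [s0, s1, s2, s3, s4]
    rfl
  have ka := gl_a ι1 ι2 κ hd1 hd2 hd12 AA hA1 hA2 hinv1 hinv2 x hh hr hr1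
  have kb := gl_b ι1 ι2 κ hd1 hd2 hd12 AA hA1 hA2 hinv1 hinv2 x hh hr hr1
  have hz : ∀ e : Λ ≃ α, ∑ l, x (e l) = 0 := fun e => by rw [Equiv.sum_comp e x]; exact hx
  -- the gain is small
  have hgn : 𝔼 e : Λ ≃ α, gn (fun l => x (e l)) ≤ beta h r := by
    have hpt : ∀ e : Λ ≃ α, gn (fun l => x (e l)) ≤ MM (fun l => x (e l)) - 1 -
        (if AA (fun l => x (e l)) then
      (X0 (fun p => x (e (ι1 p))) + X0 (fun p => x (e (ι2 p))) - 1) else 0) := by
      intro e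
      unfold gn
      split_ifs with hA
      · have l1 : X0 (fun p => x (e (ι1 p))) ≤ nb 0 (fun l => x (e l)) + nb 1 (fun l => x (e l)) :=
          X0_pe_le (Ψ := Fin r) (h := h) (0 : Fin 5) 1 (by decide) (fun l => x (e l)) hA.2.1
        have l2 : X0 (fun p => x (e (ι2 p))) ≤ nb 2 (fun l => x (e l)) + nb 3 (fun l => x (e l)) :=
          X0_pe_le (Ψ := Fin r) (h := h) (2 : Fin 5) 3 (by decide) (fun l => x (e l)) hA.2.2.1
        have l3 := nb_nonneg 4 (fun l => x (e l))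
        unfold MM
        rw [Fin.sum_univ_five]
        linarith
      · linarith
    calc 𝔼 e : Λ ≃ α, gn (fun l => x (e l)) ≤ 𝔼 e : Λ ≃ α, (MM (fun l => x (e l)) - 1 -
        (if AA (fun l => x (e l)) then
      (X0 (fun p => x (e (ι1 p))) + X0 (fun p => x (e (ι2 p))) - 1) else 0)) :=
          Finset.expect_le_expect fun e _ => hpt e
      _ = (𝔼 e : Λ ≃ α, MM (fun l => x (e l))) - 1 - (𝔼 e : Λ ≃ α,
        (if AA (fun l => x (e l)) then
      (X0 (fun p => x (e (ι1 p))) + X0 (fun p => x (e (ι2 p))) - 1) else 0)) := by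
          rw [Finset.expect_sub_distrib, Finset.expect_sub_distrib, Fintype.expect_const]
      _ ≤ _ := by linarith
  have hpat : ∀ φ : Equiv.Perm (Fin 5), 𝔼 e : Λ ≃ α, (if AA (fun l => x (e l)) then
      nb (φ 0) (fun l => x (e l)) * nb (φ 1) (fun l => x (e l)) else 0) ≤ beta h r := by
    intro φ
    refine le_trans (le_trans (Finset.expect_le_expect fun e _ =>
      pat_le φ (fun l => x (e l)) (hz e)) (le_of_eq ?_)) hgn
    exact perm_avg (bp φ) x gn
  have hAA : 𝔼 e : Λ ≃ α, (if AA (fun l => x (e l)) then (1 : ℝ) else 0) ≤ 18 * beta h r := by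
    have p1 := hpat (Equiv.swap 1 2)
    have p2 := hpat (Equiv.swap 1 3)
    have p3 := hpat (Equiv.swap 0 2)
    have p4 := hpat (Equiv.swap 0 3)
    have f1 : (Equiv.swap (1 : Fin 5) 2) 0 = 0 ∧ (Equiv.swap (1 : Fin 5) 2) 1 = 2 := by decide
    have f2 : (Equiv.swap (1 : Fin 5) 3) 0 = 0 ∧ (Equiv.swap (1 : Fin 5) 3) 1 = 3 := by decide
    have f3 : (Equiv.swap (0 : Fin 5) 2) 0 = 2 ∧ (Equiv.swap (0 : Fin 5) 2) 1 = 1 := by decide
    have f4 : (Equiv.swap (0 : Fin 5) 3) 0 = 3 ∧ (Equiv.swap (0 : Fin 5) 3) 1 = 1 := by decide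
    rw [f1.1, f1.2] at p1
    rw [f2.1, f2.2] at p2
    rw [f3.1, f3.2] at p3
    rw [f4.1, f4.2] at p4
    have hle : 𝔼 e : Λ ≃ α, (if AA (fun l => x (e l)) then
      (X0 (fun p => x (e (ι1 p))) * X0 (fun p => x (e (ι2 p)))) else 0) ≤ 4 * beta h r := by
      refine le_trans ?_ (by linarith : (𝔼 e : Λ ≃ α, (if AA (fun l => x (e l)) then
        nb 0 (fun l => x (e l)) * nb 2 (fun l => x (e l)) else 0)) +
        (𝔼 e : Λ ≃ α, (if AA (fun l => x (e l)) then
        nb 0 (fun l => x (e l)) * nb 3 (fun l => x (e l)) else 0)) +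
        (𝔼 e : Λ ≃ α, (if AA (fun l => x (e l)) then
        nb 2 (fun l => x (e l)) * nb 1 (fun l => x (e l)) else 0)) +
        (𝔼 e : Λ ≃ α, (if AA (fun l => x (e l)) then
        nb 3 (fun l => x (e l)) * nb 1 (fun l => x (e l)) else 0)) ≤ _)
      rw [← Finset.expect_add_distrib, ← Finset.expect_add_distrib, ← Finset.expect_add_distrib]
      refine Finset.expect_le_expect fun e _ => ?_
      split_ifs with hA
      · have l1 : X0 (fun p => x (e (ι1 p))) ≤ nb 0 (fun l => x (e l)) + nb 1 (fun l => x (e l)) :=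
          X0_pe_le (Ψ := Fin r) (h := h) (0 : Fin 5) 1 (by decide) (fun l => x (e l)) hA.2.1
        have l2 : X0 (fun p => x (e (ι2 p))) ≤ nb 2 (fun l => x (e l)) + nb 3 (fun l => x (e l)) :=
          X0_pe_le (Ψ := Fin r) (h := h) (2 : Fin 5) 3 (by decide) (fun l => x (e l)) hA.2.2.1
        have l3 := mul_le_mul l1 l2 (X0_nonneg _)
          (add_nonneg (nb_nonneg 0 (fun l => x (e l))) (nb_nonneg 1 (fun l => x (e l))))
        linarith
      · norm_num
    have kb' : (𝔼 e : Λ ≃ α, (if AA (fun l => x (e l)) then (1 : ℝ) else 0)) / 4 -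
        beta h r / 2 ≤ 4 * beta h r := kb.trans hle
    linarith
  have h0 : 𝔼 e : Λ ≃ α, m0 (fun l => x (e l)) ≤ 18 * beta h r := by
    refine le_trans (Finset.expect_le_expect fun e _ => ?_) hAA
    unfold m0
    split_ifs with h1 h2 h2
    · exact le_rfl
    · exfalso
      exact h2 ⟨hz e, by linarith [h1 0, h1 1], by linarith [h1 2, h1 3], h1 4⟩
    · norm_num
    · exact le_rfl
  refine ⟨h0, ?_⟩
  have h2 : 𝔼 e : Λ ≃ α, m2 (fun l => x (e l)) ≤ (𝔼 e : Λ ≃ α, MM (fun l => x (e l))) - 1 +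
      𝔼 e : Λ ≃ α, m0 (fun l => x (e l)) := by
    calc _ ≤ 𝔼 e : Λ ≃ α, (MM (fun l => x (e l)) - 1 + m0 (fun l => x (e l))) :=
          Finset.expect_le_expect fun e _ => m2_le _
      _ = _ := by rw [Finset.expect_add_distrib, Finset.expect_sub_distrib, Fintype.expect_const]
  have h2' : 𝔼 e : L5 h r ≃ α, m2 (fun l => x (e l)) ≤
      (𝔼 e : L5 h r ≃ α, MM (fun l => x (e l))) - 1 +
      𝔼 e : L5 h r ≃ α, m0 (fun l => x (e l)) := h2
  have h0' : 𝔼 e : L5 h r ≃ α, m0 (fun l => x (e l)) ≤ 18 * beta h r := h0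
  linarith

end Pool.Agent.H61.MMS
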