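import Mathlib
import Pool.Agent.H61.MMS.A1

open Finset Classical
open scoped BigOperators

namespace Pool.Agent.H61.MMS

open Pool.Agent.H49.MMS

section
variable {Λ α : Type} [Fintype Λ] [DecidableEq Λ] [Fintype α] [DecidableEq α] {h : ℕ}

/-- exchange the members of some pairs -/
def flp (s : Fin h → Bool) : Equiv.Perm (Fin h × Bool) :=
  Function.Involutive.toPerm (fun p : Fin h × Bool => (p.1, xor p.2 (s p.1))) (by
    intro p
    simp)

theorem flp_apply (s : Fin h → Bool) (j : Fin h) (b : Bool) :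
    flp s (j, b) = (j, xor b (s j)) := rfl

theorem D0_flp (w : Fin h × Bool → ℝ) (s : Fin h → Bool) :
    D0 (fun p => w (flp s p)) = ∑ j, sg (s j) * (w (j, false) - w (j, true)) := by
  unfold D0
  refine Finset.sum_congr rfl fun j _ => ?_
  simp only [flp_apply]
  cases s j <;> simp [sg]

/-- quadratic variation -/
def V0 (w : Fin h × Bool → ℝ) : ℝ := ∑ j, (w (j, false) - w (j, true)) ^ 2

theorem flip_avg (ι : Fin h × Bool ↪ Λ) (x : α → ℝ) (G : (Λ → ℝ) → ℝ)
    (hG : ∀ (z : Λ → ℝ) (π : Equiv.Perm (Fin h × Bool)), G (fun l => z (ext ι π l)) = G z)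
    (f : ℝ → ℝ) :
    𝔼 e : Λ ≃ α, G (fun l => x (e l)) * f (D0 (fun p => x (e (ι p)))) =
      𝔼 e : Λ ≃ α, G (fun l => x (e l)) * 𝔼 s : Fin h → Bool,
        f (∑ j, sg (s j) * (x (e (ι (j, false))) - x (e (ι (j, true))))) := by
  calc _ = 𝔼 _s : Fin h → Bool, 𝔼 e : Λ ≃ α, G (fun l => x (e l)) *
        f (D0 (fun p => x (e (ι p)))) := by rw [Fintype.expect_const]
    _ = 𝔼 s : Fin h → Bool, 𝔼 e : Λ ≃ α, G (fun l => x (e l)) *
        f (∑ j, sg (s j) * (x (e (ι (j, false))) - x (e (ι (j, true))))) := by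
        refine Finset.expect_congr rfl fun s _ => ?_
        rw [← perm_avg (ext ι (flp s)) x (fun z => G z * f (D0 (fun p => z (ι p))))]
        refine Finset.expect_congr rfl fun e _ => ?_
        have h1 : G (fun l => x (e (ext ι (flp s) l))) = G (fun l => x (e l)) :=
          hG (fun l => x (e l)) (flp s)
        rw [h1]
        simp only [ext_apply]
        rw [D0_flp (fun p => x (e (ι p))) s]
    _ = 𝔼 e : Λ ≃ α, 𝔼 s : Fin h → Bool, G (fun l => x (e l)) *
        f (∑ j, sg (s j) * (x (e (ι (j, false))) - x (e (ι (j, true))))) :=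
        Finset.expect_comm _ _ _
    _ = _ := by
        refine Finset.expect_congr rfl fun e _ => ?_
        rw [← Finset.mul_expect]

theorem flip_two (ι : Fin h × Bool ↪ Λ) (x : α → ℝ) (G : (Λ → ℝ) → ℝ)
    (hG : ∀ (z : Λ → ℝ) (π : Equiv.Perm (Fin h × Bool)), G (fun l => z (ext ι π l)) = G z) :
    𝔼 e : Λ ≃ α, G (fun l => x (e l)) * (D0 (fun p => x (e (ι p)))) ^ 2 =
      𝔼 e : Λ ≃ α, G (fun l => x (e l)) * V0 (fun p => x (e (ι p))) := by
  have h1 := flip_avg ι x G hG (fun t => t ^ 2)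
  rw [h1]
  refine Finset.expect_congr rfl fun e _ => ?_
  congr 1
  exact mom2 univ (fun j => x (e (ι (j, false))) - x (e (ι (j, true))))

theorem flip_four (ι : Fin h × Bool ↪ Λ) (x : α → ℝ) :
    𝔼 e : Λ ≃ α, (D0 (fun p => x (e (ι p)))) ^ 4 ≤
      3 * 𝔼 e : Λ ≃ α, (V0 (fun p => x (e (ι p)))) ^ 2 := by
  have h1 := flip_avg ι x (fun _ => 1) (fun _ _ => rfl) (fun t => t ^ 4)
  simp only [one_mul] at h1
  rw [h1, Finset.mul_expect]
  refine Finset.expect_le_expect fun e _ => ?_
  exact mom4 univ (fun j => x (e (ι (j, false))) - x (e (ι (j, true))))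

theorem V0_nonneg (w : Fin h × Bool → ℝ) : 0 ≤ V0 w := Finset.sum_nonneg fun _ _ => sq_nonneg _

theorem V0_le (w : Fin h × Bool → ℝ) : V0 w ≤ 2 * ∑ p, w p ^ 2 := by
  unfold V0
  rw [Fintype.sum_prod_type, Finset.mul_sum]
  refine Finset.sum_le_sum fun j _ => ?_
  rw [Fintype.sum_bool]
  nlinarith [sq_nonneg (w (j, false) + w (j, true))]

theorem sum_emb_le (ι : Fin h × Bool ↪ Λ) (f : Λ → ℝ) (hf : ∀ l, 0 ≤ f l) :
    ∑ p, f (ι p) ≤ ∑ l, f l := by
  rw [← Finset.sum_map univ ι f]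
  exact Finset.sum_le_sum_of_subset_of_nonneg (Finset.subset_univ _) (fun l _ _ => hf l)

/-- mean quadratic variation -/
theorem V0_avg [Nonempty (Λ ≃ α)] (ι : Fin h × Bool ↪ Λ) (x : α → ℝ) (hx : ∑ a, x a = 0)
    (hx2 : ∑ a, x a ^ 2 = 1) (hn : 5 * h + 1 ≤ Fintype.card α) (hh : 1 ≤ h) :
    𝔼 e : Λ ≃ α, V0 (fun p => x (e (ι p))) ≤ 2 / 5 := by
  have hnR : (5 * h + 1 : ℝ) ≤ Fintype.card α := by exact_mod_cast hn
  have hhR : (1 : ℝ) ≤ h := by exact_mod_cast hh
  set n : ℝ := (Fintype.card α : ℝ) with hndef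
  have h1 : ∀ j : Fin h, 𝔼 e : Λ ≃ α, (x (e (ι (j, false))) - x (e (ι (j, true)))) ^ 2 =
      2 / (n - 1) := by
    intro j
    have hne : ι (j, false) ≠ ι (j, true) := by
      intro hcon
      have := congrArg Prod.snd (ι.injective hcon)
      simp at this
    rw [law_pair hne (fun a b => (x a - x b) ^ 2)]
    have e1 : ∑ a, ∑ b, (if a = b then (0 : ℝ) else (x a - x b) ^ 2) = 2 * n := by
      have e2 : ∀ a b, (if a = b then (0 : ℝ) else (x a - x b) ^ 2) =
          x a ^ 2 - 2 * x a * x b + x b ^ 2 := by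
        intro a b
        split_ifs with hab
        · rw [hab]; ring
        · ring
      have e3 : ∀ a, ∑ b, (if a = b then (0 : ℝ) else (x a - x b) ^ 2) =
          n * x a ^ 2 + 1 := by
        intro a
        rw [Finset.sum_congr rfl fun b _ => e2 a b, Finset.sum_add_distrib,
          Finset.sum_sub_distrib, Finset.sum_const, ← Finset.mul_sum, hx, hx2, Finset.card_univ,
          nsmul_eq_mul]
        ring
      rw [Finset.sum_congr rfl fun a _ => e3 a, Finset.sum_add_distrib, ← Finset.mul_sum, hx2,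
        Finset.sum_const, Finset.card_univ, nsmul_eq_mul]
      ring
    rw [e1, ← hndef]
    have : n ≠ 0 := by linarith
    have : n - 1 ≠ 0 := by linarith
    field_simp
  unfold V0
  rw [Finset.expect_sum_comm, Finset.sum_congr rfl fun j _ => h1 j, Finset.sum_const,
    Finset.card_univ, Fintype.card_fin, nsmul_eq_mul, ← mul_div_assoc,
    div_le_div_iff₀ (by linarith) (by norm_num)]
  linarith

theorem D0_four [Nonempty (Λ ≃ α)] (ι : Fin h × Bool ↪ Λ) (x : α → ℝ) (hx : ∑ a, x a = 0)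
    (hx2 : ∑ a, x a ^ 2 = 1) (hn : 5 * h + 1 ≤ Fintype.card α) (hh : 1 ≤ h) :
    𝔼 e : Λ ≃ α, (D0 (fun p => x (e (ι p)))) ^ 4 ≤ 12 / 5 := by
  refine (flip_four ι x).trans ?_
  have h1 := V0_avg ι x hx hx2 hn hh
  have h2 : 𝔼 e : Λ ≃ α, (V0 (fun p => x (e (ι p)))) ^ 2 ≤
      𝔼 e : Λ ≃ α, 2 * V0 (fun p => x (e (ι p))) := by
    refine Finset.expect_le_expect fun e _ => ?_
    have h3 := V0_le (fun p => x (e (ι p)))
    have h4 := sum_emb_le ι (fun l => x (e l) ^ 2) (fun l => sq_nonneg _)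
    have h5 : ∑ l, x (e l) ^ 2 = 1 := by
      rw [Equiv.sum_comp e (fun a => x a ^ 2)]; exact hx2
    have h6 := V0_nonneg (fun p => x (e (ι p)))
    nlinarith
  rw [← Finset.mul_expect] at h2
  linarith

end

variable {α : Type} [Fintype α] [DecidableEq α] {h r : ℕ}

/-- one block -/
def be (j : Fin 5) : Fin h ↪ L5 h r := ⟨fun l => Sum.inl (j, l), fun l m hlm =>
  (Prod.mk.inj (Sum.inl_injective hlm)).2⟩

theorem be_ext (i j : Fin 5) (hij : i ≠ j) (π : Equiv.Perm (Fin h)) (l : Fin h) :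
    ext (be j : Fin h ↪ L5 h r) π (Sum.inl (i, l)) = Sum.inl (i, l) := by
  refine ext_apply_not _ _ _ ?_
  intro p hp
  exact hij (Prod.mk.inj (Sum.inl_injective hp)).1.symm

theorem be_ext_self (j : Fin 5) (π : Equiv.Perm (Fin h)) (l : Fin h) :
    ext (be j : Fin h ↪ L5 h r) π (Sum.inl (j, l)) = Sum.inl (j, π l) :=
  ext_apply (be j : Fin h ↪ L5 h r) π l

theorem tb_be_ext (j i : Fin 5) (z : L5 h r → ℝ) (π : Equiv.Perm (Fin h)) :
    tb i (fun l => z (ext (be j) π l)) = tb i z := by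
  unfold tb
  by_cases hij : i = j
  · subst hij
    simp only [be_ext_self]
    exact Equiv.sum_comp π (fun l => z (Sum.inl (i, l)))
  · simp only [be_ext i j hij]

theorem cross_avg (i j : Fin 5) (hij : i ≠ j) (x : α → ℝ) (G : (L5 h r → ℝ) → ℝ)
    (hG : ∀ (z : L5 h r → ℝ) (π : Equiv.Perm (Fin h)), G (fun l => z (ext (be j) π l)) = G z) :
    𝔼 e : L5 h r ≃ α, G (fun l => x (e l)) *
        ∑ l, x (e (Sum.inl (i, l))) * x (e (Sum.inl (j, l))) =
      𝔼 e : L5 h r ≃ α, G (fun l => x (e l)) *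
        (tb i (fun l => x (e l)) * tb j (fun l => x (e l)) / h) := by
  rw [loc_avg (be j) x (fun z => G z * ∑ l, z (Sum.inl (i, l)) * z (Sum.inl (j, l)))]
  refine Finset.expect_congr rfl fun e _ => ?_
  have h1 : ∀ π : Equiv.Perm (Fin h), G (fun l => x (e (ext (be j) π l))) =
      G (fun l => x (e l)) := fun π => hG (fun l => x (e l)) π
  simp only [h1, be_ext i j hij, be_ext_self]
  rw [← Finset.mul_expect]
  congr 1
  rw [Finset.expect_sum_comm]
  have hne : Nonempty (Fin h ≃ Fin h) := ⟨Equiv.refl _⟩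
  have h2 : ∀ l : Fin h, 𝔼 π : Equiv.Perm (Fin h), x (e (Sum.inl (i, l))) *
      x (e (Sum.inl (j, π l))) = x (e (Sum.inl (i, l))) * (tb j (fun l => x (e l)) / h) := by
    intro l
    rw [← Finset.mul_expect]
    congr 1
    have := law_one (Λ := Fin h) (α := Fin h) l (fun m => x (e (Sum.inl (j, m))))
    rw [Fintype.card_fin] at this
    exact this
  rw [Finset.sum_congr rfl fun l _ => h2 l, ← Finset.sum_mul, mul_div_assoc]
  rfl

/-- sum of squares over a block -/
def qb (i : Fin 5) (z : L5 h r → ℝ) : ℝ := ∑ l, z (Sum.inl (i, l)) ^ 2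

theorem qb_nonneg (i : Fin 5) (z : L5 h r → ℝ) : 0 ≤ qb i z :=
  Finset.sum_nonneg fun _ _ => sq_nonneg _

theorem V0_pe (i j : Fin 5) (hij : i ≠ j) (z : L5 h r → ℝ) :
    V0 (fun p => z (pe (Fin r) i j hij p)) = qb i z + qb j z -
      2 * ∑ l, z (Sum.inl (i, l)) * z (Sum.inl (j, l)) := by
  unfold V0 qb pe
  rw [Finset.mul_sum, ← Finset.sum_add_distrib, ← Finset.sum_sub_distrib]
  refine Finset.sum_congr rfl fun l _ => ?_
  simp
  ring

/-- the flip invariant event -/
def Zp (i j : Fin 5) (z : L5 h r → ℝ) : Prop :=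
  tb i z + tb j z < 0 ∧ (univ.filter (fun l => l ≠ i ∧ l ≠ j ∧ 0 ≤ tb l z)).card = 1

theorem Zp_ext (i j : Fin 5) (hij : i ≠ j) (z : L5 h r → ℝ) (π : Equiv.Perm (Fin h × Bool)) :
    Zp i j (fun l => z (ext (pe (Fin r) i j hij) π l)) ↔ Zp i j z := by
  unfold Zp
  rw [tb_ext_sum]
  have : (univ.filter (fun l => l ≠ i ∧ l ≠ j ∧
      0 ≤ tb l (fun l => z (ext (pe (Fin r) i j hij) π l)))) =
      (univ.filter (fun l => l ≠ i ∧ l ≠ j ∧ 0 ≤ tb l z)) := by
    refine Finset.filter_congr fun l _ => ?_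
    constructor
    · rintro ⟨h1, h2, h3⟩
      rw [tb_ext_other i j hij l h1 h2] at h3
      exact ⟨h1, h2, h3⟩
    · rintro ⟨h1, h2, h3⟩
      refine ⟨h1, h2, ?_⟩
      rw [tb_ext_other i j hij l h1 h2]
      exact h3
  rw [this]

theorem Zp_m1 (i j : Fin 5) (z : L5 h r → ℝ) (hZ : Zp i j z) (hm : m1 z = 1) :
    tb i z < 0 ∧ tb j z < 0 := by
  have hc : (univ.filter (fun i => 0 ≤ tb i z)).card = 1 := by
    unfold m1 at hm
    by_contra hcon
    rw [if_neg hcon] at hm
    norm_num at hm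
  have key : ∀ p : Fin 5, (p = i ∨ p = j) → tb p z < 0 := by
    intro p hp
    by_contra hcon
    push Not at hcon
    have hsub : insert p (univ.filter (fun l => l ≠ i ∧ l ≠ j ∧ 0 ≤ tb l z)) ⊆
        univ.filter (fun i => 0 ≤ tb i z) := by
      intro l hl
      rw [Finset.mem_insert] at hl
      rw [Finset.mem_filter]
      rcases hl with rfl | hl
      · exact ⟨Finset.mem_univ _, hcon⟩
      · exact ⟨Finset.mem_univ _, (Finset.mem_filter.1 hl).2.2.2⟩
    have h1 := Finset.card_le_card hsub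
    rw [Finset.card_insert_of_notMem, hZ.2, hc] at h1
    · omega
    · intro hmem
      have := (Finset.mem_filter.1 hmem).2
      rcases hp with hp | hp
      · exact this.1 hp
      · exact this.2.1 hp
  exact ⟨key i (Or.inl rfl), key j (Or.inr rfl)⟩

theorem Zp_m0 (i j : Fin 5) (z : L5 h r → ℝ) (hZ : Zp i j z) : m0 z = 0 := by
  unfold m0
  rw [if_neg]
  intro hall
  have h1 := hZ.2
  have : (univ.filter (fun l => l ≠ i ∧ l ≠ j ∧ 0 ≤ tb l z)) = ∅ := by
    refine Finset.filter_eq_empty_iff.2 fun l _ => ?_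
    rintro ⟨_, _, h3⟩
    linarith [hall l]
  rw [this] at h1
  simp at h1

theorem tb_two [Nonempty (L5 h r ≃ α)] (i : Fin 5) (x : α → ℝ) (hx : ∑ a, x a = 0)
    (hx2 : ∑ a, x a ^ 2 = 1) (hc : Fintype.card α = 5 * h + r) (hh : 1 ≤ h)
    (hr1 : 1 ≤ r) :
    𝔼 e : L5 h r ≃ α, (tb i (fun l => x (e l))) ^ 2 ≤
      ((h : ℝ) * (4 * h + r)) / ((5 * h + r) * (5 * h + r - 1)) := by
  have h1 := secMom (Λ := L5 h r) (α := α) (univ.map (be i)) x hx (by rw [hc]; omega)
  simp only [Finset.sum_map, Finset.card_map, Finset.card_univ, Fintype.card_fin] at h1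
  rw [hx2, hc, mul_one] at h1
  refine le_of_eq ?_
  calc 𝔼 e : L5 h r ≃ α, (tb i (fun l => x (e l))) ^ 2
      = 𝔼 e : L5 h r ≃ α, (∑ l, x (e ((be i) l))) ^ 2 := rfl
    _ = _ := by
        rw [h1]
        push_cast
        congr 1
        ring

/-- the inequality for one pair of blocks -/
theorem pair_ineq [Nonempty (L5 h r ≃ α)] (i j : Fin 5) (hij : i ≠ j) (x : α → ℝ)
    (hx : ∑ a, x a = 0)
    (hx2 : ∑ a, x a ^ 2 = 1) (hc : Fintype.card α = 5 * h + r) (hh : 1 ≤ h)
    (hr1 : 1 ≤ r) (t lam : ℝ) (hlam : 0 < lam)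
    (ht : ∀ i : Fin 5, 𝔼 e : L5 h r ≃ α, (tb i (fun l => x (e l))) ^ 2 ≤ t) :
    𝔼 e : L5 h r ≃ α, (if Zp i j (fun l => x (e l)) then m1 (fun l => x (e l)) *
        (qb i (fun l => x (e l)) + qb j (fun l => x (e l))) else 0) ≤
      𝔼 e : L5 h r ≃ α, (if Zp i j (fun l => x (e l)) then m1 (fun l => x (e l)) *
        (tb i (fun l => x (e l)) + tb j (fun l => x (e l))) ^ 2 else 0) +
      (6 / 5 * lam + (𝔼 e : L5 h r ≃ α, m2 (fun l => x (e l))) / (2 * lam) + 2 * t / h) := by
  have hhR : (1 : ℝ) ≤ h := by exact_mod_cast hh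
  set ι : Fin h × Bool ↪ L5 h r := pe (Fin r) i j hij with hι
  have hV := flip_two ι x (fun z => if Zp i j z then (1 : ℝ) else 0)
    (fun z π => by simp only [hι, Zp_ext i j hij z π])
  have hD4 := D0_four ι x hx hx2 (by rw [hc]; omega) hh
  have hX := cross_avg (r := r) i j hij x (fun z => if Zp i j z then m1 z else 0)
    (fun z π => by
      have e1 : ∀ l, tb l (fun q => z (ext (be j : Fin h ↪ L5 h r) π q)) = tb l z :=
        fun l => tb_be_ext j l z π
      have hZ : Zp i j (fun q => z (ext (be j : Fin h ↪ L5 h r) π q)) ↔ Zp i j z := by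
        unfold Zp
        simp only [e1]
      have hm : m1 (fun q => z (ext (be j : Fin h ↪ L5 h r) π q)) = m1 z := by
        unfold m1
        simp only [e1]
      simp only [hZ, hm])
  -- pointwise lower bound of the left side
  have p1 : 𝔼 e : L5 h r ≃ α, (if Zp i j (fun l => x (e l)) then m1 (fun l => x (e l)) *
        (qb i (fun l => x (e l)) + qb j (fun l => x (e l))) else 0) ≤
      𝔼 e : L5 h r ≃ α, (if Zp i j (fun l => x (e l)) then (1 : ℝ) else 0) *
        V0 (fun p => x (e (ι p))) + 2 * 𝔼 e : L5 h r ≃ α,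
        (if Zp i j (fun l => x (e l)) then m1 (fun l => x (e l)) else 0) *
        ∑ l, x (e (Sum.inl (i, l))) * x (e (Sum.inl (j, l))) := by
    rw [Finset.mul_expect, ← Finset.expect_add_distrib]
    refine Finset.expect_le_expect fun e _ => ?_
    have hV0 := V0_pe i j hij (fun l => x (e l))
    have hnn := V0_nonneg (fun p => x (e (ι p)))
    have hm0 := m1_nonneg (fun l => x (e l))
    have hm1 := m1_le_one (fun l => x (e l))
    split_ifs with hZ
    · have hV0' : V0 (fun p => x (e (ι p))) = qb i (fun l => x (e l)) + qb j (fun l => x (e l)) -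
        2 * ∑ l, x (e (Sum.inl (i, l))) * x (e (Sum.inl (j, l))) := hV0
      nlinarith
    · simp
  have p2 : 2 * 𝔼 e : L5 h r ≃ α,
        (if Zp i j (fun l => x (e l)) then m1 (fun l => x (e l)) else 0) *
        ∑ l, x (e (Sum.inl (i, l))) * x (e (Sum.inl (j, l))) ≤ 2 * t / h := by
    rw [hX]
    have ti := ht i
    have tj := ht j
    have : 𝔼 e : L5 h r ≃ α,
        (if Zp i j (fun l => x (e l)) then m1 (fun l => x (e l)) else 0) *
        (tb i (fun l => x (e l)) * tb j (fun l => x (e l)) / h) ≤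
        𝔼 e : L5 h r ≃ α, ((tb i (fun l => x (e l))) ^ 2 + (tb j (fun l => x (e l))) ^ 2) *
          (1 / (2 * h)) := by
      refine Finset.expect_le_expect fun e _ => ?_
      set a := tb i (fun l => x (e l)) with ha
      set b := tb j (fun l => x (e l)) with hb
      have hab : a * b / h ≤ (a ^ 2 + b ^ 2) * (1 / (2 * h)) := by
        rw [div_le_iff₀ (by linarith)]
        have : (a ^ 2 + b ^ 2) * (1 / (2 * h)) * h = (a ^ 2 + b ^ 2) / 2 := by
          field_simp
        rw [this]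
        nlinarith [sq_nonneg (a - b)]
      have hR0 : 0 ≤ (a ^ 2 + b ^ 2) * (1 / (2 * (h : ℝ))) := by positivity
      have hm0 := m1_nonneg (fun l => x (e l))
      have hm1 := m1_le_one (fun l => x (e l))
      split_ifs with hZ
      · by_cases hs : 0 ≤ a * b / h
        · nlinarith
        · push Not at hs
          nlinarith
      · rw [zero_mul]; exact hR0
    rw [← Finset.expect_mul, Finset.expect_add_distrib] at this
    have h3 : ((𝔼 e : L5 h r ≃ α, (tb i (fun l => x (e l))) ^ 2) +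
        (𝔼 e : L5 h r ≃ α, (tb j (fun l => x (e l))) ^ 2)) * (1 / (2 * (h : ℝ))) ≤ t / h := by
      have : t / h = (2 * t) * (1 / (2 * (h : ℝ))) := by field_simp
      rw [this]
      refine mul_le_mul_of_nonneg_right (by linarith) (by positivity)
    have h4 : 2 * t / h = 2 * (t / h) := by ring
    rw [h4]
    linarith
  have p3 : 𝔼 e : L5 h r ≃ α, (if Zp i j (fun l => x (e l)) then (1 : ℝ) else 0) *
        (D0 (fun p => x (e (ι p)))) ^ 2 ≤
      𝔼 e : L5 h r ≃ α, (if Zp i j (fun l => x (e l)) then m1 (fun l => x (e l)) *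
        (tb i (fun l => x (e l)) + tb j (fun l => x (e l))) ^ 2 else 0) +
      (lam / 2 * (𝔼 e : L5 h r ≃ α, (D0 (fun p => x (e (ι p)))) ^ 4) +
        (𝔼 e : L5 h r ≃ α, m2 (fun l => x (e l))) / (2 * lam)) := by
    rw [Finset.mul_expect, Finset.expect_div, ← Finset.expect_add_distrib,
      ← Finset.expect_add_distrib]
    refine Finset.expect_le_expect fun e _ => ?_
    set D := D0 (fun p => x (e (ι p))) with hD
    have hDe : D = tb i (fun l => x (e l)) - tb j (fun l => x (e l)) :=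
      D0_pe i j hij (fun l => x (e l))
    have hs := m_sum (fun l => x (e l))
    have hm2 := m2_nonneg (fun l => x (e l))
    have hm1 := m1_nonneg (fun l => x (e l))
    have hother : 0 ≤ lam / 2 * D ^ 4 + m2 (fun l => x (e l)) / (2 * lam) := by positivity
    split_ifs with hZ
    · rw [one_mul]
      have h0 := Zp_m0 i j _ hZ
      by_cases hm : m1 (fun l => x (e l)) = 1
      · have hneg := Zp_m1 i j _ hZ hm
        rw [hm, one_mul]
        have : D ^ 2 ≤ (tb i (fun l => x (e l)) + tb j (fun l => x (e l))) ^ 2 := by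
          rw [hDe]
          nlinarith [mul_pos_of_neg_of_neg hneg.1 hneg.2]
        linarith
      · have hm10 : m1 (fun l => x (e l)) = 0 := by
          unfold m1 at hm ⊢
          split_ifs at hm ⊢ with h1
          · exact absurd rfl hm
          · rfl
        have hm21 : m2 (fun l => x (e l)) = 1 := by linarith
        rw [hm10, hm21, zero_mul, zero_add]
        have : D ^ 2 ≤ lam / 2 * D ^ 4 + 1 / (2 * lam) := by
          have e1 : lam / 2 * D ^ 4 + 1 / (2 * lam) - D ^ 2 =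
              (lam * D ^ 2 - 1) ^ 2 / (2 * lam) := by
            field_simp
            ring
          have e2 : 0 ≤ (lam * D ^ 2 - 1) ^ 2 / (2 * lam) := by positivity
          linarith
        exact this
    · rw [zero_mul, zero_add]
      exact hother
  have hlast : lam / 2 * (𝔼 e : L5 h r ≃ α, (D0 (fun p => x (e (ι p)))) ^ 4) ≤ 6 / 5 * lam := by
    have := mul_le_mul_of_nonneg_left hD4 (by positivity : 0 ≤ lam / 2)
    linarith
  rw [← hV] at p1
  linarith

end Pool.Agent.H61.MMS
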