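import Mathlib
import Pool.Agent.H61.MMS.A2

open Finset Classical
open scoped BigOperators

namespace Pool.Agent.H61.MMS

open Pool.Agent.H49.MMS

theorem dbl_lin (S : Finset (Fin 5)) (hS : S.card = 4) (f : Fin 5 → ℝ) :
    ∑ i ∈ S, ∑ j ∈ S, (if i = j then 0 else f i + f j) = 6 * ∑ i ∈ S, f i := by
  have h1 : ∀ i ∈ S, ∑ j ∈ S, (if i = j then 0 else f i + f j) = 2 * f i + ∑ j ∈ S, f j := by
    intro i hi
    have h2 : ∀ j ∈ S, (if i = j then 0 else f i + f j) = (f i + f j) -
        (if i = j then f i + f j else 0) := by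
      intro j _
      split_ifs <;> ring
    rw [Finset.sum_congr rfl h2, Finset.sum_sub_distrib, Finset.sum_ite_eq, if_pos hi,
      Finset.sum_add_distrib, Finset.sum_const, hS, nsmul_eq_mul]
    push_cast
    ring
  rw [Finset.sum_congr rfl h1, Finset.sum_add_distrib, ← Finset.mul_sum, Finset.sum_const, hS,
    nsmul_eq_mul]
  push_cast
  ring

theorem dbl_sq (S : Finset (Fin 5)) (hS : S.card = 4) (f : Fin 5 → ℝ) :
    ∑ i ∈ S, ∑ j ∈ S, (if i = j then 0 else (f i + f j) ^ 2) =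
      4 * ∑ i ∈ S, f i ^ 2 + 2 * (∑ i ∈ S, f i) ^ 2 := by
  have h1 : ∀ i ∈ S, ∑ j ∈ S, (if i = j then 0 else (f i + f j) ^ 2) =
      2 * f i * (∑ j ∈ S, f j) + ∑ j ∈ S, f j ^ 2 := by
    intro i hi
    have h2 : ∀ j ∈ S, (if i = j then 0 else (f i + f j) ^ 2) =
        (f i ^ 2 + 2 * f i * f j + f j ^ 2) -
        (if i = j then (f i + f j) ^ 2 else 0) := by
      intro j _
      split_ifs <;> ring
    rw [Finset.sum_congr rfl h2, Finset.sum_sub_distrib, Finset.sum_ite_eq, if_pos hi,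
      Finset.sum_add_distrib, Finset.sum_add_distrib, Finset.sum_const, hS, nsmul_eq_mul,
      ← Finset.mul_sum]
    push_cast
    ring
  rw [Finset.sum_congr rfl h1, Finset.sum_add_distrib, ← Finset.sum_mul, ← Finset.mul_sum,
    Finset.sum_const, hS, nsmul_eq_mul]
  push_cast
  ring

theorem sq_sum_neg (S : Finset (Fin 5)) (f : Fin 5 → ℝ) (hf : ∀ i ∈ S, f i ≤ 0) :
    ∑ i ∈ S, f i ^ 2 ≤ (∑ i ∈ S, f i) ^ 2 := by
  have h1 : (∑ i ∈ S, f i) ^ 2 = ∑ i ∈ S, f i * (∑ j ∈ S, f j) := by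
    rw [← Finset.sum_mul]; ring
  rw [h1]
  refine Finset.sum_le_sum fun i hi => ?_
  have h2 : -f i ≤ ∑ j ∈ S, -f j :=
    Finset.single_le_sum (f := fun j => -f j) (fun j hj => by linarith [hf j hj]) hi
  rw [Finset.sum_neg_distrib] at h2
  nlinarith [hf i hi]

variable {α : Type} [Fintype α] [DecidableEq α] {h r : ℕ}

/-- sum over the remainder -/
def rs (z : L5 h r → ℝ) : ℝ := ∑ j, z (Sum.inr j)

/-- sum of squares over the remainder -/
def qr (z : L5 h r → ℝ) : ℝ := ∑ j, z (Sum.inr j) ^ 2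

theorem m1_cases (z : L5 h r → ℝ) : m1 z = 0 ∨ (m1 z = 1 ∧ ∃ p, 0 ≤ tb p z ∧
    ∀ i, i ≠ p → tb i z < 0) := by
  unfold m1
  split_ifs with h1
  · right
    refine ⟨rfl, ?_⟩
    obtain ⟨p, hp⟩ := Finset.card_eq_one.1 h1
    refine ⟨p, ?_, ?_⟩
    · have : p ∈ univ.filter (fun i => 0 ≤ tb i z) := by rw [hp]; simp
      exact (Finset.mem_filter.1 this).2
    · intro i hi
      by_contra hcon
      push Not at hcon
      have : i ∈ univ.filter (fun i => 0 ≤ tb i z) := Finset.mem_filter.2 ⟨Finset.mem_univ _, hcon⟩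
      rw [hp, Finset.mem_singleton] at this
      exact hi this
  · left; rfl

theorem Zp_iff (z : L5 h r → ℝ) (p : Fin 5) (hp : 0 ≤ tb p z) (hneg : ∀ i, i ≠ p → tb i z < 0)
    (i j : Fin 5) : Zp i j z ∧ i ≠ j ↔ (i ≠ j ∧ i ≠ p ∧ j ≠ p) := by
  constructor
  · rintro ⟨hZ, hij⟩
    have hm : m1 z = 1 := by
      unfold m1
      rw [if_pos]
      rw [Finset.card_eq_one]
      refine ⟨p, ?_⟩
      ext l
      simp only [Finset.mem_filter, Finset.mem_univ, true_and, Finset.mem_singleton]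
      constructor
      · intro hl
        by_contra hcon
        linarith [hneg l hcon]
      · rintro rfl; exact hp
    have := Zp_m1 i j z hZ hm
    refine ⟨hij, ?_, ?_⟩
    · rintro rfl; linarith [this.1]
    · rintro rfl; linarith [this.2]
  · rintro ⟨hij, hi, hj⟩
    refine ⟨⟨by linarith [hneg i hi, hneg j hj], ?_⟩, hij⟩
    rw [Finset.card_eq_one]
    refine ⟨p, ?_⟩
    ext l
    simp only [Finset.mem_filter, Finset.mem_univ, true_and, Finset.mem_singleton]
    constructor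
    · rintro ⟨_, _, hl⟩
      by_contra hcon
      linarith [hneg l hcon]
    · rintro rfl
      exact ⟨fun hh => hi hh.symm, fun hh => hj hh.symm, hp⟩

theorem dbl_Zp (z : L5 h r → ℝ) (p : Fin 5) (hp : 0 ≤ tb p z) (hneg : ∀ i, i ≠ p → tb i z < 0)
    (F : Fin 5 → Fin 5 → ℝ) :
    ∑ i, ∑ j, (if i = j then 0 else if Zp i j z then F i j else 0) =
      ∑ i ∈ univ.erase p, ∑ j ∈ univ.erase p, (if i = j then 0 else F i j) := by
  have h1 : ∀ i j, (if i = j then 0 else if Zp i j z then F i j else 0) =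
      if i ≠ p then (if j ≠ p then (if i = j then 0 else F i j) else 0) else 0 := by
    intro i j
    have := Zp_iff z p hp hneg i j
    by_cases hij : i = j
    · simp [hij]
    · by_cases hi : i = p
      · have hnz : ¬ Zp i j z := fun hZ => (this.1 ⟨hZ, hij⟩).2.1 hi
        rw [if_neg hij, if_neg hnz, if_neg (not_not.2 hi)]
      · by_cases hj : j = p
        · have hnz : ¬ Zp i j z := fun hZ => (this.1 ⟨hZ, hij⟩).2.2 hj
          rw [if_neg hij, if_neg hnz, if_pos hi, if_neg (not_not.2 hj)]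
        · have hZ : Zp i j z := (this.2 ⟨hij, hi, hj⟩).1
          rw [if_neg hij, if_pos hZ, if_pos hi, if_pos hj, if_neg hij]
  have h2 : (univ : Finset (Fin 5)).erase p = univ.filter (fun i => i ≠ p) := by
    ext i; simp
  rw [h2, Finset.sum_filter]
  refine Finset.sum_congr rfl fun i _ => ?_
  rw [Finset.sum_congr rfl fun j _ => h1 i j]
  by_cases hi : i = p
  · simp [hi]
  · simp only [if_pos hi, Finset.sum_filter, ne_eq, hi, not_false_eq_true, if_true]

theorem S1 (z : L5 h r → ℝ) (hz2 : ∑ l, z l ^ 2 = 1) :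
    6 * (m1 z * (1 - ∑ i, nb i z * qb i z - qr z)) ≤
      ∑ i, ∑ j, (if i = j then 0 else if Zp i j z then m1 z * (qb i z + qb j z) else 0) := by
  rcases m1_cases z with h0 | ⟨h1, p, hp, hneg⟩
  · rw [h0]
    simp
  · rw [dbl_Zp z p hp hneg, h1]
    simp only [one_mul]
    rw [dbl_lin _ (by simp)]
    have e1 : ∑ l, z l ^ 2 = ∑ i, qb i z + qr z := by
      rw [Fintype.sum_sum_type, Fintype.sum_prod_type]
      rfl
    have e2 : ∑ i, nb i z * qb i z = qb p z := by
      rw [Finset.sum_eq_single p]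
      · unfold nb; rw [if_pos hp, one_mul]
      · intro i _ hi
        unfold nb
        rw [if_neg (not_le.2 (hneg i hi)), zero_mul]
      · intro hcon; exact absurd (Finset.mem_univ _) hcon
    have e3 : ∑ i ∈ univ.erase p, qb i z = ∑ i, qb i z - qb p z := by
      rw [← Finset.add_sum_erase univ (fun i => qb i z) (Finset.mem_univ p)]
      ring
    rw [e2, e3]
    linarith

theorem S2 (z : L5 h r → ℝ) (hz : ∑ l, z l = 0) :
    ∑ i, ∑ j, (if i = j then 0 else if Zp i j z then m1 z * (tb i z + tb j z) ^ 2 else 0) ≤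
      3 * (1001 / 1000 * ∑ i, tb i z ^ 2 + 1001 * rs z ^ 2) := by
  have hnn : 0 ≤ 3 * (1001 / 1000 * ∑ i, tb i z ^ 2 + 1001 * rs z ^ 2) := by positivity
  rcases m1_cases z with h0 | ⟨h1, p, hp, hneg⟩
  · rw [h0]
    simp only [zero_mul, ite_self, Finset.sum_const_zero]
    exact hnn
  · rw [dbl_Zp z p hp hneg, h1]
    simp only [one_mul]
    rw [dbl_sq _ (by simp)]
    have hs := sum_L5 z
    rw [hz] at hs
    have e1 : ∑ i ∈ univ.erase p, tb i z = -(tb p z + rs z) := by
      have := Finset.add_sum_erase univ (fun i => tb i z) (Finset.mem_univ p)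
      have e : ∑ j : Fin r, z (Sum.inr j) = rs z := rfl
      rw [e] at hs
      linarith
    have e2 : ∑ i ∈ univ.erase p, tb i z ^ 2 = ∑ i, tb i z ^ 2 - tb p z ^ 2 := by
      rw [← Finset.add_sum_erase univ (fun i => tb i z ^ 2) (Finset.mem_univ p)]
      ring
    have h3 := sq_sum_neg (univ.erase p) (fun i => tb i z)
      (fun i hi => (hneg i (Finset.ne_of_mem_erase hi)).le)
    have h4 : (∑ i ∈ univ.erase p, tb i z) ^ 2 ≤ 1001 / 1000 * tb p z ^ 2 + 1001 * rs z ^ 2 := by
      rw [e1]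
      nlinarith [sq_nonneg (tb p z - 1000 * rs z)]
    have h5 : 0 ≤ ∑ i, tb i z ^ 2 - tb p z ^ 2 := by
      rw [← e2]; positivity
    linarith

/-- lower bound for the mass of the nonnegative blocks -/
theorem mass_low [Nonempty (L5 h r ≃ α)] (x : α → ℝ) (hx : ∑ a, x a = 0)
    (hx2 : ∑ a, x a ^ 2 = 1) (hc : Fintype.card α = 5 * h + r) (hh : 1 ≤ h)
    (hr1 : 1 ≤ r) (t lam P c : ℝ) (hlam : 0 < lam)
    (ht : ∀ i : Fin 5, 𝔼 e : L5 h r ≃ α, (tb i (fun l => x (e l))) ^ 2 ≤ t)
    (hm0 : 𝔼 e : L5 h r ≃ α, m0 (fun l => x (e l)) ≤ P)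
    (hm2 : 𝔼 e : L5 h r ≃ α, m2 (fun l => x (e l)) ≤ P)
    (hrs : 𝔼 e : L5 h r ≃ α, rs (fun l => x (e l)) ^ 2 ≤ c)
    (hqr : 𝔼 e : L5 h r ≃ α, qr (fun l => x (e l)) ≤ c) :
    1 - 2 * P - c - (1 / 2 * (1001 / 1000 * (5 * t) + 1001 * c) +
      10 / 3 * (6 / 5 * lam + P / (2 * lam) + 2 * t / h)) ≤
      ∑ i : Fin 5, 𝔼 e : L5 h r ≃ α, nb i (fun l => x (e l)) * qb i (fun l => x (e l)) := by
  set err : ℝ := 6 / 5 * lam + P / (2 * lam) + 2 * t / h with herr
  have hpair : ∀ i j : Fin 5, i ≠ j →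
      𝔼 e : L5 h r ≃ α, (if Zp i j (fun l => x (e l)) then m1 (fun l => x (e l)) *
        (qb i (fun l => x (e l)) + qb j (fun l => x (e l))) else 0) ≤
      𝔼 e : L5 h r ≃ α, (if Zp i j (fun l => x (e l)) then m1 (fun l => x (e l)) *
        (tb i (fun l => x (e l)) + tb j (fun l => x (e l))) ^ 2 else 0) + err := by
    intro i j hij
    have h1 := pair_ineq i j hij x hx hx2 hc hh hr1 t lam hlam ht
    have h2 : (𝔼 e : L5 h r ≃ α, m2 (fun l => x (e l))) / (2 * lam) ≤ P / (2 * lam) :=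
      div_le_div_of_nonneg_right hm2 (by positivity)
    rw [herr]
    linarith
  have hz : ∀ e : L5 h r ≃ α, ∑ l, x (e l) = 0 := fun e => by rw [Equiv.sum_comp e x]; exact hx
  have hz2 : ∀ e : L5 h r ≃ α, ∑ l, x (e l) ^ 2 = 1 := fun e => by
    rw [Equiv.sum_comp e (fun a => x a ^ 2)]; exact hx2
  -- step 1
  have q1 : 6 * (𝔼 e : L5 h r ≃ α, (m1 (fun l => x (e l)) * (1 - ∑ i, nb i (fun l => x (e l)) *
      qb i (fun l => x (e l)) - qr (fun l => x (e l))))) ≤
      ∑ i : Fin 5, ∑ j : Fin 5, (if i = j then 0 else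
        𝔼 e : L5 h r ≃ α, (if Zp i j (fun l => x (e l)) then m1 (fun l => x (e l)) *
        (qb i (fun l => x (e l)) + qb j (fun l => x (e l))) else 0)) := by
    rw [Finset.mul_expect]
    refine le_trans (Finset.expect_le_expect fun e _ => S1 (fun l => x (e l)) (hz2 e)) ?_
    rw [Finset.expect_sum_comm]
    refine Finset.sum_le_sum fun i _ => ?_
    rw [Finset.expect_sum_comm]
    refine Finset.sum_le_sum fun j _ => ?_
    split_ifs with hij
    · rw [Finset.expect_const_zero]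
    · exact le_rfl
  have q2 : ∑ i : Fin 5, ∑ j : Fin 5, (if i = j then 0 else
        𝔼 e : L5 h r ≃ α, (if Zp i j (fun l => x (e l)) then m1 (fun l => x (e l)) *
        (tb i (fun l => x (e l)) + tb j (fun l => x (e l))) ^ 2 else 0)) ≤
      3 * (1001 / 1000 * (5 * t) + 1001 * c) := by
    have e1 : ∑ i : Fin 5, ∑ j : Fin 5, (if i = j then 0 else
        𝔼 e : L5 h r ≃ α, (if Zp i j (fun l => x (e l)) then m1 (fun l => x (e l)) *
        (tb i (fun l => x (e l)) + tb j (fun l => x (e l))) ^ 2 else 0)) =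
        𝔼 e : L5 h r ≃ α, ∑ i : Fin 5, ∑ j : Fin 5, (if i = j then 0 else
        if Zp i j (fun l => x (e l)) then m1 (fun l => x (e l)) *
        (tb i (fun l => x (e l)) + tb j (fun l => x (e l))) ^ 2 else 0) := by
      rw [Finset.expect_sum_comm]
      refine Finset.sum_congr rfl fun i _ => ?_
      rw [Finset.expect_sum_comm]
      refine Finset.sum_congr rfl fun j _ => ?_
      split_ifs with hij
      · rw [Finset.expect_const_zero]
      · rfl
    rw [e1]
    refine le_trans (Finset.expect_le_expect fun e _ => S2 (fun l => x (e l)) (hz e)) ?_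
    have e2 : 𝔼 e : L5 h r ≃ α, 3 * (1001 / 1000 * ∑ i, tb i (fun l => x (e l)) ^ 2 +
        1001 * rs (fun l => x (e l)) ^ 2) =
        3 * (1001 / 1000 * ∑ i : Fin 5, (𝔼 e : L5 h r ≃ α, tb i (fun l => x (e l)) ^ 2) +
        1001 * 𝔼 e : L5 h r ≃ α, rs (fun l => x (e l)) ^ 2) := by
      rw [← Finset.mul_expect, Finset.expect_add_distrib, ← Finset.mul_expect,
        ← Finset.mul_expect, Finset.expect_sum_comm]
    rw [e2]
    have e3 : ∑ i : Fin 5, (𝔼 e : L5 h r ≃ α, tb i (fun l => x (e l)) ^ 2) ≤ 5 * t := by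
      calc _ ≤ ∑ _i : Fin 5, t := Finset.sum_le_sum fun i _ => ht i
        _ = 5 * t := by rw [Finset.sum_const, Finset.card_univ, Fintype.card_fin, nsmul_eq_mul]; norm_num
    linarith
  have q3 : ∑ i : Fin 5, ∑ j : Fin 5, (if i = j then 0 else
        𝔼 e : L5 h r ≃ α, (if Zp i j (fun l => x (e l)) then m1 (fun l => x (e l)) *
        (qb i (fun l => x (e l)) + qb j (fun l => x (e l))) else 0)) ≤
      ∑ i : Fin 5, ∑ j : Fin 5, (if i = j then 0 else
        𝔼 e : L5 h r ≃ α, (if Zp i j (fun l => x (e l)) then m1 (fun l => x (e l)) *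
        (tb i (fun l => x (e l)) + tb j (fun l => x (e l))) ^ 2 else 0)) + 20 * err := by
    have e1 : 20 * err = ∑ i : Fin 5, ∑ j : Fin 5, (if i = j then 0 else err) := by
      have e2 : ∀ i : Fin 5, ∑ j : Fin 5, (if i = j then 0 else err) = 4 * err := by
        intro i
        have e3 : ∀ j : Fin 5, (if i = j then 0 else err) = err - (if i = j then err else 0) := by
          intro j
          split_ifs <;> ring
        rw [Finset.sum_congr rfl fun j _ => e3 j, Finset.sum_sub_distrib, Finset.sum_ite_eq,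
          if_pos (Finset.mem_univ _), Finset.sum_const, Finset.card_univ, Fintype.card_fin,
          nsmul_eq_mul]
        push_cast
        ring
      rw [Finset.sum_congr rfl fun i _ => e2 i, Finset.sum_const, Finset.card_univ,
        Fintype.card_fin, nsmul_eq_mul]
      push_cast
      ring
    rw [e1, ← Finset.sum_add_distrib]
    refine Finset.sum_le_sum fun i _ => ?_
    rw [← Finset.sum_add_distrib]
    refine Finset.sum_le_sum fun j _ => ?_
    split_ifs with hij
    · norm_num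
    · exact hpair i j hij
  -- lower bound for the left side of step 1
  have q4 : 1 - 2 * P - c - (∑ i : Fin 5, 𝔼 e : L5 h r ≃ α, nb i (fun l => x (e l)) *
      qb i (fun l => x (e l))) ≤ 𝔼 e : L5 h r ≃ α, (m1 (fun l => x (e l)) *
      (1 - ∑ i, nb i (fun l => x (e l)) * qb i (fun l => x (e l)) - qr (fun l => x (e l)))) := by
    have e1 : 𝔼 e : L5 h r ≃ α, (1 - m0 (fun l => x (e l)) - m2 (fun l => x (e l)) -
        (∑ i, nb i (fun l => x (e l)) * qb i (fun l => x (e l))) - qr (fun l => x (e l))) ≤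
        𝔼 e : L5 h r ≃ α, (m1 (fun l => x (e l)) *
      (1 - ∑ i, nb i (fun l => x (e l)) * qb i (fun l => x (e l)) - qr (fun l => x (e l)))) := by
      refine Finset.expect_le_expect fun e _ => ?_
      have hs := m_sum (fun l => x (e l))
      have h1 := m1_nonneg (fun l => x (e l))
      have h2 := m1_le_one (fun l => x (e l))
      have h3 : 0 ≤ ∑ i, nb i (fun l => x (e l)) * qb i (fun l => x (e l)) :=
        Finset.sum_nonneg fun i _ => mul_nonneg (nb_nonneg i _) (qb_nonneg i _)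
      have h4 : 0 ≤ qr (fun l => x (e l)) := Finset.sum_nonneg fun _ _ => sq_nonneg _
      nlinarith
    refine le_trans ?_ e1
    rw [Finset.expect_sub_distrib, Finset.expect_sub_distrib, Finset.expect_sub_distrib,
      Finset.expect_sub_distrib, Fintype.expect_const, Finset.expect_sum_comm]
    linarith
  linarith

end Pool.Agent.H61.MMS
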