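import Mathlib
import Pool.Agent.H61.MMS.A3

open Finset Classical
open scoped BigOperators

namespace Pool.Agent.H61.MMS

open Pool.Agent.H49.MMS

section one
variable {Λ α : Type} [Fintype Λ] [DecidableEq Λ] [Fintype α] [DecidableEq α]

/-- indicator that the sum over `A` is nonnegative -/
noncomputable def nn (A : Finset Λ) (z : Λ → ℝ) : ℝ := if 0 ≤ ∑ l ∈ A, z l then 1 else 0

theorem nn_nonneg (A : Finset Λ) (z : Λ → ℝ) : 0 ≤ nn A z := by unfold nn; split_ifs <;> norm_num

theorem nn_sq (A : Finset Λ) (z : Λ → ℝ) : nn A z ^ 2 = nn A z := by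
  unfold nn; split_ifs <;> norm_num

/-- postcomposition by a permutation does not change the average over bijections -/
theorem expect_post (σ : Equiv.Perm α) (F : (Λ ≃ α) → ℝ) :
    𝔼 e : Λ ≃ α, F (e.trans σ) = 𝔼 e : Λ ≃ α, F e := by
  refine Fintype.expect_equiv (Equiv.equivCongr (Equiv.refl Λ) σ) _ _ ?_
  intro e
  congr 1

/-- the probability that `a` is in the image of `A` and the sum over `A` is nonnegative -/
noncomputable def tau (A : Finset Λ) (x : α → ℝ) (a : α) : ℝ :=
  𝔼 e : Λ ≃ α, nn A (fun l => x (e l)) * (if e.symm a ∈ A then 1 else 0)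

theorem sum_swap_le (A : Finset Λ) (x : α → ℝ) (a b : α) (hab : x a ≤ x b) (e : Λ ≃ α)
    (hb : e.symm b ∈ A) :
    ∑ l ∈ A, x (Equiv.swap a b (e l)) ≤ ∑ l ∈ A, x (e l) := by
  rcases eq_or_ne a b with h | h
  · subst h
    simp
  · have h1 : ∀ l, x (Equiv.swap a b (e l)) - x (e l) =
        (if l = e.symm a then x b - x a else 0) + (if l = e.symm b then x a - x b else 0) := by
      intro l
      by_cases ha : l = e.symm a
      · have hlb : ¬ l = e.symm b := by
          rintro h2
          exact h (e.symm.injective (ha.symm.trans h2))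
        rw [if_pos ha, if_neg hlb, ha]
        simp
      · by_cases hlb : l = e.symm b
        · rw [if_neg ha, if_pos hlb, hlb]
          simp
        · rw [if_neg ha, if_neg hlb, Equiv.swap_apply_of_ne_of_ne]
          · ring
          · intro h3; exact ha (by rw [← h3]; simp)
          · intro h3; exact hlb (by rw [← h3]; simp)
    have h2 : ∑ l ∈ A, x (Equiv.swap a b (e l)) - ∑ l ∈ A, x (e l) =
        (if e.symm a ∈ A then x b - x a else 0) + (x a - x b) := by
      rw [← Finset.sum_sub_distrib, Finset.sum_congr rfl fun l _ => h1 l, Finset.sum_add_distrib,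
        Finset.sum_ite_eq', Finset.sum_ite_eq', if_pos hb]
    split_ifs at h2 <;> linarith

theorem tau_mono (A : Finset Λ) (x : α → ℝ) (a b : α) (hab : x a ≤ x b) :
    tau A x a ≤ tau A x b := by
  unfold tau
  rw [← expect_post (Equiv.swap a b) (fun e : Λ ≃ α => nn A (fun l => x (e l)) *
    (if e.symm a ∈ A then (1 : ℝ) else 0))]
  refine Finset.expect_le_expect fun e _ => ?_
  have h1 : (e.trans (Equiv.swap a b)).symm a = e.symm b := by
    simp [Equiv.symm_trans_apply]
  rw [h1]
  split_ifs with hb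
  · rw [mul_one, mul_one]
    have h2 := sum_swap_le A x a b hab e hb
    simp only [Equiv.trans_apply]
    unfold nn
    split_ifs with h3 h4 h4
    · exact le_rfl
    · exact absurd (h3.trans h2) h4
    · norm_num
    · exact le_rfl
  · simp

theorem sum_tau (A : Finset Λ) (x : α → ℝ) (g : α → ℝ) :
    ∑ a, g a * tau A x a = 𝔼 e : Λ ≃ α, nn A (fun l => x (e l)) * ∑ l ∈ A, g (e l) := by
  unfold tau
  rw [Finset.sum_congr rfl fun a _ => Finset.mul_expect _ _ (g a), ← Finset.expect_sum_comm]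
  refine Finset.expect_congr rfl fun e _ => ?_
  rw [← Equiv.sum_comp e, Finset.mul_sum, ← Finset.sum_filter_add_sum_filter_not univ (fun l => l ∈ A)]
  have h1 : ∑ l ∈ univ.filter (fun l => ¬ l ∈ A), g (e l) * (nn A (fun l => x (e l)) *
      (if e.symm (e l) ∈ A then 1 else 0)) = 0 := by
    refine Finset.sum_eq_zero fun l hl => ?_
    rw [Equiv.symm_apply_apply, if_neg (Finset.mem_filter.1 hl).2]
    ring
  rw [h1, add_zero]
  have h2 : univ.filter (fun l => l ∈ A) = A := by ext; simp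
  rw [h2]
  refine Finset.sum_congr rfl fun l hl => ?_
  rw [Equiv.symm_apply_apply, if_pos hl]
  ring

/-- the upper bound for the squares caught by one nonnegative block -/
theorem up_one [Nonempty (Λ ≃ α)] (A : Finset Λ) (x : α → ℝ) (hx2 : ∑ a, x a ^ 2 = 1)
    (hbig : ∀ a, 0 < x a → x a ^ 2 ≤ 1 / 6) (hn : 2 ≤ Fintype.card α)
    (hA : 5 * A.card ≤ Fintype.card α) (v : ℝ)
    (hp : 𝔼 e : Λ ≃ α, nn A (fun l => x (e l)) ≤ 1 / 5)
    (hv : ((A.card : ℝ) * ((Fintype.card α : ℝ) - A.card)) /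
        ((Fintype.card α : ℝ) * ((Fintype.card α : ℝ) - 1)) ≤ v) :
    𝔼 e : Λ ≃ α, nn A (fun l => x (e l)) * ∑ l ∈ A, x (e l) ^ 2 ≤
      1 / 25 + 5 / 4 * (v / 6) + 4 / 125 := by
  set n : ℝ := (Fintype.card α : ℝ) with hn'
  have hn2 : (2 : ℝ) ≤ n := by rw [hn']; exact_mod_cast hn
  have hA5 : 5 * (A.card : ℝ) ≤ n := by rw [hn']; exact_mod_cast hA
  set p : ℝ := 𝔼 e : Λ ≃ α, nn A (fun l => x (e l)) with hpdef
  have hp0 : 0 ≤ p := Finset.expect_nonneg fun e _ => nn_nonneg A _
  set g : α → ℝ := fun a => if x a < 0 then x a ^ 2 else 0 with hg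
  set f : α → ℝ := fun a => if 0 < x a then x a ^ 2 else 0 with hf
  have hfg : ∀ a, x a ^ 2 = g a + f a := by
    intro a
    simp only [hg, hf]
    split_ifs with h1 h2 h2
    · linarith
    · ring
    · ring
    · have : x a = 0 := le_antisymm (not_lt.1 h2) (not_lt.1 h1)
      rw [this]; ring
  have hg0 : ∀ a, 0 ≤ g a := by intro a; simp only [hg]; split_ifs <;> positivity
  have hf0 : ∀ a, 0 ≤ f a := by intro a; simp only [hf]; split_ifs <;> positivity
  have hf6 : ∀ a, f a ≤ 1 / 6 := by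
    intro a; simp only [hf]
    split_ifs with h1
    · exact hbig a h1
    · norm_num
  have hsum : ∑ a, g a + ∑ a, f a = 1 := by
    rw [← Finset.sum_add_distrib, ← hx2]
    exact Finset.sum_congr rfl fun a _ => (hfg a).symm
  -- the negative part
  have hanti : Antivary g (tau A x) := by
    intro a b hab
    have hlt : x a < x b := by
      by_contra hcon
      push Not at hcon
      exact absurd (tau_mono A x b a hcon) (not_le.2 hab)
    simp only [hg]
    split_ifs with h1 h2 h2
    · nlinarith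
    · linarith
    · positivity
    · exact le_rfl
  have hneg := hanti.card_mul_sum_le_sum_mul_sum
  have hst : ∑ a, tau A x a = A.card * p := by
    have := sum_tau A x (fun _ => 1)
    simp only [one_mul, Finset.sum_const, nsmul_eq_mul, mul_one] at this
    rw [this, ← Finset.expect_mul, mul_comm]
  rw [hst, sum_tau A x g] at hneg
  have h1 : 𝔼 e : Λ ≃ α, nn A (fun l => x (e l)) * ∑ l ∈ A, g (e l) ≤
      p * (A.card / n) * ∑ a, g a := by
    have hn0 : 0 < n := by linarith
    have e1 : p * (A.card / n) * ∑ a, g a = ((∑ a, g a) * (A.card * p)) / n := by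
      ring
    rw [e1, le_div_iff₀ hn0, mul_comm]
    exact hneg
  -- the positive part
  set fm : ℝ := (∑ a, f a) / n with hfm
  have hnfm : n * fm = ∑ a, f a := by
    rw [hfm, mul_comm]
    exact div_mul_cancel₀ _ (by linarith)
  set w : α → ℝ := fun a => f a - fm with hw
  have hw0 : ∑ a, w a = 0 := by
    simp only [hw]
    rw [Finset.sum_sub_distrib, Finset.sum_const, Finset.card_univ, nsmul_eq_mul, ← hn', hnfm]
    ring
  have hwsq : ∑ a, w a ^ 2 ≤ 1 / 6 := by
    have e1 : ∑ a, w a ^ 2 = ∑ a, f a ^ 2 - n * fm ^ 2 := by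
      have e2 : ∀ a, w a ^ 2 = f a ^ 2 - 2 * fm * f a + fm ^ 2 := by
        intro a; simp only [hw]; ring
      rw [Finset.sum_congr rfl fun a _ => e2 a, Finset.sum_add_distrib, Finset.sum_sub_distrib,
        ← Finset.mul_sum, Finset.sum_const, Finset.card_univ, nsmul_eq_mul, ← hn']
      rw [← hnfm]; ring
    have e4 : ∑ a, f a ^ 2 ≤ 1 / 6 * ∑ a, f a := by
      rw [Finset.mul_sum]
      refine Finset.sum_le_sum fun a _ => ?_
      nlinarith [hf0 a, hf6 a]
    have e5 : ∑ a, f a ≤ 1 := by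
      have := Finset.sum_nonneg fun a (_ : a ∈ univ) => hg0 a
      linarith
    have e6 : 0 ≤ n * fm ^ 2 := by positivity
    linarith
  have hsm := secMom (Λ := Λ) (α := α) A w hw0 hn
  have hV2 : 𝔼 e : Λ ≃ α, (∑ l ∈ A, w (e l)) ^ 2 ≤ v / 6 := by
    rw [hsm]
    have hcoef : 0 ≤ ((A.card : ℝ) * (n - A.card)) / (n * (n - 1)) := by
      have : 0 ≤ n - A.card := by
        have : (0 : ℝ) ≤ A.card := Nat.cast_nonneg _
        linarith
      have h1n : 0 ≤ n - 1 := by linarith
      exact div_nonneg (mul_nonneg (Nat.cast_nonneg _) this)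
        (mul_nonneg (by linarith) h1n)
    have hsq : 0 ≤ ∑ a, w a ^ 2 := Finset.sum_nonneg fun _ _ => sq_nonneg _
    have e1 : ((A.card : ℝ) * (n - A.card)) / (n * (n - 1)) * ∑ a, w a ^ 2 ≤ v * (1 / 6) :=
      mul_le_mul hv hwsq hsq (hcoef.trans hv)
    linarith
  have hV0 : 𝔼 e : Λ ≃ α, ∑ l ∈ A, w (e l) = 0 := by
    rw [Finset.expect_sum_comm]
    refine Finset.sum_eq_zero fun l _ => ?_
    rw [law_one l w, hw0, zero_div]
  have hpos : 𝔼 e : Λ ≃ α, nn A (fun l => x (e l)) * ∑ l ∈ A, f (e l) ≤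
      p * (A.card / n) * ∑ a, f a + (5 / 4 * (v / 6) + (p - p ^ 2) / 5) := by
    have e1 : ∀ e : Λ ≃ α, nn A (fun l => x (e l)) * ∑ l ∈ A, f (e l) ≤
        nn A (fun l => x (e l)) * (A.card * fm) + p * (∑ l ∈ A, w (e l)) +
        (5 / 4 * (∑ l ∈ A, w (e l)) ^ 2 +
          (nn A (fun l => x (e l)) - 2 * p * nn A (fun l => x (e l)) + p ^ 2) / 5) := by
      intro e
      have e2 : ∑ l ∈ A, f (e l) = ∑ l ∈ A, w (e l) + A.card * fm := by
        simp only [hw]
        rw [Finset.sum_sub_distrib, Finset.sum_const, nsmul_eq_mul]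
        ring
      rw [e2]
      set V := ∑ l ∈ A, w (e l)
      have hs := nn_sq A (fun l => x (e l))
      set N := nn A (fun l => x (e l))
      have e3 : (N - p) * V ≤ 5 / 4 * V ^ 2 + (N - p) ^ 2 / 5 := by
        nlinarith [sq_nonneg (5 * V - 2 * (N - p))]
      have e4 : (N - p) ^ 2 = N - 2 * p * N + p ^ 2 := by
        have : (N - p) ^ 2 = N ^ 2 - 2 * p * N + p ^ 2 := by ring
        rw [this, hs]
      rw [e4] at e3
      linarith
    refine le_trans (Finset.expect_le_expect fun e _ => e1 e) ?_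
    have e5 : 𝔼 e : Λ ≃ α, (nn A (fun l => x (e l)) * (A.card * fm) + p * (∑ l ∈ A, w (e l)) +
        (5 / 4 * (∑ l ∈ A, w (e l)) ^ 2 +
          (nn A (fun l => x (e l)) - 2 * p * nn A (fun l => x (e l)) + p ^ 2) / 5)) =
        p * (A.card * fm) + p * 0 + (5 / 4 * (𝔼 e : Λ ≃ α, (∑ l ∈ A, w (e l)) ^ 2) +
          (p - 2 * p * p + p ^ 2) / 5) := by
      rw [Finset.expect_add_distrib, Finset.expect_add_distrib, Finset.expect_add_distrib,
        ← Finset.expect_mul, ← Finset.mul_expect, ← Finset.mul_expect, hV0, ← Finset.expect_div,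
        Finset.expect_add_distrib, Finset.expect_sub_distrib, ← Finset.mul_expect,
        Fintype.expect_const]
    rw [e5]
    have e6 : p * (A.card * fm) = p * (A.card / n) * ∑ a, f a := by
      rw [hfm]; ring
    rw [e6]
    nlinarith
  have htot : 𝔼 e : Λ ≃ α, nn A (fun l => x (e l)) * ∑ l ∈ A, x (e l) ^ 2 =
      𝔼 e : Λ ≃ α, nn A (fun l => x (e l)) * ∑ l ∈ A, g (e l) +
      𝔼 e : Λ ≃ α, nn A (fun l => x (e l)) * ∑ l ∈ A, f (e l) := by
    rw [← Finset.expect_add_distrib]
    refine Finset.expect_congr rfl fun e _ => ?_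
    rw [← mul_add, ← Finset.sum_add_distrib]
    congr 1
    exact Finset.sum_congr rfl fun l _ => hfg (e l)
  rw [htot]
  have hAn : (A.card : ℝ) / n ≤ 1 / 5 := by
    rw [div_le_iff₀ (by linarith)]
    linarith
  have hAn0 : 0 ≤ (A.card : ℝ) / n := div_nonneg (Nat.cast_nonneg _) (by linarith)
  have hfin1 : p * (A.card / n) ≤ 1 / 25 := by nlinarith
  have hfin2 : p - p ^ 2 ≤ 4 / 25 := by nlinarith
  have hfin3 : p * (A.card / n) * ∑ a, g a + p * (A.card / n) * ∑ a, f a = p * (A.card / n) := by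
    rw [← mul_add, hsum, mul_one]
  linarith

end one

end Pool.Agent.H61.MMS
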