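import Mathlib
import Pool.Agent.H61.MMS.A4

open Finset Classical
open scoped BigOperators

namespace Pool.Agent.H61.MMS

open Pool.Agent.H49.MMS

theorem beta_small (h r : ℕ) (hr1 : 1 ≤ r) (hb : 25 * 10 ^ 9 * r ≤ 5 * h + r) :
    beta h r ≤ 3 / 10 ^ 6 := by
  have hbR : (25 * 10 ^ 9 : ℝ) * r ≤ 5 * h + r := by exact_mod_cast hb
  have hr1R : (1 : ℝ) ≤ r := by exact_mod_cast hr1
  unfold beta
  have h1 : (9600 : ℝ) / (2 * h - 1) ≤ 1 / 10 ^ 6 := by
    rw [div_le_div_iff₀ (by linarith) (by norm_num)]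
    linarith
  have h2 : (19202 : ℝ) * r / (2 * h + r) ≤ 2 / 10 ^ 6 := by
    rw [div_le_div_iff₀ (by linarith) (by norm_num)]
    linarith
  linarith

section
variable {α : Type} [Fintype α] [DecidableEq α]

theorem gf_scale (x : α → ℝ) (c : ℝ) (hc : 0 < c) (k : ℕ) : gf (fun a => c * x a) k = gf x k := by
  unfold gf
  refine Finset.expect_congr rfl fun S _ => ?_
  rw [← Finset.mul_sum]
  have : 0 ≤ c * ∑ a ∈ S, x a ↔ 0 ≤ ∑ a ∈ S, x a := mul_nonneg_iff_of_pos_left hc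
  simp only [this]

theorem gf_zero (x : α → ℝ) (k : ℕ) (hk : k ≤ Fintype.card α) (hx : ∀ a, x a = 0) :
    gf x k = 1 := by
  unfold gf
  have h1 : ∀ S ∈ (univ : Finset α).powersetCard k,
      (if 0 ≤ ∑ a ∈ S, x a then (1 : ℝ) else 0) = 1 := by
    intro S _
    rw [if_pos (Finset.sum_nonneg fun a _ => by rw [hx a])]
  rw [Finset.expect_congr rfl h1, Finset.expect_const]
  exact powersetCard_nonempty.2 (by rwa [Finset.card_univ])

/-- Case A for normalised data -/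
theorem caseA_norm (a k r : ℕ) (ha : 1 ≤ a) (hr1 : 1 ≤ r)
    (hc : Fintype.card α = 5 * (a * k) + r) (hb : 25 * 10 ^ 9 * r ≤ 5 * (a * k) + r)
    (x : α → ℝ) (hx : ∑ i, x i = 0) (hx2 : ∑ i, x i ^ 2 = 1)
    (hbig : ∀ i, 0 < x i → x i ^ 2 ≤ 1 / 6) : 1 / (5 * (a : ℝ)) ≤ gf x k := by
  by_contra hcon
  push Not at hcon
  have haR : (1 : ℝ) ≤ a := by exact_mod_cast ha
  obtain ⟨h, hdef⟩ : ∃ h, h = a * k := ⟨_, rfl⟩
  rw [← hdef] at hc hb
  have hh : 1000 ≤ h := by omega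
  have hrh : r ≤ h := by omega
  have hbR : (25 * 10 ^ 9 : ℝ) * r ≤ 5 * h + r := by exact_mod_cast hb
  have hr1R : (1 : ℝ) ≤ r := by exact_mod_cast hr1
  have hhR : (1000 : ℝ) ≤ h := by exact_mod_cast hh
  have hne : Nonempty (L5 h r ≃ α) := by
    rw [← Fintype.card_eq, hc]
    simp [L5, Fintype.card_sum, Fintype.card_prod]
  have hag : a * gf x k < 1 / 5 := by
    have e1 : 1 / (5 * (a : ℝ)) = (1 / 5) / a := by ring
    rw [e1, lt_div_iff₀ (by linarith)] at hcon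
    linarith
  have hnn : ∀ i : Fin 5, 𝔼 e : L5 h r ≃ α, nn (univ.map (be i)) (fun l => x (e l)) ≤ a * gf x k := by
    intro i
    subst hdef
    have h1 := block_le (Λ := L5 (a * k) r) a k ha (be i) x
    refine le_trans (le_of_eq ?_) h1
    refine Finset.expect_congr rfl fun e _ => ?_
    unfold nn
    rw [Finset.sum_map]
  have hnb : ∀ (i : Fin 5) (z : L5 h r → ℝ), nb i z = nn (univ.map (be i)) z := by
    intro i z
    unfold nn nb
    rw [Finset.sum_map]
    rfl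
  have hMM : 𝔼 e : L5 h r ≃ α, MM (fun l => x (e l)) < 1 := by
    have e1 : 𝔼 e : L5 h r ≃ α, MM (fun l => x (e l)) =
        ∑ i : Fin 5, 𝔼 e : L5 h r ≃ α, nn (univ.map (be i)) (fun l => x (e l)) := by
      unfold MM
      rw [Finset.expect_sum_comm]
      refine Finset.sum_congr rfl fun i _ => Finset.expect_congr rfl fun e _ => ?_
      rw [hnb]
    rw [e1]
    calc _ ≤ ∑ _i : Fin 5, a * gf x k := Finset.sum_le_sum fun i _ => hnn i
      _ = 5 * (a * gf x k) := by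
          rw [Finset.sum_const, Finset.card_univ, Fintype.card_fin, nsmul_eq_mul]; norm_num
      _ < 1 := by linarith
  obtain ⟨hm0, hm2⟩ := few x hx hc hh hrh hr1 hMM
  have hβ := beta_small h r hr1 hb
  have hP0 : 𝔼 e : L5 h r ≃ α, m0 (fun l => x (e l)) ≤ 54 / 10 ^ 6 := by linarith
  have hP2 : 𝔼 e : L5 h r ≃ α, m2 (fun l => x (e l)) ≤ 54 / 10 ^ 6 := by linarith
  have hvar : ((h : ℝ) * (4 * h + r)) / ((5 * h + r) * (5 * h + r - 1)) ≤ 1601 / 10000 := by
    rw [div_le_div_iff₀ (by apply mul_pos <;> linarith) (by norm_num)]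
    nlinarith
  have ht : ∀ i : Fin 5, 𝔼 e : L5 h r ≃ α, (tb i (fun l => x (e l))) ^ 2 ≤ 1601 / 10000 :=
    fun i => (tb_two i x hx hx2 hc (by omega) hr1).trans hvar
  have hcR : (Fintype.card α : ℝ) = 5 * h + r := by rw [hc]; push_cast; ring
  have hrn : (r : ℝ) / (5 * h + r) ≤ 1 / 10 ^ 10 := by
    rw [div_le_div_iff₀ (by linarith) (by norm_num)]
    linarith
  have hrs : 𝔼 e : L5 h r ≃ α, rs (fun l => x (e l)) ^ 2 ≤ 1 / 10 ^ 10 := by
    have h1 := secMom (Λ := L5 h r) (α := α) (univ.map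
      (⟨fun i => Sum.inr i, fun i j hij => Sum.inr_injective hij⟩ : Fin r ↪ L5 h r)) x hx
      (by rw [hc]; omega)
    rw [hx2, mul_one, hcR] at h1
    simp only [Finset.sum_map, Finset.card_map, Finset.card_univ, Fintype.card_fin] at h1
    have h2 : 𝔼 e : L5 h r ≃ α, rs (fun l => x (e l)) ^ 2 =
        ((r : ℝ) * (5 * h + r - r)) / ((5 * h + r) * (5 * h + r - 1)) := h1
    rw [h2]
    refine le_trans ?_ hrn
    rw [div_le_div_iff₀ (by apply mul_pos <;> linarith) (by linarith)]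
    have : (r : ℝ) * (5 * h + r - r) ≤ r * (5 * h + r - 1) :=
      mul_le_mul_of_nonneg_left (by linarith) (by linarith)
    nlinarith
  have hqr : 𝔼 e : L5 h r ≃ α, qr (fun l => x (e l)) ≤ 1 / 10 ^ 10 := by
    unfold qr
    rw [Finset.expect_sum_comm]
    have h1 : ∀ j : Fin r, 𝔼 e : L5 h r ≃ α, x (e (Sum.inr j)) ^ 2 = 1 / (5 * h + r) := by
      intro j
      have := law_one (Λ := L5 h r) (α := α) (Sum.inr j) (fun a => x a ^ 2)
      rw [this, hx2, hcR]
    rw [Finset.sum_congr rfl fun j _ => h1 j, Finset.sum_const, Finset.card_univ,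
      Fintype.card_fin, nsmul_eq_mul]
    have : (r : ℝ) * (1 / (5 * h + r)) = r / (5 * h + r) := by ring
    rw [this]
    exact hrn
  have hlow := mass_low x hx hx2 hc (by omega) hr1 (1601 / 10000) (1 / 180) (54 / 10 ^ 6)
    (1 / 10 ^ 10) (by norm_num) ht hP0 hP2 hrs hqr
  have hup : ∀ i : Fin 5, 𝔼 e : L5 h r ≃ α, nb i (fun l => x (e l)) * qb i (fun l => x (e l)) ≤
      1 / 25 + 5 / 4 * ((1601 / 10000) / 6) + 4 / 125 := by
    intro i
    have h1 := up_one (Λ := L5 h r) (univ.map (be i)) x hx2 hbig (by rw [hc]; omega)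
      (by rw [Finset.card_map, Finset.card_univ, Fintype.card_fin, hc]; omega) (1601 / 10000)
      ((hnn i).trans hag.le) (by
        rw [Finset.card_map, Finset.card_univ, Fintype.card_fin, hcR]
        refine le_trans (le_of_eq ?_) hvar
        congr 1
        ring)
    refine le_trans (le_of_eq ?_) h1
    refine Finset.expect_congr rfl fun e _ => ?_
    rw [hnb, Finset.sum_map]
    rfl
  have hsum : ∑ i : Fin 5, 𝔼 e : L5 h r ≃ α, nb i (fun l => x (e l)) * qb i (fun l => x (e l)) ≤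
      5 * (1 / 25 + 5 / 4 * ((1601 / 10000) / 6) + 4 / 125) := by
    calc _ ≤ ∑ _i : Fin 5, (1 / 25 + 5 / 4 * ((1601 / 10000) / 6) + 4 / 125 : ℝ) :=
          Finset.sum_le_sum fun i _ => hup i
      _ = _ := by rw [Finset.sum_const, Finset.card_univ, Fintype.card_fin, nsmul_eq_mul]; norm_num
  have hh2 : 2 * (1601 / 10000 : ℝ) / h ≤ 1 / 1000 := by
    rw [div_le_div_iff₀ (by linarith) (by norm_num)]
    linarith
  norm_num at hlow hsum hh2
  linarith

/-- Case A -/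
theorem caseA (a k r : ℕ) (ha : 1 ≤ a) (hr1 : 1 ≤ r)
    (hc : Fintype.card α = 5 * (a * k) + r) (hb : 25 * 10 ^ 9 * r ≤ 5 * (a * k) + r)
    (x : α → ℝ) (hx : ∑ i, x i = 0)
    (hbig : ∀ i, 0 < x i → 6 * x i ^ 2 ≤ ∑ j, x j ^ 2) : 1 / (5 * (a : ℝ)) ≤ gf x k := by
  have haR : (1 : ℝ) ≤ a := by exact_mod_cast ha
  have hQ0 : 0 ≤ ∑ j, x j ^ 2 := Finset.sum_nonneg fun _ _ => sq_nonneg _
  rcases hQ0.eq_or_lt with hQ | hQ
  · have hz : ∀ i, x i = 0 := by
      intro i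
      have := (Finset.sum_eq_zero_iff_of_nonneg (fun j _ => sq_nonneg (x j))).1 hQ.symm i
        (Finset.mem_univ i)
      exact pow_eq_zero_iff (n := 2) (by norm_num) |>.1 this
    have hka : k ≤ a * k := Nat.le_mul_of_pos_left k (by omega)
    rw [gf_zero x k (by rw [hc]; omega) hz, div_le_one (by linarith)]
    linarith
  · set Q : ℝ := ∑ j, x j ^ 2 with hQdef
    set c : ℝ := (Real.sqrt Q)⁻¹ with hcdef
    have hs : 0 < Real.sqrt Q := Real.sqrt_pos.2 hQ
    have hc0 : 0 < c := inv_pos.2 hs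
    have hcc : c ^ 2 * Q = 1 := by
      rw [hcdef, inv_pow, Real.sq_sqrt hQ.le, inv_mul_cancel₀ hQ.ne']
    rw [← gf_scale x c hc0 k]
    refine caseA_norm a k r ha hr1 hc hb (fun i => c * x i) ?_ ?_ ?_
    · rw [← Finset.mul_sum, hx, mul_zero]
    · have : ∀ i, (c * x i) ^ 2 = c ^ 2 * x i ^ 2 := fun i => by ring
      rw [Finset.sum_congr rfl fun i _ => this i, ← Finset.mul_sum, ← hQdef, hcc]
    · intro i hi
      have hxi : 0 < x i := (mul_pos_iff_of_pos_left hc0).1 hi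
      have h1 := hbig i hxi
      have h2 := mul_le_mul_of_nonneg_left h1 (sq_nonneg c)
      have h3 : (c * x i) ^ 2 = c ^ 2 * x i ^ 2 := by ring
      have h4 : c ^ 2 * (6 * x i ^ 2) = 6 * (c ^ 2 * x i ^ 2) := by ring
      have h2' : c ^ 2 * (6 * x i ^ 2) ≤ 1 := by
        refine h2.trans (le_of_eq ?_)
        exact hcc
      show (c * x i) ^ 2 ≤ 1 / 6
      rw [h3]
      linarith

end

end Pool.Agent.H61.MMS
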