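import Mathlib
import Pool.Agent.H61.MMS.A5

open Finset Classical
open scoped BigOperators

namespace Pool.Agent.H61.MMS

open Pool.Agent.H49.MMS

variable {Λ α : Type} [Fintype Λ] [DecidableEq Λ] [Fintype α] [DecidableEq α]

/-- averaging over the positions outside `B` -/
theorem cond_avg (A B : Finset Λ) (hAB : ∀ l ∈ A, l ∉ B) (x : α → ℝ) (G : (Λ → ℝ) → ℝ → ℝ)
    (hG : ∀ z z' t, (∀ l ∈ B, z l = z' l) → G z t = G z' t) :
    𝔼 e : Λ ≃ α, G (fun l => x (e l)) (∑ l ∈ A, x (e l)) =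
    𝔼 e : Λ ≃ α, 𝔼 π : Equiv.Perm {l : Λ // l ∉ B},
      G (fun l => x (e l)) (∑ p ∈ A.subtype (fun l => l ∉ B), x (e (π p).1)) := by
  set ι : {l : Λ // l ∉ B} ↪ Λ := Function.Embedding.subtype _ with hι
  rw [loc_avg ι x (fun z => G z (∑ l ∈ A, z l))]
  refine Finset.expect_congr rfl fun e _ => Finset.expect_congr rfl fun π _ => ?_
  have h1 : ∑ l ∈ A, x (e (ext ι π l)) =
      ∑ p ∈ A.subtype (fun l => l ∉ B), x (e (π p).1) := by
    rw [← Finset.sum_subtype_of_mem (fun l => x (e (ext ι π l))) hAB]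
    refine Finset.sum_congr rfl fun p _ => ?_
    have : ext ι π (ι p) = ι (π p) := ext_apply ι π p
    have e1 : (p : Λ) = ι p := rfl
    rw [e1, this]
    rfl
  rw [h1]
  refine hG _ _ _ fun l hl => ?_
  have : ext ι π l = l := ext_apply_not ι π l (fun p hp => p.2 (by
    have e1 : (p : Λ) = ι p := rfl
    rw [e1, hp]; exact hl))
  rw [this]

theorem sum_sub (B : Finset Λ) (f : Λ → ℝ) :
    ∑ p : {l : Λ // l ∉ B}, f p = ∑ l, f l - ∑ l ∈ B, f l := by
  have h1 : ∑ p : {l : Λ // l ∉ B}, f p = ∑ l ∈ univ.filter (fun l => l ∉ B), f l := by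
    rw [Finset.sum_subtype (univ.filter (fun l => l ∉ B)) (p := fun l => l ∉ B) (by simp)]
  rw [h1]
  have h2 := Finset.sum_filter_add_sum_filter_not univ (fun l => l ∈ B) f
  have h3 : univ.filter (fun l => l ∈ B) = B := by ext; simp
  rw [h3] at h2
  linarith

theorem card_sub (B : Finset Λ) :
    (Fintype.card {l : Λ // l ∉ B} : ℝ) = Fintype.card Λ - B.card := by
  have h := sum_sub B (fun _ => (1 : ℝ))
  simpa using h

theorem card_sub' (B : Finset Λ) :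
    Fintype.card {l : Λ // l ∉ B} + B.card = Fintype.card Λ := by
  have h := card_sub B
  have h2 : (Fintype.card {l : Λ // l ∉ B} : ℝ) + B.card = Fintype.card Λ := by linarith
  exact_mod_cast h2

theorem mean_zero [Nonempty (Λ ≃ α)] (A : Finset Λ) (x : α → ℝ) (hn : 2 ≤ Fintype.card α) :
    𝔼 e : Λ ≃ α, (∑ l ∈ A, x (e l) - A.card * ((∑ a, x a) / Fintype.card α)) = 0 := by
  rw [Finset.expect_sub_distrib, Fintype.expect_const, Finset.expect_sum_comm,
    Finset.sum_congr rfl fun l _ => law_one l x, Finset.sum_const, nsmul_eq_mul, sub_self]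

theorem var_bd [Nonempty (Λ ≃ α)] (A : Finset Λ) (x : α → ℝ) (hn : 2 ≤ Fintype.card α) (V : ℝ)
    (hA : A.card ≤ Fintype.card α)
    (hV : ((A.card : ℝ) * ((Fintype.card α : ℝ) - A.card)) /
        ((Fintype.card α : ℝ) * ((Fintype.card α : ℝ) - 1)) * ∑ a, x a ^ 2 ≤ V) :
    𝔼 e : Λ ≃ α, (∑ l ∈ A, x (e l) - A.card * ((∑ a, x a) / Fintype.card α)) ^ 2 ≤ V := by
  obtain ⟨n, hn'⟩ : ∃ n : ℝ, n = (Fintype.card α : ℝ) := ⟨_, rfl⟩
  have hn2 : (2 : ℝ) ≤ n := by rw [hn']; exact_mod_cast hn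
  have hAn : (A.card : ℝ) ≤ n := by rw [hn']; exact_mod_cast hA
  obtain ⟨m, hm⟩ : ∃ m : ℝ, m = (∑ a, x a) / n := ⟨_, rfl⟩
  have hnm : n * m = ∑ a, x a := by
    rw [hm, mul_comm]
    exact div_mul_cancel₀ _ (by linarith)
  set w : α → ℝ := fun a => x a - m with hw
  have hw0 : ∑ a, w a = 0 := by
    simp only [hw]
    rw [Finset.sum_sub_distrib, Finset.sum_const, Finset.card_univ, nsmul_eq_mul, ← hn', hnm]
    ring
  have hwsq : ∑ a, w a ^ 2 ≤ ∑ a, x a ^ 2 := by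
    have e1 : ∑ a, w a ^ 2 = ∑ a, x a ^ 2 - n * m ^ 2 := by
      have e2 : ∀ a, w a ^ 2 = x a ^ 2 - 2 * m * x a + m ^ 2 := by
        intro a; simp only [hw]; ring
      rw [Finset.sum_congr rfl fun a _ => e2 a, Finset.sum_add_distrib, Finset.sum_sub_distrib,
        ← Finset.mul_sum, Finset.sum_const, Finset.card_univ, nsmul_eq_mul, ← hn', ← hnm]
      ring
    have e6 : 0 ≤ n * m ^ 2 := mul_nonneg (by linarith) (sq_nonneg _)
    linarith
  have hsm := secMom (Λ := Λ) (α := α) A w hw0 hn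
  rw [← hn'] at hsm hV
  have hcoef : 0 ≤ ((A.card : ℝ) * (n - A.card)) / (n * (n - 1)) :=
    div_nonneg (mul_nonneg (Nat.cast_nonneg _) (by linarith))
      (mul_nonneg (by linarith) (by linarith))
  have h1 : 𝔼 e : Λ ≃ α, (∑ l ∈ A, x (e l) - A.card * ((∑ a, x a) / Fintype.card α)) ^ 2 =
      𝔼 e : Λ ≃ α, (∑ l ∈ A, w (e l)) ^ 2 := by
    refine Finset.expect_congr rfl fun e _ => ?_
    rw [← hn', ← hm]
    congr 1
    simp only [hw]
    rw [Finset.sum_sub_distrib, Finset.sum_const, nsmul_eq_mul]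
  rw [h1, hsm]
  exact (mul_le_mul_of_nonneg_left hwsq hcoef).trans hV

/-- Cantelli, lower tail -/
theorem cant_lo [Nonempty (Λ ≃ α)] (A : Finset Λ) (x : α → ℝ) (hn : 2 ≤ Fintype.card α)
    (V d c τ : ℝ) (hA : A.card ≤ Fintype.card α)
    (hV : ((A.card : ℝ) * ((Fintype.card α : ℝ) - A.card)) /
        ((Fintype.card α : ℝ) * ((Fintype.card α : ℝ) - 1)) * ∑ a, x a ^ 2 ≤ V)
    (hd : 0 < d) (hc : 0 ≤ c) (hτ : τ + d ≤ A.card * ((∑ a, x a) / Fintype.card α)) :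
    𝔼 e : Λ ≃ α, (if ∑ l ∈ A, x (e l) ≤ τ then (1 : ℝ) else 0) ≤ (V + c ^ 2) / (d + c) ^ 2 := by
  have hv := var_bd A x hn V hA hV
  have hm := mean_zero A x hn
  set M : ℝ := A.card * ((∑ a, x a) / Fintype.card α) with hM
  have hdc : 0 < (d + c) ^ 2 := by positivity
  have h1 : ∀ e : Λ ≃ α, (if ∑ l ∈ A, x (e l) ≤ τ then (1 : ℝ) else 0) ≤
      ((∑ l ∈ A, x (e l) - M) ^ 2 - 2 * c * (∑ l ∈ A, x (e l) - M) + c ^ 2) / (d + c) ^ 2 := by
    intro e
    set W := ∑ l ∈ A, x (e l) - M with hW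
    have e1 : W ^ 2 - 2 * c * W + c ^ 2 = (W - c) ^ 2 := by ring
    rw [e1]
    split_ifs with h
    · rw [le_div_iff₀ hdc, one_mul]
      have : W - c ≤ -(d + c) := by rw [hW]; linarith
      nlinarith
    · positivity
  refine le_trans (Finset.expect_le_expect fun e _ => h1 e) ?_
  rw [← Finset.expect_div, Finset.expect_add_distrib, Finset.expect_sub_distrib,
    ← Finset.mul_expect, hm, Fintype.expect_const]
  refine div_le_div_of_nonneg_right ?_ hdc.le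
  linarith

/-- Cantelli, upper tail -/
theorem cant_hi [Nonempty (Λ ≃ α)] (A : Finset Λ) (x : α → ℝ) (hn : 2 ≤ Fintype.card α)
    (V d c τ : ℝ) (hA : A.card ≤ Fintype.card α)
    (hV : ((A.card : ℝ) * ((Fintype.card α : ℝ) - A.card)) /
        ((Fintype.card α : ℝ) * ((Fintype.card α : ℝ) - 1)) * ∑ a, x a ^ 2 ≤ V)
    (hd : 0 < d) (hc : 0 ≤ c) (hτ : A.card * ((∑ a, x a) / Fintype.card α) + d ≤ τ) :
    𝔼 e : Λ ≃ α, (if τ ≤ ∑ l ∈ A, x (e l) then (1 : ℝ) else 0) ≤ (V + c ^ 2) / (d + c) ^ 2 := by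
  have h := cant_lo A (fun a => -x a) hn V d c (-τ) hA
    (by simpa using hV) hd hc (by
      rw [Finset.sum_neg_distrib, neg_div, mul_neg]
      linarith)
  refine le_trans (le_of_eq (Finset.expect_congr rfl fun e _ => ?_)) h
  rw [Finset.sum_neg_distrib]
  by_cases h1 : τ ≤ ∑ l ∈ A, x (e l)
  · rw [if_pos h1, if_pos (by linarith)]
  · rw [if_neg h1, if_neg (by intro h2; exact h1 (by linarith))]

end Pool.Agent.H61.MMS
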