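import Mathlib
import Pool.Agent.H61.MMS.B1

open Finset Classical
open scoped BigOperators

namespace Pool.Agent.H61.MMS

open Pool.Agent.H49.MMS

theorem coef5 (m M : ℝ) (hm : 0 ≤ m) (h5 : 5 * m ≤ M) (hM : 20000 ≤ M) :
    (m * (M - m)) / (M * (M - 1)) ≤ 16001 / 100000 := by
  rw [div_le_div_iff₀ (by apply mul_pos <;> linarith) (by norm_num)]
  nlinarith [mul_nonneg hm (by linarith : 0 ≤ M - 5 * m), mul_nonneg hm hm,
    mul_nonneg (by linarith : 0 ≤ M) (by linarith : 0 ≤ M - 20000),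
    mul_nonneg (by linarith : 0 ≤ M - 5 * m) (by linarith : 0 ≤ M - 5 * m)]

theorem coef4 (m M : ℝ) (hm : 0 ≤ m) (h4 : 4 * m ≤ M) (hM : 20000 ≤ M) :
    (m * (M - m)) / (M * (M - 1)) ≤ 18751 / 100000 := by
  rw [div_le_div_iff₀ (by apply mul_pos <;> linarith) (by norm_num)]
  nlinarith [mul_nonneg hm (by linarith : 0 ≤ M - 4 * m), mul_nonneg hm hm,
    mul_nonneg (by linarith : 0 ≤ M) (by linarith : 0 ≤ M - 20000),
    mul_nonneg (by linarith : 0 ≤ M - 4 * m) (by linarith : 0 ≤ M - 4 * m)]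

section
variable {P : Type} [Fintype P] [DecidableEq P]

/-- after the first passage there is a fair chance to end in the middle zone -/
theorem inner_bd (A : Finset P) (w : P → ℝ) (u : ℝ) (hu1 : 11 / 10 ≤ u) (hu2 : u ≤ 21 / 10)
    (hsum : ∑ p, w p = -1 - u) (hsq : ∑ p, w p ^ 2 ≤ 5) (h5 : 5 * A.card ≤ Fintype.card P)
    (hbig : 20000 ≤ Fintype.card P) :
    3 / 100 ≤ 𝔼 π : Equiv.Perm P, (if 0 ≤ u + ∑ p ∈ A, w (π p) ∧ u + ∑ p ∈ A, w (π p) ≤ 14 / 5
      then (1 : ℝ) else 0) := by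
  have hne : Nonempty (P ≃ P) := ⟨Equiv.refl P⟩
  obtain ⟨n, hn'⟩ : ∃ n : ℝ, n = (Fintype.card P : ℝ) := ⟨_, rfl⟩
  have hn2 : (20000 : ℝ) ≤ n := by rw [hn']; exact_mod_cast hbig
  have h5R : 5 * (A.card : ℝ) ≤ n := by rw [hn']; exact_mod_cast h5
  have hA0 : (0 : ℝ) ≤ A.card := Nat.cast_nonneg _
  have hV : ((A.card : ℝ) * ((Fintype.card P : ℝ) - A.card)) /
        ((Fintype.card P : ℝ) * ((Fintype.card P : ℝ) - 1)) * ∑ a, w a ^ 2 ≤ 8001 / 10000 := by
    rw [← hn']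
    have h1 := coef5 (A.card : ℝ) n hA0 h5R hn2
    have h2 : 0 ≤ ∑ a, w a ^ 2 := Finset.sum_nonneg fun _ _ => sq_nonneg _
    have h3 := mul_le_mul h1 hsq h2 (by norm_num)
    linarith
  have hmean : (A.card : ℝ) * ((∑ a, w a) / Fintype.card P) ≤ 0 := by
    rw [hsum, ← hn']
    have : (-1 - u) / n ≤ 0 := div_nonpos_of_nonpos_of_nonneg (by linarith) (by linarith)
    exact mul_nonpos_of_nonneg_of_nonpos hA0 this
  have hmean2 : -(1 + u) / 5 ≤ (A.card : ℝ) * ((∑ a, w a) / Fintype.card P) := by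
    rw [hsum, ← hn', ← mul_div_assoc, div_le_div_iff₀ (by norm_num) (by linarith)]
    nlinarith
  have hcA : A.card ≤ Fintype.card P := by omega
  have key : ∀ d1 c1 d2 c2 : ℝ, 0 < d1 → 0 ≤ c1 → 0 < d2 → 0 ≤ c2 →
      d1 ≤ (4 * u - 1) / 5 → d2 ≤ 14 / 5 - u →
      (8001 / 10000 + c1 ^ 2) / (d1 + c1) ^ 2 + (8001 / 10000 + c2 ^ 2) / (d2 + c2) ^ 2 ≤ 97 / 100 →
      3 / 100 ≤ 𝔼 π : Equiv.Perm P, (if 0 ≤ u + ∑ p ∈ A, w (π p) ∧
        u + ∑ p ∈ A, w (π p) ≤ 14 / 5 then (1 : ℝ) else 0) := by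
    intro d1 c1 d2 c2 hd1 hc1 hd2 hc2 h1 h2 hle
    have k1 := cant_lo (Λ := P) (α := P) A w (by omega) (8001 / 10000) d1 c1 (-u) hcA hV hd1 hc1
      (by linarith)
    have k2 := cant_hi (Λ := P) (α := P) A w (by omega) (8001 / 10000) d2 c2 (14 / 5 - u) hcA hV
      hd2 hc2 (by linarith)
    have k3 : 1 - (𝔼 e : P ≃ P, (if ∑ l ∈ A, w (e l) ≤ -u then (1 : ℝ) else 0)) -
        (𝔼 e : P ≃ P, (if 14 / 5 - u ≤ ∑ l ∈ A, w (e l) then (1 : ℝ) else 0)) ≤
        𝔼 π : Equiv.Perm P, (if 0 ≤ u + ∑ p ∈ A, w (π p) ∧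
        u + ∑ p ∈ A, w (π p) ≤ 14 / 5 then (1 : ℝ) else 0) := by
      have e1 : (1 : ℝ) = 𝔼 _e : P ≃ P, (1 : ℝ) := (Fintype.expect_const _).symm
      nth_rewrite 1 [e1]
      rw [← Finset.expect_sub_distrib, ← Finset.expect_sub_distrib]
      refine Finset.expect_le_expect fun π _ => ?_
      set T := ∑ l ∈ A, w (π l) with hT
      by_cases g1 : T ≤ -u
      · rw [if_pos g1]
        have : 0 ≤ (if 14 / 5 - u ≤ T then (1 : ℝ) else 0) := by split_ifs <;> norm_num
        have : 0 ≤ (if 0 ≤ u + T ∧ u + T ≤ 14 / 5 then (1 : ℝ) else 0) := by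
          split_ifs <;> norm_num
        linarith
      · by_cases g2 : 14 / 5 - u ≤ T
        · rw [if_neg g1, if_pos g2]
          have : 0 ≤ (if 0 ≤ u + T ∧ u + T ≤ 14 / 5 then (1 : ℝ) else 0) := by
            split_ifs <;> norm_num
          linarith
        · rw [if_neg g1, if_neg g2, if_pos ⟨by linarith [not_le.1 g1], by linarith [not_le.1 g2]⟩]
          norm_num
    linarith
  by_cases g1 : u ≤ 14 / 10
  · exact key (68 / 100) (118 / 100) (14 / 10) (57 / 100) (by norm_num) (by norm_num)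
      (by norm_num) (by norm_num) (by linarith) (by linarith) (by norm_num)
  · by_cases g2 : u ≤ 18 / 10
    · exact key (92 / 100) (87 / 100) 1 (8 / 10) (by norm_num) (by norm_num)
        (by norm_num) (by norm_num) (by linarith) (by linarith) (by norm_num)
    · exact key (124 / 100) (65 / 100) (7 / 10) (114 / 100) (by norm_num) (by norm_num)
        (by norm_num) (by norm_num) (by linarith) (by linarith) (by norm_num)

end

section
variable {N : ℕ} {α : Type} [Fintype α] [DecidableEq α]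

/-- the first `j` positions -/
def pre (N j : ℕ) : Finset (Fin N) := univ.filter (fun l => l.val < j)

/-- the positions from `j` to `k` -/
def mid (N j k : ℕ) : Finset (Fin N) := univ.filter (fun l => j ≤ l.val ∧ l.val < k)

theorem card_mid (j k : ℕ) (hk : k ≤ N) : (mid N j k).card = k - j := by
  have h1 : (mid N j k).map Fin.valEmbedding = Finset.Ico j k := by
    ext i
    simp only [mid, Finset.mem_map, Finset.mem_filter, Finset.mem_univ, true_and,
      Fin.valEmbedding_apply, Finset.mem_Ico]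
    constructor
    · rintro ⟨l, ⟨h1, h2⟩, rfl⟩
      exact ⟨h1, h2⟩
    · rintro ⟨h1, h2⟩
      exact ⟨⟨i, by omega⟩, ⟨h1, h2⟩, rfl⟩
  rw [← Finset.card_map Fin.valEmbedding, h1, Nat.card_Ico]

theorem pre_eq_mid (j : ℕ) : pre N j = mid N 0 j := by
  unfold pre mid
  simp

theorem card_pre (j : ℕ) (hj : j ≤ N) : (pre N j).card = j := by
  rw [pre_eq_mid, card_mid 0 j hj, Nat.sub_zero]

theorem sum_pre_mid (j k : ℕ) (hjk : j ≤ k) (z : Fin N → ℝ) :
    ∑ l ∈ pre N k, z l = ∑ l ∈ pre N j, z l + ∑ l ∈ mid N j k, z l := by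
  rw [← Finset.sum_union]
  · congr 1
    ext l
    simp only [pre, mid, Finset.mem_filter, Finset.mem_univ, true_and, Finset.mem_union]
    omega
  · rw [Finset.disjoint_left]
    intro l hl hl'
    simp only [pre, mid, Finset.mem_filter, Finset.mem_univ, true_and] at hl hl'
    omega

/-- first passage over the level at time `j` -/
def fp (j : ℕ) (z : Fin N → ℝ) : Prop :=
  11 / 10 ≤ ∑ l ∈ pre N j, z l ∧ ∀ i, i < j → ∑ l ∈ pre N i, z l < 11 / 10

theorem fp_local (j : ℕ) (z z' : Fin N → ℝ) (h : ∀ l ∈ pre N j, z l = z' l) : fp j z ↔ fp j z' := by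
  have h1 : ∀ i, i ≤ j → ∑ l ∈ pre N i, z l = ∑ l ∈ pre N i, z' l := by
    intro i hi
    refine Finset.sum_congr rfl fun l hl => h l ?_
    simp only [pre, Finset.mem_filter, Finset.mem_univ, true_and] at hl ⊢
    omega
  unfold fp
  rw [h1 j le_rfl]
  constructor
  · rintro ⟨h2, h3⟩
    exact ⟨h2, fun i hi => by rw [← h1 i hi.le]; exact h3 i hi⟩
  · rintro ⟨h2, h3⟩
    exact ⟨h2, fun i hi => by rw [h1 i hi.le]; exact h3 i hi⟩

theorem fp_range (j : ℕ) (hj : j ≤ N) (z : Fin N → ℝ) (hz : ∀ l, z l ≤ 1) (h : fp j z) :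
    1 ≤ j ∧ ∑ l ∈ pre N j, z l ≤ 21 / 10 := by
  have hj1 : 1 ≤ j := by
    by_contra hcon
    have : j = 0 := by omega
    subst this
    have h1 := h.1
    simp [pre] at h1
    linarith
  refine ⟨hj1, ?_⟩
  have h1 := h.2 (j - 1) (by omega)
  have h2 := sum_pre_mid (N := N) (j - 1) j (by omega) z
  have h3 : ∑ l ∈ mid N (j - 1) j, z l ≤ 1 := by
    calc ∑ l ∈ mid N (j - 1) j, z l ≤ ∑ _l ∈ mid N (j - 1) j, (1 : ℝ) :=
          Finset.sum_le_sum fun l _ => hz l
      _ = 1 := by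
          rw [Finset.sum_const, card_mid _ _ hj, nsmul_eq_mul, mul_one]
          have : j - (j - 1) = 1 := by omega
          rw [this]; norm_num
  linarith

theorem fp_unique (i j : ℕ) (z : Fin N → ℝ) (hi : fp i z) (hj : fp j z) : i = j := by
  rcases lt_trichotomy i j with h | h | h
  · exact absurd hi.1 (not_le.2 (hj.2 i h))
  · exact h
  · exact absurd hj.1 (not_le.2 (hi.2 j h))

theorem fp_exists (k : ℕ) (z : Fin N → ℝ) (h : 11 / 10 ≤ ∑ l ∈ pre N k, z l) :
    ∃ j, j ≤ k ∧ fp j z := by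
  have hex : ∃ j, 11 / 10 ≤ ∑ l ∈ pre N j, z l := ⟨k, h⟩
  refine ⟨Nat.find hex, Nat.find_min' hex h, Nat.find_spec hex, fun i hi => ?_⟩
  exact not_le.1 (Nat.find_min hex hi)

/-- the middle zone indicator -/
noncomputable def mz (s : ℝ) : ℝ := if 0 ≤ s ∧ s ≤ 14 / 5 then 1 else 0

theorem mz_nonneg (s : ℝ) : 0 ≤ mz s := by unfold mz; split_ifs <;> norm_num

theorem fp_step (y : α → ℝ) (hy1 : ∀ a, y a ≤ 1) (hsum : ∑ a, y a = -1)
    (hsq : ∑ a, y a ^ 2 ≤ 5) (hc : Fintype.card α = N) (k : ℕ) (h5 : 5 * k ≤ N + 1)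
    (hN : 100000 ≤ N) (j : ℕ) (hjk : j ≤ k) :
    3 / 100 * (𝔼 e : Fin N ≃ α, (if fp j (fun l => y (e l)) then (1 : ℝ) else 0)) ≤
      𝔼 e : Fin N ≃ α, (if fp j (fun l => y (e l)) then mz (∑ l ∈ pre N k, y (e l)) else 0) := by
  have h1 := cond_avg (Λ := Fin N) (mid N j k) (pre N j) (by
      intro l hl hl'
      simp only [pre, mid, Finset.mem_filter, Finset.mem_univ, true_and] at hl hl'
      omega) y
    (fun z t => if fp j z then mz (∑ l ∈ pre N j, z l + t) else 0) (by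
      intro z z' t hz
      have e1 : ∑ l ∈ pre N j, z l = ∑ l ∈ pre N j, z' l := Finset.sum_congr rfl hz
      have e2 := fp_local j z z' hz
      simp only [e1, e2])
  have h2 : 𝔼 e : Fin N ≃ α, (if fp j (fun l => y (e l)) then mz (∑ l ∈ pre N k, y (e l)) else 0) =
      𝔼 e : Fin N ≃ α, (if fp j (fun l => y (e l)) then
        mz (∑ l ∈ pre N j, y (e l) + ∑ l ∈ mid N j k, y (e l)) else 0) := by
    refine Finset.expect_congr rfl fun e _ => ?_
    rw [sum_pre_mid j k hjk (fun l => y (e l))]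
  rw [h2, h1, Finset.mul_expect]
  refine Finset.expect_le_expect fun e _ => ?_
  by_cases hfp : fp j (fun l => y (e l))
  · simp only [if_pos hfp, mul_one]
    have hr := fp_range j (by omega) (fun l => y (e l)) (fun l => hy1 _) hfp
    have hcs := card_sub' (pre N j)
    rw [card_pre j (by omega), Fintype.card_fin] at hcs
    refine inner_bd ((mid N j k).subtype (fun l => l ∉ pre N j)) (fun p => y (e p.1))
      (∑ l ∈ pre N j, y (e l)) hfp.1 hr.2 ?_ ?_ ?_ ?_
    · rw [sum_sub (pre N j) (fun l => y (e l)), Equiv.sum_comp e y, hsum]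
    · rw [sum_sub (pre N j) (fun l => y (e l) ^ 2), Equiv.sum_comp e (fun a => y a ^ 2)]
      have : 0 ≤ ∑ l ∈ pre N j, y (e l) ^ 2 := Finset.sum_nonneg fun _ _ => sq_nonneg _
      linarith
    · have hcm : ((mid N j k).subtype (fun l => l ∉ pre N j)).card ≤ (mid N j k).card := by
        rw [Finset.card_subtype]
        exact Finset.card_filter_le _ _
      rw [card_mid j k (by omega)] at hcm
      omega
    · omega
  · simp only [if_neg hfp, mul_zero, Finset.expect_const_zero]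
    exact le_rfl

/-- the middle zone is not too rare -/
theorem ott (y : α → ℝ) (hy1 : ∀ a, y a ≤ 1) (hsum : ∑ a, y a = -1)
    (hsq : ∑ a, y a ^ 2 ≤ 5) (hc : Fintype.card α = N) (k : ℕ) (h5 : 5 * k ≤ N + 1)
    (hN : 100000 ≤ N) :
    3 / 100 * (𝔼 e : Fin N ≃ α, (if 14 / 5 < ∑ l ∈ pre N k, y (e l) then (1 : ℝ) else 0)) ≤
      𝔼 e : Fin N ≃ α, mz (∑ l ∈ pre N k, y (e l)) := by
  have h1 : 𝔼 e : Fin N ≃ α, (if 14 / 5 < ∑ l ∈ pre N k, y (e l) then (1 : ℝ) else 0) ≤
      ∑ j ∈ Finset.range (k + 1),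
        𝔼 e : Fin N ≃ α, (if fp j (fun l => y (e l)) then (1 : ℝ) else 0) := by
    rw [← Finset.expect_sum_comm]
    refine Finset.expect_le_expect fun e _ => ?_
    split_ifs with h
    · obtain ⟨j, hj, hfp⟩ := fp_exists k (fun l => y (e l)) (by linarith)
      calc (1 : ℝ) = (if fp j (fun l => y (e l)) then (1 : ℝ) else 0) := by rw [if_pos hfp]
        _ ≤ _ := Finset.single_le_sum (f := fun j =>
            (if fp j (fun l => y (e l)) then (1 : ℝ) else 0))
            (fun j _ => by split_ifs <;> norm_num) (Finset.mem_range.2 (by omega))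
    · exact Finset.sum_nonneg fun j _ => by split_ifs <;> norm_num
  have h2 : ∑ j ∈ Finset.range (k + 1),
      𝔼 e : Fin N ≃ α, (if fp j (fun l => y (e l)) then mz (∑ l ∈ pre N k, y (e l)) else 0) ≤
      𝔼 e : Fin N ≃ α, mz (∑ l ∈ pre N k, y (e l)) := by
    rw [← Finset.expect_sum_comm]
    refine Finset.expect_le_expect fun e _ => ?_
    by_cases hex : ∃ j ∈ Finset.range (k + 1), fp j (fun l => y (e l))
    · obtain ⟨j, hj, hfp⟩ := hex
      rw [Finset.sum_eq_single_of_mem j hj, if_pos hfp]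
      intro i _ hij
      rw [if_neg]
      intro hi
      exact hij (fp_unique i j _ hi hfp)
    · push Not at hex
      rw [Finset.sum_eq_zero fun j hj => by rw [if_neg (hex j hj)]]
      exact mz_nonneg _
  have h3 : 3 / 100 * ∑ j ∈ Finset.range (k + 1),
        𝔼 e : Fin N ≃ α, (if fp j (fun l => y (e l)) then (1 : ℝ) else 0) ≤
      ∑ j ∈ Finset.range (k + 1),
      𝔼 e : Fin N ≃ α, (if fp j (fun l => y (e l)) then mz (∑ l ∈ pre N k, y (e l)) else 0) := by
    rw [Finset.mul_sum]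
    exact Finset.sum_le_sum fun j hj =>
      fp_step y hy1 hsum hsq hc k h5 hN j (by have := Finset.mem_range.1 hj; omega)
  linarith

end

end Pool.Agent.H61.MMS
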