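import Mathlib
import Pool.Agent.H61.MMS.B2

open Finset Classical
open scoped BigOperators

namespace Pool.Agent.H61.MMS

open Pool.Agent.H49.MMS

variable {N : ℕ} {α : Type} [Fintype α] [DecidableEq α]

/-- the fraction of `m`-subsets with sum below `-1` -/
noncomputable def bf {α : Type} [Fintype α] (y : α → ℝ) (m : ℕ) : ℝ :=
  𝔼 S ∈ (univ : Finset α).powersetCard m, (if ∑ a ∈ S, y a < -1 then (1 : ℝ) else 0)

theorem bf_avg {Λ : Type} [Fintype Λ] [DecidableEq Λ] [Nonempty (Λ ≃ α)] (A : Finset Λ)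
    (x : α → ℝ) :
    𝔼 e : Λ ≃ α, (if ∑ l ∈ A, x (e l) < -1 then (1 : ℝ) else 0) = bf x A.card := by
  have h1 := law_set (Λ := Λ) (α := α) A (fun S => if ∑ a ∈ S, x a < -1 then (1 : ℝ) else 0)
  simp only [Finset.sum_map, Equiv.coe_toEmbedding] at h1
  rw [h1]
  unfold bf
  congr

theorem card_subtype_of (A B : Finset (Fin N)) (hAB : ∀ l ∈ A, l ∉ B) :
    (A.subtype (fun l => l ∉ B)).card = A.card := by
  rw [Finset.card_subtype]
  congr 1
  exact Finset.filter_true_of_mem hAB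

/-- lower bound for the joint event -/
theorem joint_low (y : α → ℝ) (hsum : ∑ a, y a = -1) (a k r : ℕ) (ha : 1 ≤ a) (hk : 1 ≤ k)
    (hr1 : 1 ≤ r) (hc : Fintype.card α = N) (hN : N + 1 = 5 * (a * k) + r)
    (hb : 25 * 10 ^ 9 * r ≤ 5 * (a * k) + r) :
    (1 - beta (a * k) r) / (5 * a - 1) * bf y (k - 1) ≤
      𝔼 e : Fin N ≃ α, (if ∑ l ∈ mid N k (2 * k - 1), y (e l) < -1 then
        (if 0 ≤ ∑ l ∈ pre N k, y (e l) then (1 : ℝ) else 0) else 0) := by
  have hne : Nonempty (Fin N ≃ α) := by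
    rw [← Fintype.card_eq, hc, Fintype.card_fin]
  have haR : (1 : ℝ) ≤ a := by exact_mod_cast ha
  have hka : k ≤ a * k := Nat.le_mul_of_pos_left k (by omega)
  have hcm : (mid N k (2 * k - 1)).card = k - 1 := by
    rw [card_mid k (2 * k - 1) (by omega)]; omega
  have hdis : ∀ l ∈ pre N k, l ∉ mid N k (2 * k - 1) := by
    intro l hl hl'
    simp only [pre, mid, Finset.mem_filter, Finset.mem_univ, true_and] at hl hl'
    omega
  have h1 := cond_avg (Λ := Fin N) (pre N k) (mid N k (2 * k - 1)) hdis y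
    (fun z t => if ∑ l ∈ mid N k (2 * k - 1), z l < -1 then (if 0 ≤ t then (1 : ℝ) else 0) else 0)
    (by
      intro z z' t hz
      have e1 : ∑ l ∈ mid N k (2 * k - 1), z l = ∑ l ∈ mid N k (2 * k - 1), z' l :=
        Finset.sum_congr rfl hz
      simp only [e1])
  have h2 := bf_avg (Λ := Fin N) (mid N k (2 * k - 1)) y
  rw [hcm] at h2
  rw [h1, ← h2, Finset.mul_expect]
  refine Finset.expect_le_expect fun e _ => ?_
  by_cases hbad : ∑ l ∈ mid N k (2 * k - 1), y (e l) < -1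
  · simp only [if_pos hbad, mul_one]
    have hcs := card_sub' (mid N k (2 * k - 1))
    rw [hcm, Fintype.card_fin] at hcs
    have hne2 : Nonempty ({l : Fin N // l ∉ mid N k (2 * k - 1)} ≃
      {l : Fin N // l ∉ mid N k (2 * k - 1)}) := ⟨Equiv.refl _⟩
    have h3 := gf_avg (Λ := {l : Fin N // l ∉ mid N k (2 * k - 1)})
      (α := {l : Fin N // l ∉ mid N k (2 * k - 1)})
      ((pre N k).subtype (fun l => l ∉ mid N k (2 * k - 1))) (fun p => y (e p.1))
    rw [card_subtype_of _ _ hdis, card_pre k (by omega)] at h3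
    have h4 : (𝔼 π : Equiv.Perm {l : Fin N // l ∉ mid N k (2 * k - 1)},
        (if 0 ≤ ∑ p ∈ (pre N k).subtype (fun l => l ∉ mid N k (2 * k - 1)), y (e (π p).1)
          then (1 : ℝ) else 0)) = gf (fun p : {l : Fin N // l ∉ mid N k (2 * k - 1)} => y (e p.1)) k := h3
    rw [h4]
    refine lemL a k r ha (by omega) (by omega) hr1 ?_ _ ?_
    · obtain ⟨b, rfl⟩ := Nat.exists_eq_add_of_le ha
      have e2 : 5 * (1 + b) - 1 = 4 + 5 * b := by omega
      rw [e2]
      have e3 : (4 + 5 * b) * k + k = 5 * ((1 + b) * k) := by ring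
      omega
    · rw [sum_sub (mid N k (2 * k - 1)) (fun l => y (e l)), Equiv.sum_comp e y, hsum]
      linarith
  · simp only [if_neg hbad, mul_zero, Finset.expect_const_zero]
    exact le_rfl

/-- upper bound for the joint event with the good set in the middle zone -/
theorem joint_mid (y : α → ℝ) (hsum : ∑ a, y a = -1) (hsq : ∑ a, y a ^ 2 ≤ 5) (k : ℕ)
    (hk : 1 ≤ k) (hc : Fintype.card α = N) (h5 : 5 * k ≤ N + 1) (hN : 100000 ≤ N) :
    𝔼 e : Fin N ≃ α, mz (∑ l ∈ pre N k, y (e l)) *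
        (if ∑ l ∈ mid N k (2 * k - 1), y (e l) < -1 then (1 : ℝ) else 0) ≤
      9974 / 10000 * 𝔼 e : Fin N ≃ α, mz (∑ l ∈ pre N k, y (e l)) := by
  have hcm : (mid N k (2 * k - 1)).card = k - 1 := by
    rw [card_mid k (2 * k - 1) (by omega)]; omega
  have hdis : ∀ l ∈ mid N k (2 * k - 1), l ∉ pre N k := by
    intro l hl hl'
    simp only [pre, mid, Finset.mem_filter, Finset.mem_univ, true_and] at hl hl'
    omega
  have h1 := cond_avg (Λ := Fin N) (mid N k (2 * k - 1)) (pre N k) hdis y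
    (fun z t => mz (∑ l ∈ pre N k, z l) * (if t < -1 then (1 : ℝ) else 0))
    (by
      intro z z' t hz
      have e1 : ∑ l ∈ pre N k, z l = ∑ l ∈ pre N k, z' l := Finset.sum_congr rfl hz
      simp only [e1])
  rw [h1, Finset.mul_expect]
  refine Finset.expect_le_expect fun e _ => ?_
  rw [← Finset.mul_expect, mul_comm (9974 / 10000 : ℝ)]
  by_cases hz : 0 ≤ ∑ l ∈ pre N k, y (e l) ∧ ∑ l ∈ pre N k, y (e l) ≤ 14 / 5
  · refine mul_le_mul_of_nonneg_left ?_ (mz_nonneg _)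
    have hcs := card_sub' (pre N k)
    rw [card_pre k (by omega), Fintype.card_fin] at hcs
    have hne2 : Nonempty ({l : Fin N // l ∉ pre N k} ≃ {l : Fin N // l ∉ pre N k}) :=
      ⟨Equiv.refl _⟩
    have hcA : ((mid N k (2 * k - 1)).subtype (fun l => l ∉ pre N k)).card = k - 1 := by
      rw [card_subtype_of _ _ hdis, hcm]
    have hws : ∑ p : {l : Fin N // l ∉ pre N k}, y (e p.1) = -1 - ∑ l ∈ pre N k, y (e l) := by
      rw [sum_sub (pre N k) (fun l => y (e l)), Equiv.sum_comp e y, hsum]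
    have hwq : ∑ p : {l : Fin N // l ∉ pre N k}, y (e p.1) ^ 2 ≤ 5 := by
      rw [sum_sub (pre N k) (fun l => y (e l) ^ 2), Equiv.sum_comp e (fun a => y a ^ 2)]
      have : 0 ≤ ∑ l ∈ pre N k, y (e l) ^ 2 := Finset.sum_nonneg fun _ _ => sq_nonneg _
      linarith
    obtain ⟨n, hn'⟩ : ∃ n : ℝ, n = (Fintype.card {l : Fin N // l ∉ pre N k} : ℝ) := ⟨_, rfl⟩
    obtain ⟨m, hm'⟩ : ∃ m : ℝ, m = ((k - 1 : ℕ) : ℝ) := ⟨_, rfl⟩
    have hm0 : 0 ≤ m := by rw [hm']; exact Nat.cast_nonneg _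
    have h4m : 4 * m ≤ n := by
      rw [hn', hm']
      have : 4 * (k - 1) ≤ Fintype.card {l : Fin N // l ∉ pre N k} := by omega
      exact_mod_cast this
    have hnb : (20000 : ℝ) ≤ n := by
      rw [hn']
      have : 20000 ≤ Fintype.card {l : Fin N // l ∉ pre N k} := by omega
      exact_mod_cast this
    have hV : (((k - 1 : ℕ) : ℝ) * ((Fintype.card {l : Fin N // l ∉ pre N k} : ℝ) -
        ((k - 1 : ℕ) : ℝ))) /
        ((Fintype.card {l : Fin N // l ∉ pre N k} : ℝ) *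
        ((Fintype.card {l : Fin N // l ∉ pre N k} : ℝ) - 1)) *
        ∑ p : {l : Fin N // l ∉ pre N k}, y (e p.1) ^ 2 ≤ 9376 / 10000 := by
      rw [← hn', ← hm']
      have h1 := coef4 m n hm0 h4m hnb
      have h2 : 0 ≤ ∑ p : {l : Fin N // l ∉ pre N k}, y (e p.1) ^ 2 :=
        Finset.sum_nonneg fun _ _ => sq_nonneg _
      have h3 := mul_le_mul h1 hwq h2 (by norm_num)
      linarith
    have hcant := cant_lo (Λ := {l : Fin N // l ∉ pre N k}) (α := {l : Fin N // l ∉ pre N k})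
      ((mid N k (2 * k - 1)).subtype (fun l => l ∉ pre N k)) (fun p => y (e p.1)) (by omega)
      (9376 / 10000) (1 / 20) (75 / 4) (-1) (by rw [hcA]; omega) (by rw [hcA]; exact hV)
      (by norm_num) (by norm_num) (by
        rw [hcA, hws, ← hn', ← hm', ← mul_div_assoc, le_div_iff₀ (by linarith)]
        nlinarith [hz.1, hz.2])
    have hle : 𝔼 π : Equiv.Perm {l : Fin N // l ∉ pre N k},
        (if ∑ p ∈ (mid N k (2 * k - 1)).subtype (fun l => l ∉ pre N k), y (e (π p).1) < -1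
          then (1 : ℝ) else 0) ≤ 𝔼 π : Equiv.Perm {l : Fin N // l ∉ pre N k},
        (if ∑ p ∈ (mid N k (2 * k - 1)).subtype (fun l => l ∉ pre N k), y (e (π p).1) ≤ -1
          then (1 : ℝ) else 0) := by
      refine Finset.expect_le_expect fun π _ => ?_
      split_ifs with g1 g2 g2
      · exact le_rfl
      · exact absurd g1.le g2
      · norm_num
      · exact le_rfl
    refine hle.trans (hcant.trans ?_)
    norm_num
  · have : mz (∑ l ∈ pre N k, y (e l)) = 0 := by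
      unfold mz
      rw [if_neg hz]
    rw [this, zero_mul, zero_mul]

/-- the comparison of bad sets with the largest element and good sets without it -/
theorem caseB_core (y : α → ℝ) (hy1 : ∀ i, y i ≤ 1) (hsum : ∑ i, y i = -1)
    (hsq : ∑ i, y i ^ 2 ≤ 5) (a k r : ℕ) (ha : 1 ≤ a) (hk : 1 ≤ k)
    (hr1 : 1 ≤ r) (hc : Fintype.card α + 1 = 5 * (a * k) + r)
    (hb : 25 * 10 ^ 9 * r ≤ 5 * (a * k) + r) :
    bf y (k - 1) ≤ (5 * a - 1) * gf y k := by
  obtain ⟨N, hN⟩ : ∃ N, N = Fintype.card α := ⟨_, rfl⟩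
  have haR : (1 : ℝ) ≤ a := by exact_mod_cast ha
  have hka : k ≤ a * k := Nat.le_mul_of_pos_left k (by omega)
  have hne : Nonempty (Fin N ≃ α) := by
    rw [← Fintype.card_eq, hN, Fintype.card_fin]
  have hlow := joint_low (N := N) y hsum a k r ha hk hr1 hN.symm (by omega) hb
  have hmid := joint_mid (N := N) y hsum hsq k hk hN.symm (by omega) (by omega)
  have hott := ott (N := N) y hy1 hsum hsq hN.symm k (by omega) (by omega)
  have hβ := beta_small (a * k) r hr1 hb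
  have hg := gf_avg (Λ := Fin N) (α := α) (pre N k) y
  rw [card_pre k (by omega)] at hg
  have hsplit : gf y k = 𝔼 e : Fin N ≃ α, mz (∑ l ∈ pre N k, y (e l)) +
      𝔼 e : Fin N ≃ α, (if 14 / 5 < ∑ l ∈ pre N k, y (e l) then (1 : ℝ) else 0) := by
    rw [← hg, ← Finset.expect_add_distrib]
    refine Finset.expect_congr rfl fun e _ => ?_
    set s := ∑ l ∈ pre N k, y (e l)
    unfold mz
    by_cases h1 : 0 ≤ s
    · by_cases h2 : s ≤ 14 / 5
      · rw [if_pos h1, if_pos ⟨h1, h2⟩, if_neg (not_lt.2 h2)]; norm_num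
      · rw [if_pos h1, if_neg (fun h => h2 h.2), if_pos (not_le.1 h2)]; norm_num
    · rw [if_neg h1, if_neg (fun h => h1 h.1), if_neg (by intro h; linarith)]; norm_num
  have hupper : 𝔼 e : Fin N ≃ α, (if ∑ l ∈ mid N k (2 * k - 1), y (e l) < -1 then
        (if 0 ≤ ∑ l ∈ pre N k, y (e l) then (1 : ℝ) else 0) else 0) ≤
      𝔼 e : Fin N ≃ α, mz (∑ l ∈ pre N k, y (e l)) *
        (if ∑ l ∈ mid N k (2 * k - 1), y (e l) < -1 then (1 : ℝ) else 0) +
      𝔼 e : Fin N ≃ α, (if 14 / 5 < ∑ l ∈ pre N k, y (e l) then (1 : ℝ) else 0) := by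
    rw [← Finset.expect_add_distrib]
    refine Finset.expect_le_expect fun e _ => ?_
    set s := ∑ l ∈ pre N k, y (e l)
    have hm0 := mz_nonneg s
    have hnn : 0 ≤ (if 14 / 5 < s then (1 : ℝ) else 0) := by split_ifs <;> norm_num
    split_ifs with h1 h2 h3 h3
    · linarith
    · have : mz s = 1 := by
        unfold mz
        rw [if_pos ⟨h2, not_lt.1 h3⟩]
      rw [this]; norm_num
    · linarith
    · linarith
    · norm_num
    · norm_num
  set q1 := 𝔼 e : Fin N ≃ α, mz (∑ l ∈ pre N k, y (e l)) with hq1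
  set q2 := 𝔼 e : Fin N ≃ α, (if 14 / 5 < ∑ l ∈ pre N k, y (e l) then (1 : ℝ) else 0) with hq2
  have hq10 : 0 ≤ q1 := Finset.expect_nonneg fun e _ => mz_nonneg _
  have hq20 : 0 ≤ q2 := Finset.expect_nonneg fun e _ => by split_ifs <;> norm_num
  have hchain : (1 - beta (a * k) r) / (5 * a - 1) * bf y (k - 1) ≤ 9974 / 10000 * q1 + q2 := by
    linarith
  have h5a : (0 : ℝ) < 5 * a - 1 := by linarith
  have hbf0 : 0 ≤ bf y (k - 1) := by
    unfold bf
    exact Finset.expect_nonneg fun S _ => by split_ifs <;> norm_num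
  rw [hsplit]
  have h1 : (1 - 3 / 10 ^ 6) * bf y (k - 1) ≤ (5 * a - 1) * (9974 / 10000 * q1 + q2) := by
    have e1 : (1 - beta (a * k) r) / (5 * a - 1) * bf y (k - 1) * (5 * a - 1) =
        (1 - beta (a * k) r) * bf y (k - 1) := by
      field_simp
    have h2 := mul_le_mul_of_nonneg_right hchain h5a.le
    rw [e1] at h2
    have h3 : (1 - 3 / 10 ^ 6) * bf y (k - 1) ≤ (1 - beta (a * k) r) * bf y (k - 1) :=
      mul_le_mul_of_nonneg_right (by linarith) hbf0
    linarith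
  have h2 : 9974 / 10000 * q1 + q2 ≤ (1 - 3 / 10 ^ 6) * (q1 + q2) := by
    norm_num
    linarith
  have h3 := mul_le_mul_of_nonneg_left h2 h5a.le
  have h4 : (1 - 3 / 10 ^ 6) * bf y (k - 1) ≤ (1 - 3 / 10 ^ 6) * ((5 * a - 1) * (q1 + q2)) := by
    have e1 : (5 * (a : ℝ) - 1) * ((1 - 3 / 10 ^ 6) * (q1 + q2)) =
        (1 - 3 / 10 ^ 6) * ((5 * a - 1) * (q1 + q2)) := by ring
    rw [← e1]
    exact h1.trans h3
  exact le_of_mul_le_mul_left h4 (by norm_num)

end Pool.Agent.H61.MMS
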