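import Mathlib
import Pool.Agent.H61.MMS.B3

open Finset Classical
open scoped BigOperators

namespace Pool.Agent.H61.MMS

open Pool.Agent.H49.MMS

section
variable {α : Type} [Fintype α] [DecidableEq α]

/-- the number of `k`-subsets of `M` with nonnegative sum, shifted by `z` -/
noncomputable def gc (x : α → ℝ) (M : Finset α) (k : ℕ) (z : ℝ) : ℝ :=
  ∑ S ∈ M.powersetCard k, (if 0 ≤ z + ∑ a ∈ S, x a then (1 : ℝ) else 0)

theorem gf_gc (x : α → ℝ) (k : ℕ) :
    gf x k * ((Fintype.card α).choose k : ℝ) = gc x univ k 0 := by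
  unfold gf gc
  simp only [zero_add]
  rcases Nat.eq_zero_or_pos ((Fintype.card α).choose k) with h | h
  · have hp : (univ : Finset α).powersetCard k = ∅ := by
      rw [← Finset.card_eq_zero, Finset.card_powersetCard, Finset.card_univ]
      exact h
    rw [hp, h]
    simp
  · rw [Finset.expect_eq_sum_div_card, Finset.card_powersetCard, Finset.card_univ]
    have : ((Fintype.card α).choose k : ℝ) ≠ 0 := by
      have : (0 : ℝ) < (Fintype.card α).choose k := by exact_mod_cast h
      exact this.ne'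
    exact div_mul_cancel₀ _ this

theorem gc_insert (x : α → ℝ) (M : Finset α) (m : ℕ) (z : ℝ) (a : α) (ha : a ∉ M) :
    gc x (insert a M) (m + 1) z = gc x M (m + 1) z + gc x M m (z + x a) := by
  unfold gc
  rw [Finset.powersetCard_succ_insert ha, Finset.sum_union, Finset.sum_image]
  · congr 1
    refine Finset.sum_congr rfl fun S hS => ?_
    have haS : a ∉ S := fun h => ha ((Finset.mem_powersetCard.1 hS).1 h)
    rw [Finset.sum_insert haS, add_assoc]
  · intro S hS T hT h
    have haS : a ∉ S := fun h => ha ((Finset.mem_powersetCard.1 hS).1 h)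
    have haT : a ∉ T := fun h => ha ((Finset.mem_powersetCard.1 hT).1 h)
    rw [← Finset.erase_insert haS, ← Finset.erase_insert haT, h]
  · rw [Finset.disjoint_left]
    intro S hS hS'
    obtain ⟨T, hT, rfl⟩ := Finset.mem_image.1 hS'
    exact ha ((Finset.mem_powersetCard.1 hS).1 (Finset.mem_insert_self _ _))

/-- Case B: a dominating element -/
theorem caseB_one (x : α → ℝ) (o : α) (ho : x o = 1) (hmax : ∀ i, x i ≤ 1)
    (hsum : ∑ i, x i = 0) (hsq : ∑ i, x i ^ 2 ≤ 6) (a k r : ℕ) (ha : 1 ≤ a) (hk : 1 ≤ k)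
    (hr1 : 1 ≤ r) (hc : Fintype.card α = 5 * (a * k) + r)
    (hb : 25 * 10 ^ 9 * r ≤ 5 * (a * k) + r) :
    (k : ℝ) / Fintype.card α ≤ gf x k := by
  have haR : (1 : ℝ) ≤ a := by exact_mod_cast ha
  have hkR : (1 : ℝ) ≤ k := by exact_mod_cast hk
  have hka : k ≤ a * k := Nat.le_mul_of_pos_left k (by omega)
  obtain ⟨j, rfl⟩ : ∃ j, k = j + 1 := ⟨k - 1, by omega⟩
  set M : Finset α := univ.erase o with hM
  have hoM : o ∉ M := Finset.notMem_erase _ _
  have huniv : (univ : Finset α) = insert o M := by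
    rw [hM, Finset.insert_erase (Finset.mem_univ o)]
  have hMc : M.card = Fintype.card α - 1 := by
    rw [hM, Finset.card_erase_of_mem (Finset.mem_univ o), Finset.card_univ]
  obtain ⟨n, hn⟩ : ∃ n, Fintype.card α = n + 1 := ⟨Fintype.card α - 1, by omega⟩
  have hMn : M.card = n := by rw [hMc, hn]; rfl
  set y : M → ℝ := fun p => x p.1 with hy
  have hys : ∑ p, y p = -1 := by
    have h1 : ∑ p, y p = ∑ i ∈ M, x i := Finset.sum_coe_sort M x
    have h2 := Finset.add_sum_erase univ x (Finset.mem_univ o)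
    rw [← hM, hsum, ho] at h2
    rw [h1]; linarith
  have hyq : ∑ p, y p ^ 2 ≤ 5 := by
    have h1 : ∑ p, y p ^ 2 = ∑ i ∈ M, x i ^ 2 := Finset.sum_coe_sort M (fun i => x i ^ 2)
    have h2 := Finset.add_sum_erase univ (fun i => x i ^ 2) (Finset.mem_univ o)
    rw [← hM, ho] at h2
    rw [h1]; linarith
  have hcore := caseB_core y (fun p => hmax p.1) hys hyq a (j + 1) r ha hk hr1
    (by rw [Fintype.card_coe, hMn, ← hn, hc]) hb
  rw [Nat.add_sub_cancel] at hcore
  -- the counting identity
  have hG : gf x (j + 1) * ((n + 1).choose (j + 1) : ℝ) =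
      gf y (j + 1) * (n.choose (j + 1) : ℝ) + (1 - bf y j) * (n.choose j : ℝ) := by
    have h1 := gf_gc x (j + 1)
    rw [hn, huniv, gc_insert x M j 0 o hoM, ho] at h1
    rw [h1]
    congr 1
    · have h2 := gf_gc y (j + 1)
      rw [Fintype.card_coe, hMn] at h2
      rw [h2]
      unfold gc
      rw [sum_powersetCard_subtype]
      refine Finset.sum_congr rfl fun S _ => ?_
      rw [Finset.sum_map]
      rfl
    · unfold gc bf
      rw [sum_powersetCard_subtype, Finset.expect_eq_sum_div_card, Finset.card_powersetCard,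
        Finset.card_univ, Fintype.card_coe, hMn]
      have hpos : (0 : ℝ) < (n.choose j : ℝ) := by
        have : 0 < n.choose j := Nat.choose_pos (by omega)
        exact_mod_cast this
      have h3 : (1 - (∑ S ∈ (univ : Finset M).powersetCard j,
          (if ∑ p ∈ S, y p < -1 then (1 : ℝ) else 0)) / (n.choose j : ℝ)) * (n.choose j : ℝ) =
          (n.choose j : ℝ) - ∑ S ∈ (univ : Finset M).powersetCard j,
          (if ∑ p ∈ S, y p < -1 then (1 : ℝ) else 0) := by
        field_simp
      rw [h3]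
      have h4 : (n.choose j : ℝ) = ∑ S ∈ (univ : Finset M).powersetCard j, (1 : ℝ) := by
        rw [Finset.sum_const, Finset.card_powersetCard, Finset.card_univ, Fintype.card_coe, hMn,
          nsmul_eq_mul, mul_one]
      rw [h4, ← Finset.sum_sub_distrib]
      refine Finset.sum_congr rfl fun S _ => ?_
      rw [Finset.sum_map]
      have h5 : ∑ p ∈ S, x ((Function.Embedding.subtype fun i => i ∈ M) p) = ∑ p ∈ S, y p := rfl
      rw [h5]
      by_cases h6 : ∑ p ∈ S, y p < -1
      · rw [if_pos h6, if_neg (by linarith)]; norm_num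
      · rw [if_neg h6, if_pos (by linarith [not_lt.1 h6])]; norm_num
  -- binomial identities
  have hb1 : ((n + 1).choose (j + 1) : ℝ) * (j + 1) = (n + 1) * (n.choose j : ℝ) := by
    have := Nat.add_one_mul_choose_eq n j
    have h2 : ((n + 1) * n.choose j : ℕ) = (n + 1).choose (j + 1) * (j + 1) := this
    have h3 : (((n + 1) * n.choose j : ℕ) : ℝ) = (((n + 1).choose (j + 1) * (j + 1) : ℕ) : ℝ) := by
      rw [h2]
    push_cast at h3
    linarith
  have hjn : j + 1 ≤ n := by omega
  have hb2 : ((n.choose (j + 1) : ℕ) : ℝ) * (j + 1) = (n.choose j : ℝ) * (n - j) := by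
    have h2 : n.choose (j + 1) * (j + 1) = n.choose j * (n - j) := Nat.choose_succ_right_eq n j
    have h3 : ((n.choose (j + 1) * (j + 1) : ℕ) : ℝ) = ((n.choose j * (n - j) : ℕ) : ℝ) := by
      rw [h2]
    rw [Nat.cast_mul, Nat.cast_mul, Nat.cast_sub (by omega)] at h3
    push_cast at h3
    exact h3
  have hpos : (0 : ℝ) < (n.choose j : ℝ) := by
    have : 0 < n.choose j := Nat.choose_pos (by omega)
    exact_mod_cast this
  have hj0 : (0 : ℝ) < (j : ℝ) + 1 := by positivity
  have hn0 : (0 : ℝ) < (n : ℝ) + 1 := by positivity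
  have hgf0 := gf_nonneg y (j + 1)
  -- (5a-1)(j+1) ≤ n - j
  have hratio : (5 * (a : ℝ) - 1) * (j + 1) ≤ n - j := by
    have h1 : n + 1 = 5 * (a * (j + 1)) + r := by rw [← hn]; exact hc
    have h2 : ((n : ℝ) + 1) = 5 * (a * (j + 1)) + r := by exact_mod_cast h1
    have h3 : (0 : ℝ) ≤ r := by positivity
    linarith
  have hkey : (n.choose j : ℝ) ≤ gf x (j + 1) * ((n + 1).choose (j + 1) : ℝ) := by
    rw [hG]
    have h1 : bf y j * (n.choose j : ℝ) ≤ gf y (j + 1) * (n.choose (j + 1) : ℝ) := by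
      have h2 : bf y j * (n.choose j : ℝ) * (j + 1) ≤
          gf y (j + 1) * (n.choose (j + 1) : ℝ) * (j + 1) := by
        have e1 : gf y (j + 1) * (n.choose (j + 1) : ℝ) * (j + 1) =
            gf y (j + 1) * ((n.choose j : ℝ) * (n - j)) := by rw [← hb2]; ring
        rw [e1]
        calc bf y j * (n.choose j : ℝ) * (j + 1)
            ≤ ((5 * a - 1) * gf y (j + 1)) * (n.choose j : ℝ) * (j + 1) := by
              refine mul_le_mul_of_nonneg_right ?_ hj0.le
              exact mul_le_mul_of_nonneg_right hcore hpos.le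
          _ = gf y (j + 1) * (n.choose j : ℝ) * ((5 * (a : ℝ) - 1) * (j + 1)) := by ring
          _ ≤ gf y (j + 1) * (n.choose j : ℝ) * (n - j) :=
              mul_le_mul_of_nonneg_left hratio (mul_nonneg hgf0 hpos.le)
          _ = _ := by ring
      exact le_of_mul_le_mul_right h2 hj0
    linarith
  rw [hn]
  push_cast
  rw [div_le_iff₀ hn0]
  have h1 : (n.choose j : ℝ) * (j + 1) ≤ gf x (j + 1) * (n + 1) * (n.choose j : ℝ) := by
    have h2 := mul_le_mul_of_nonneg_right hkey hj0.le
    have e1 : gf x (j + 1) * ((n + 1).choose (j + 1) : ℝ) * (j + 1) =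
        gf x (j + 1) * (n + 1) * (n.choose j : ℝ) := by
      rw [mul_assoc, hb1]; ring
    rw [e1] at h2
    exact h2
  have h3 : (n.choose j : ℝ) * (j + 1) ≤ (n.choose j : ℝ) * (gf x (j + 1) * (n + 1)) := by
    linarith
  exact le_of_mul_le_mul_left h3 hpos

/-- the bound for sizes `5ak + r` -/
theorem core (a k r : ℕ) (ha : 1 ≤ a) (hk : 1 ≤ k)
    (hc : Fintype.card α = 5 * (a * k) + r) (hb : 25 * 10 ^ 9 * r ≤ 5 * (a * k) + r)
    (x : α → ℝ) (hx : ∑ i, x i = 0) : (k : ℝ) / Fintype.card α ≤ gf x k := by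
  have haR : (1 : ℝ) ≤ a := by exact_mod_cast ha
  have hkR : (1 : ℝ) ≤ k := by exact_mod_cast hk
  have hka : k ≤ a * k := Nat.le_mul_of_pos_left k (by omega)
  have hcR : (Fintype.card α : ℝ) = 5 * (a * k) + r := by rw [hc]; push_cast; ring
  have hle : (k : ℝ) / Fintype.card α ≤ 1 / (5 * a) := by
    have hr0 : (0 : ℝ) ≤ r := Nat.cast_nonneg _
    have hak : (0 : ℝ) < a * k := by positivity
    rw [hcR, div_le_div_iff₀ (by linarith) (by linarith)]
    nlinarith
  rcases Nat.eq_zero_or_pos r with hr | hr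
  · subst hr
    have := gf_mul (5 * a) k (by omega) (by rw [hc]; ring) x (by rw [hx])
    push_cast at this
    exact hle.trans this
  · by_cases hbig : ∀ i, 0 < x i → 6 * x i ^ 2 ≤ ∑ j, x j ^ 2
    · exact hle.trans (caseA a k r ha hr hc hb x hx hbig)
    · push Not at hbig
      obtain ⟨i, hi, hi2⟩ := hbig
      have hne : (univ : Finset α).Nonempty := ⟨i, Finset.mem_univ i⟩
      obtain ⟨o, _, ho⟩ := Finset.exists_max_image univ x hne
      have hio : x i ≤ x o := ho i (Finset.mem_univ i)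
      have ho0 : 0 < x o := lt_of_lt_of_le hi hio
      have hc0 : 0 < (x o)⁻¹ := inv_pos.2 ho0
      rw [← gf_scale x (x o)⁻¹ hc0 k]
      refine caseB_one (fun j => (x o)⁻¹ * x j) o ?_ ?_ ?_ ?_ a k r ha hk hr hc hb
      · exact inv_mul_cancel₀ ho0.ne'
      · intro j
        have := ho j (Finset.mem_univ j)
        rw [inv_mul_le_iff₀ ho0, mul_one]
        exact this
      · rw [← Finset.mul_sum, hx, mul_zero]
      · have e1 : ∀ j, ((x o)⁻¹ * x j) ^ 2 = ((x o) ^ 2)⁻¹ * x j ^ 2 := by
          intro j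
          rw [mul_pow, inv_pow]
        rw [Finset.sum_congr rfl fun j _ => e1 j, ← Finset.mul_sum,
          inv_mul_le_iff₀ (by positivity)]
        have : x i ^ 2 ≤ x o ^ 2 := by nlinarith
        linarith

end

/-- the statement that every nonnegative total has at least the fraction `k/n` of nonnegative
`k`-sums -/
def Good (n k : ℕ) : Prop := ∀ (α : Type) [Fintype α] [DecidableEq α] (x : α → ℝ),
  Fintype.card α = n → 0 ≤ ∑ i, x i → (k : ℝ) / n ≤ gf x k

theorem gf_le_of_le {α : Type} [Fintype α] (x y : α → ℝ) (h : ∀ i, x i ≤ y i) (k : ℕ) :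
    gf x k ≤ gf y k := by
  unfold gf
  refine Finset.expect_le_expect fun S _ => ?_
  have h1 : ∑ a ∈ S, x a ≤ ∑ a ∈ S, y a := Finset.sum_le_sum fun i _ => h i
  split_ifs with h2 h3 h3
  · exact le_rfl
  · exact absurd (h2.trans h1) h3
  · norm_num
  · exact le_rfl

theorem good_base (a k r : ℕ) (ha : 1 ≤ a) (hk : 1 ≤ k)
    (hb : 25 * 10 ^ 9 * r ≤ 5 * (a * k) + r) : Good (5 * (a * k) + r) k := by
  intro α _ _ x hc hx
  have hka : k ≤ a * k := Nat.le_mul_of_pos_left k (by omega)
  have hn0 : (0 : ℝ) < Fintype.card α := by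
    have : 0 < Fintype.card α := by omega
    exact_mod_cast this
  obtain ⟨m, hm⟩ : ∃ m : ℝ, m = (∑ i, x i) / Fintype.card α := ⟨_, rfl⟩
  have hm0 : 0 ≤ m := by rw [hm]; exact div_nonneg hx hn0.le
  have hsum : ∑ i, (x i - m) = 0 := by
    rw [Finset.sum_sub_distrib, Finset.sum_const, Finset.card_univ, nsmul_eq_mul, hm]
    field_simp
    ring
  have h1 := core a k r ha hk hc hb (fun i => x i - m) hsum
  rw [← hc]
  exact h1.trans (gf_le_of_le _ _ (fun i => by linarith) k)

theorem good_step (n k : ℕ) (hk : 1 ≤ k) (hkn : k ≤ n) (h : Good n k) : Good (n + k) k := by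
  intro α _ _ x hc hx
  have hne : Nonempty (Fin (n + k) ≃ α) := by
    rw [← Fintype.card_eq, hc, Fintype.card_fin]
  have hkR : (1 : ℝ) ≤ k := by exact_mod_cast hk
  have hknR : (k : ℝ) ≤ n := by exact_mod_cast hkn
  have hcm : (mid (n + k) k (2 * k)).card = k := by
    rw [card_mid k (2 * k) (by omega)]; omega
  have hdis : ∀ l ∈ pre (n + k) k, l ∉ mid (n + k) k (2 * k) := by
    intro l hl hl'
    simp only [pre, mid, Finset.mem_filter, Finset.mem_univ, true_and] at hl hl'
    omega
  have h1 := cond_avg (Λ := Fin (n + k)) (pre (n + k) k) (mid (n + k) k (2 * k)) hdis x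
    (fun z t => if 0 ≤ ∑ l ∈ mid (n + k) k (2 * k), z l then (0 : ℝ) else
      (if 0 ≤ t then (1 : ℝ) else 0))
    (by
      intro z z' t hz
      have e1 : ∑ l ∈ mid (n + k) k (2 * k), z l = ∑ l ∈ mid (n + k) k (2 * k), z' l :=
        Finset.sum_congr rfl hz
      simp only [e1])
  have h2 := gf_avg (Λ := Fin (n + k)) (mid (n + k) k (2 * k)) x
  rw [hcm] at h2
  have h3 := gf_avg (Λ := Fin (n + k)) (pre (n + k) k) x
  rw [card_pre k (by omega)] at h3
  have hlow : (1 - gf x k) * ((k : ℝ) / n) ≤ 𝔼 e : Fin (n + k) ≃ α,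
      (if 0 ≤ ∑ l ∈ mid (n + k) k (2 * k), x (e l) then (0 : ℝ) else
      (if 0 ≤ ∑ l ∈ pre (n + k) k, x (e l) then (1 : ℝ) else 0)) := by
    rw [h1]
    have e1 : (1 - gf x k) * ((k : ℝ) / n) = 𝔼 e : Fin (n + k) ≃ α,
        (1 - (if 0 ≤ ∑ l ∈ mid (n + k) k (2 * k), x (e l) then (1 : ℝ) else 0)) *
          ((k : ℝ) / n) := by
      rw [← Finset.expect_mul, Finset.expect_sub_distrib, Fintype.expect_const, h2]
    rw [e1]
    refine Finset.expect_le_expect fun e _ => ?_
    by_cases hg : 0 ≤ ∑ l ∈ mid (n + k) k (2 * k), x (e l)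
    · simp only [if_pos hg, sub_self, zero_mul, Finset.expect_const_zero]
      exact le_rfl
    · simp only [if_neg hg, sub_zero, one_mul]
      have hcs := card_sub' (mid (n + k) k (2 * k))
      rw [hcm, Fintype.card_fin] at hcs
      have hne2 : Nonempty ({l : Fin (n + k) // l ∉ mid (n + k) k (2 * k)} ≃
        {l : Fin (n + k) // l ∉ mid (n + k) k (2 * k)}) := ⟨Equiv.refl _⟩
      have h4 := gf_avg (Λ := {l : Fin (n + k) // l ∉ mid (n + k) k (2 * k)})
        (α := {l : Fin (n + k) // l ∉ mid (n + k) k (2 * k)})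
        ((pre (n + k) k).subtype (fun l => l ∉ mid (n + k) k (2 * k))) (fun p => x (e p.1))
      rw [card_subtype_of _ _ hdis, card_pre k (by omega)] at h4
      have h5 : (𝔼 π : Equiv.Perm {l : Fin (n + k) // l ∉ mid (n + k) k (2 * k)},
          (if 0 ≤ ∑ p ∈ (pre (n + k) k).subtype (fun l => l ∉ mid (n + k) k (2 * k)),
            x (e (π p).1) then (1 : ℝ) else 0)) =
          gf (fun p : {l : Fin (n + k) // l ∉ mid (n + k) k (2 * k)} => x (e p.1)) k := h4
      rw [h5]
      refine h _ _ (by omega) ?_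
      rw [sum_sub (mid (n + k) k (2 * k)) (fun l => x (e l)), Equiv.sum_comp e x]
      linarith [not_le.1 hg]
  have hup : 𝔼 e : Fin (n + k) ≃ α,
      (if 0 ≤ ∑ l ∈ mid (n + k) k (2 * k), x (e l) then (0 : ℝ) else
      (if 0 ≤ ∑ l ∈ pre (n + k) k, x (e l) then (1 : ℝ) else 0)) ≤ gf x k := by
    rw [← h3]
    refine Finset.expect_le_expect fun e _ => ?_
    split_ifs <;> norm_num
  have h6 := hlow.trans hup
  have hn0 : (0 : ℝ) < n := by linarith
  have e1 : (1 - gf x k) * ((k : ℝ) / n) * n = (1 - gf x k) * k := by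
    field_simp
  have h7 := mul_le_mul_of_nonneg_right h6 hn0.le
  rw [e1] at h7
  push_cast
  rw [div_le_iff₀ (by linarith)]
  linarith

theorem good_iter (n k : ℕ) (hk : 1 ≤ k) (hkn : k ≤ n) (h : Good n k) (b : ℕ) :
    Good (n + b * k) k := by
  induction b with
  | zero => simpa using h
  | succ b ih =>
    have := good_step (n + b * k) k hk (by omega) ih
    have e : n + (b + 1) * k = n + b * k + k := by ring
    rw [e]
    exact this

/-- the fraction bound near multiples -/
theorem good_all (n k : ℕ) (hk : 1 ≤ k) (h5 : 5 * k ≤ n) (hr : 10 ^ 11 * (n % k) ≤ n) :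
    Good n k := by
  set r := n % k with hrdef
  set q := n / k with hqdef
  have hq : 5 ≤ q := by
    rw [hqdef, Nat.le_div_iff_mul_le (by omega)]
    exact h5
  set a := q / 5 with hadef
  have ha : 1 ≤ a := by omega
  set b := q % 5 with hbdef
  have hqab : q = 5 * a + b := by omega
  have hn : n = 5 * (a * k) + r + b * k := by
    have h1 : k * q + r = n := Nat.div_add_mod n k
    rw [hqab] at h1
    rw [← h1]
    ring
  have hka : k ≤ a * k := Nat.le_mul_of_pos_left k (by omega)
  have hbk : b * k ≤ 4 * k := Nat.mul_le_mul_right k (by omega)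
  rw [hn]
  refine good_iter (5 * (a * k) + r) k hk (by omega) (good_base a k r ha hk ?_) b
  omega

end Pool.Agent.H61.MMS
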