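import Mathlib
import Pool.Agent.H61.MMS.C1
import Pool.Agent.H49.MMS.Fin

open Finset Classical
open scoped BigOperators

namespace Pool.Agent.H61.MMS

open Pool.Agent.H49.MMS

theorem choose_id (n k : ℕ) (hk : 1 ≤ k) (hn : 1 ≤ n) :
    (k : ℝ) / n * (n.choose k : ℝ) = ((n - 1).choose (k - 1) : ℝ) := by
  obtain ⟨j, rfl⟩ : ∃ j, k = j + 1 := ⟨k - 1, by omega⟩
  obtain ⟨m, rfl⟩ : ∃ m, n = m + 1 := ⟨n - 1, by omega⟩
  rw [Nat.add_sub_cancel, Nat.add_sub_cancel]
  have h2 : (m + 1) * m.choose j = (m + 1).choose (j + 1) * (j + 1) :=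
    Nat.add_one_mul_choose_eq m j
  have h3 : (((m + 1) * m.choose j : ℕ) : ℝ) = (((m + 1).choose (j + 1) * (j + 1) : ℕ) : ℝ) := by
    rw [h2]
  push_cast at h3
  have hm : (0 : ℝ) < (m : ℝ) + 1 := by positivity
  push_cast
  rw [div_mul_eq_mul_div, div_eq_iff hm.ne']
  linarith

/-- the lower bound -/
theorem mms_lower (n k : ℕ) (hk : 1 ≤ k) (h5 : 5 * k ≤ n) (hr : 10 ^ 11 * (n % k) ≤ n)
    (x : Fin n → ℝ) (hx : 0 < ∑ i, x i) : (n - 1).choose (k - 1) ≤ posSums n k x := by
  have hn0 : (0 : ℝ) < n := by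
    have : 0 < n := by omega
    exact_mod_cast this
  have hkR : (0 : ℝ) < k := by exact_mod_cast hk
  obtain ⟨m, hm⟩ : ∃ m : ℝ, m = (∑ i, x i) / n := ⟨_, rfl⟩
  have hm0 : 0 < m := by rw [hm]; exact div_pos hx hn0
  have hsum : ∑ i, (x i - m) = 0 := by
    rw [Finset.sum_sub_distrib, Finset.sum_const, Finset.card_univ, Fintype.card_fin,
      nsmul_eq_mul, hm]
    field_simp
    ring
  have h1 := good_all n k hk h5 hr (Fin n) (fun i => x i - m) (Fintype.card_fin n) hsum.ge
  have h2 := gf_gc (fun i => x i - m) k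
  rw [Fintype.card_fin] at h2
  have h3 : gc (fun i => x i - m) univ k 0 ≤ (posSums n k x : ℝ) := by
    rw [posSums_eq]
    unfold gc goodC
    refine Finset.sum_le_sum fun S hS => ?_
    have hc := (Finset.mem_powersetCard.1 hS).2
    have h4 : ∑ i ∈ S, (x i - m) = ∑ i ∈ S, x i - k * m := by
      rw [Finset.sum_sub_distrib, Finset.sum_const, hc, nsmul_eq_mul]
    have h5 : 0 < k * m := mul_pos hkR hm0
    rw [h4]
    by_cases h6 : 0 ≤ 0 + (∑ i ∈ S, x i - k * m)
    · rw [if_pos h6, if_pos (by linarith)]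
    · rw [if_neg h6]
      split_ifs <;> norm_num
  have h4 : (((n - 1).choose (k - 1) : ℕ) : ℝ) ≤ (posSums n k x : ℝ) := by
    rw [← choose_id n k hk (by omega)]
    have h5 := mul_le_mul_of_nonneg_right h1 (Nat.cast_nonneg (n.choose k) : (0 : ℝ) ≤ n.choose k)
    linarith
  exact_mod_cast h4

/-- the star configuration -/
theorem mms_upper (n k : ℕ) (hk : 1 ≤ k) (hn : k ≤ n) :
    ∃ x : Fin n → ℝ, 0 < ∑ i, x i ∧ posSums n k x = (n - 1).choose (k - 1) := by
  obtain ⟨m, rfl⟩ : ∃ m, n = m + 1 := ⟨n - 1, by omega⟩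
  obtain ⟨j, rfl⟩ : ∃ j, k = j + 1 := ⟨k - 1, by omega⟩
  rw [Nat.add_sub_cancel, Nat.add_sub_cancel]
  set x : Fin (m + 1) → ℝ := fun i => if i = 0 then (m : ℝ) + 1 else -1 with hx
  have hx0 : x 0 = m + 1 := by rw [hx]; simp
  set M : Finset (Fin (m + 1)) := univ.erase 0 with hM
  have h0M : (0 : Fin (m + 1)) ∉ M := Finset.notMem_erase _ _
  have hMc : M.card = m := by
    rw [hM, Finset.card_erase_of_mem (Finset.mem_univ _), Finset.card_univ, Fintype.card_fin]
    rfl
  have hxM : ∀ i ∈ M, x i = -1 := by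
    intro i hi
    rw [hx]
    simp [(Finset.mem_erase.1 hi).1]
  have huniv : (univ : Finset (Fin (m + 1))) = insert 0 M := by
    rw [hM, Finset.insert_erase (Finset.mem_univ _)]
  have hsub : ∀ S ⊆ M, ∑ i ∈ S, x i = -(S.card : ℝ) := by
    intro S hS
    rw [Finset.sum_congr rfl fun i hi => hxM i (hS hi), Finset.sum_const, nsmul_eq_mul]
    ring
  refine ⟨x, ?_, ?_⟩
  · rw [huniv, Finset.sum_insert h0M, hx0, hsub M (subset_refl _), hMc]
    linarith
  · unfold posSums
    have hset : (univ.powersetCard (j + 1)).filter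
        (fun S : Finset (Fin (m + 1)) => 0 < ∑ i ∈ S, x i) =
        (M.powersetCard j).image (insert 0) := by
      ext S
      rw [huniv, Finset.powersetCard_succ_insert h0M, Finset.mem_filter, Finset.mem_union]
      constructor
      · rintro ⟨hS | hS, hpos⟩
        · exfalso
          have h1 := Finset.mem_powersetCard.1 hS
          rw [hsub S h1.1, h1.2] at hpos
          push_cast at hpos
          have : (0 : ℝ) ≤ j := Nat.cast_nonneg _
          linarith
        · exact hS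
      · intro hS
        refine ⟨Or.inr hS, ?_⟩
        obtain ⟨T, hT, rfl⟩ := Finset.mem_image.1 hS
        have h1 := Finset.mem_powersetCard.1 hT
        have h0T : (0 : Fin (m + 1)) ∉ T := fun h => h0M (h1.1 h)
        rw [Finset.sum_insert h0T, hx0, hsub T h1.1, h1.2]
        have : (j : ℝ) ≤ m := by
          have : j ≤ m := by omega
          exact_mod_cast this
        linarith
    rw [hset, Finset.card_image_of_injOn, Finset.card_powersetCard, hMc]
    intro S hS T hT h
    have hS' := Finset.mem_powersetCard.1 (Finset.mem_coe.1 hS)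
    have hT' := Finset.mem_powersetCard.1 (Finset.mem_coe.1 hT)
    have haS : (0 : Fin (m + 1)) ∉ S := fun h => h0M (hS'.1 h)
    have haT : (0 : Fin (m + 1)) ∉ T := fun h => h0M (hT'.1 h)
    rw [← Finset.erase_insert haS, ← Finset.erase_insert haT, h]

theorem mms_least (n k : ℕ) (hk : 1 ≤ k) (h5 : 5 * k ≤ n) (hr : 10 ^ 11 * (n % k) ≤ n) :
    IsLeast (values n k) ((n - 1).choose (k - 1)) ∧
    IsLeast (values n (n - k)) ((n - 1).choose (k - 1)) := by
  have h1 : IsLeast (values n k) ((n - 1).choose (k - 1)) := by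
    constructor
    · obtain ⟨x, hx, hc⟩ := mms_upper n k hk (by omega)
      exact ⟨x, hx, hc⟩
    · rintro v ⟨x, hx, rfl⟩
      exact mms_lower n k hk h5 hr x hx
  refine ⟨h1, ?_⟩
  rw [← values_symm n k hk (by omega)]
  exact h1

end Pool.Agent.H61.MMS
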